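import Pool.Agent.Helper634.Schreier
set_option autoImplicit false

/-!
Basic tools for automorphisms of a free group on an arbitrary type.
-/

namespace Pool.Agent.Helper634.FA

open FreeGroup

universe u

variable {X : Type u}

/-- the subgroup generated by the free generators in `U` -/
def H (U : Set X) : Subgroup (FreeGroup X) := Subgroup.closure (FreeGroup.of '' U)

lemma of_mem_H {U : Set X} {x : X} (hx : x ∈ U) : FreeGroup.of x ∈ H U :=
  Subgroup.subset_closure ⟨x, hx, rfl⟩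

lemma H_mono {U V : Set X} (h : U ⊆ V) : H U ≤ H V :=
  Subgroup.closure_mono (Set.image_mono h)

lemma H_univ : H (Set.univ : Set X) = ⊤ := by
  unfold H
  rw [Set.image_univ]
  exact FreeGroup.closure_range_of X

lemma mem_H_univ (w : FreeGroup X) : w ∈ H (Set.univ : Set X) := by
  rw [H_univ]; trivial

lemma exists_supp {U : Set X} {w : FreeGroup X} (hw : w ∈ H U) :
    ∃ V : Set X, V ⊆ U ∧ V.Finite ∧ w ∈ H V := by
  unfold H at hw
  induction hw using Subgroup.closure_induction with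
  | mem x hx =>
    obtain ⟨y, hy, rfl⟩ := hx
    exact ⟨{y}, by simpa using hy, Set.finite_singleton y, of_mem_H rfl⟩
  | one => exact ⟨∅, Set.empty_subset _, Set.finite_empty, Subgroup.one_mem _⟩
  | mul a b _ _ iha ihb =>
    obtain ⟨A, hA, hAf, ha⟩ := iha
    obtain ⟨B, hB, hBf, hb⟩ := ihb
    exact ⟨A ∪ B, Set.union_subset hA hB, hAf.union hBf,
      Subgroup.mul_mem _ (H_mono Set.subset_union_left ha) (H_mono Set.subset_union_right hb)⟩
  | inv a _ iha =>
    obtain ⟨A, hA, hAf, ha⟩ := iha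
    exact ⟨A, hA, hAf, Subgroup.inv_mem _ ha⟩

lemma hom_eqOn {G : Type*} [Group G] (f g : FreeGroup X →* G) {U : Set X}
    (h : ∀ x ∈ U, f (FreeGroup.of x) = g (FreeGroup.of x)) : ∀ w ∈ H U, f w = g w := by
  intro w hw
  unfold H at hw
  induction hw using Subgroup.closure_induction with
  | mem x hx => obtain ⟨y, hy, rfl⟩ := hx; exact h y hy
  | one => simp
  | mul a b _ _ iha ihb => rw [_root_.map_mul, _root_.map_mul, iha, ihb]
  | inv a _ iha => rw [_root_.map_inv, _root_.map_inv, iha]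

lemma hom_mem {G : Type*} [Group G] (f : FreeGroup X →* G) {U : Set X} (K : Subgroup G)
    (h : ∀ x ∈ U, f (FreeGroup.of x) ∈ K) : ∀ w ∈ H U, f w ∈ K := by
  intro w hw
  unfold H at hw
  induction hw using Subgroup.closure_induction with
  | mem x hx => obtain ⟨y, hy, rfl⟩ := hx; exact h y hy
  | one => simp [K.one_mem]
  | mul a b _ _ iha ihb => rw [_root_.map_mul]; exact K.mul_mem iha ihb
  | inv a _ iha => rw [_root_.map_inv]; exact K.inv_mem iha

lemma aut_eqOn (φ ψ : MulAut (FreeGroup X)) {U : Set X}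
    (h : ∀ x ∈ U, φ (FreeGroup.of x) = ψ (FreeGroup.of x)) : ∀ w ∈ H U, φ w = ψ w :=
  hom_eqOn φ.toMonoidHom ψ.toMonoidHom h

lemma aut_mem (φ : MulAut (FreeGroup X)) {U V : Set X}
    (h : ∀ x ∈ U, φ (FreeGroup.of x) ∈ H V) : ∀ w ∈ H U, φ w ∈ H V :=
  hom_mem φ.toMonoidHom (H V) h

/-- `φ` maps the subgroup generated by `U` onto itself -/
def Pres (φ : MulAut (FreeGroup X)) (U : Set X) : Prop := ∀ w, φ w ∈ H U ↔ w ∈ H U

lemma Pres.mk' {φ : MulAut (FreeGroup X)} {U : Set X} (h1 : ∀ x ∈ U, φ (FreeGroup.of x) ∈ H U)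
    (h2 : ∀ x ∈ U, φ⁻¹ (FreeGroup.of x) ∈ H U) : Pres φ U := by
  intro w
  constructor
  · intro hw
    have := aut_mem φ⁻¹ h2 _ hw
    simpa using this
  · exact aut_mem φ h1 w

lemma Pres.inv {φ : MulAut (FreeGroup X)} {U : Set X} (h : Pres φ U) : Pres φ⁻¹ U := by
  intro w
  have := h (φ⁻¹ w)
  rw [MulAut.apply_inv_self] at this
  exact this.symm

lemma Pres.mul {φ ψ : MulAut (FreeGroup X)} {U : Set X} (h : Pres φ U) (h' : Pres ψ U) :
    Pres (φ * ψ) U := by
  intro w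
  rw [MulAut.mul_apply, h, h']

lemma Pres.one {U : Set X} : Pres (1 : MulAut (FreeGroup X)) U := fun _ => Iff.rfl

lemma Pres.univ (φ : MulAut (FreeGroup X)) : Pres φ Set.univ := fun _ =>
  ⟨fun _ => mem_H_univ _, fun _ => mem_H_univ _⟩

lemma Pres.empty (φ : MulAut (FreeGroup X)) : Pres φ ∅ := by
  apply Pres.mk' <;> simp

/-- build an automorphism from two inverse families -/
def mkAut (f g : X → FreeGroup X) (h1 : ∀ x, FreeGroup.lift f (g x) = FreeGroup.of x)
    (h2 : ∀ x, FreeGroup.lift g (f x) = FreeGroup.of x) : MulAut (FreeGroup X) :=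
  MonoidHom.toMulEquiv (FreeGroup.lift f) (FreeGroup.lift g)
    (by ext x; simp [h2]) (by ext x; simp [h1])

lemma mkAut_apply (f g : X → FreeGroup X) (h1 : ∀ x, FreeGroup.lift f (g x) = FreeGroup.of x)
    (h2 : ∀ x, FreeGroup.lift g (f x) = FreeGroup.of x) (w : FreeGroup X) :
    mkAut f g h1 h2 w = FreeGroup.lift f w := rfl

lemma mkAut_of (f g : X → FreeGroup X) (h1 : ∀ x, FreeGroup.lift f (g x) = FreeGroup.of x)
    (h2 : ∀ x, FreeGroup.lift g (f x) = FreeGroup.of x) (x : X) :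
    mkAut f g h1 h2 (FreeGroup.of x) = f x := by
  rw [mkAut_apply, FreeGroup.lift_apply_of]

lemma mkAut_inv_apply (f g : X → FreeGroup X) (h1 : ∀ x, FreeGroup.lift f (g x) = FreeGroup.of x)
    (h2 : ∀ x, FreeGroup.lift g (f x) = FreeGroup.of x) (w : FreeGroup X) :
    (mkAut f g h1 h2)⁻¹ w = FreeGroup.lift g w := rfl

/-- directed unions of automorphisms -/
theorem limit_aut {K : Type*} (S : K → Set X) (φ : K → MulAut (FreeGroup X))
    (hpres : ∀ k, Pres (φ k) (S k))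
    (hdir : ∀ k l, ∃ m, (S k ⊆ S m ∧ ∀ w ∈ H (S k), φ m w = φ k w) ∧
      (S l ⊆ S m ∧ ∀ w ∈ H (S l), φ m w = φ l w)) :
    ∃ ψ : MulAut (FreeGroup X), (∀ k, ∀ w ∈ H (S k), ψ w = φ k w) ∧
      (∀ x, (∀ k, x ∉ S k) → ψ (FreeGroup.of x) = FreeGroup.of x) ∧ Pres ψ (⋃ k, S k) := by
  classical
  let f : X → FreeGroup X := fun x =>
    if h : ∃ k, x ∈ S k then φ h.choose (FreeGroup.of x) else FreeGroup.of x
  let g : X → FreeGroup X := fun x =>
    if h : ∃ k, x ∈ S k then (φ h.choose)⁻¹ (FreeGroup.of x) else FreeGroup.of x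
  have key : ∀ k m, S k ⊆ S m → (∀ w ∈ H (S k), φ m w = φ k w) →
      ∀ w ∈ H (S k), (φ m)⁻¹ w = (φ k)⁻¹ w := by
    intro k m hkm hw w hwk
    have h1 : (φ k)⁻¹ w ∈ H (S k) := (hpres k).inv w |>.mpr hwk
    have h2 := hw _ h1
    rw [MulAut.apply_inv_self] at h2
    rw [← h2, MulAut.inv_apply_self, h2]
  have hf : ∀ k, ∀ x ∈ S k, f x = φ k (FreeGroup.of x) := by
    intro k x hx
    have h : ∃ k, x ∈ S k := ⟨k, hx⟩
    simp only [f, dif_pos h]
    obtain ⟨m, ⟨h1, h2⟩, ⟨h3, h4⟩⟩ := hdir h.choose k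
    rw [← h2 _ (of_mem_H h.choose_spec), ← h4 _ (of_mem_H hx)]
  have hg : ∀ k, ∀ x ∈ S k, g x = (φ k)⁻¹ (FreeGroup.of x) := by
    intro k x hx
    have h : ∃ k, x ∈ S k := ⟨k, hx⟩
    simp only [g, dif_pos h]
    obtain ⟨m, ⟨h1, h2⟩, ⟨h3, h4⟩⟩ := hdir h.choose k
    rw [← key _ m h1 h2 _ (of_mem_H h.choose_spec), ← key _ m h3 h4 _ (of_mem_H hx)]
  have hf' : ∀ k, ∀ w ∈ H (S k), FreeGroup.lift f w = φ k w := by
    intro k
    exact hom_eqOn (FreeGroup.lift f) (φ k).toMonoidHom (fun x hx => by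
      rw [FreeGroup.lift_apply_of]; exact hf k x hx)
  have hg' : ∀ k, ∀ w ∈ H (S k), FreeGroup.lift g w = (φ k)⁻¹ w := by
    intro k
    exact hom_eqOn (FreeGroup.lift g) (φ k)⁻¹.toMonoidHom (fun x hx => by
      rw [FreeGroup.lift_apply_of]; exact hg k x hx)
  have hf0 : ∀ x, (∀ k, x ∉ S k) → f x = FreeGroup.of x := by
    intro x hx
    have h : ¬ ∃ k, x ∈ S k := by push Not; exact hx
    simp only [f, dif_neg h]
  have hg0 : ∀ x, (∀ k, x ∉ S k) → g x = FreeGroup.of x := by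
    intro x hx
    have h : ¬ ∃ k, x ∈ S k := by push Not; exact hx
    simp only [g, dif_neg h]
  have h1 : ∀ x, FreeGroup.lift f (g x) = FreeGroup.of x := by
    intro x
    by_cases h : ∃ k, x ∈ S k
    · obtain ⟨k, hk⟩ := h
      rw [hg k x hk, hf' k _ ((hpres k).inv _ |>.mpr (of_mem_H hk)), MulAut.apply_inv_self]
    · push Not at h
      rw [hg0 x h, FreeGroup.lift_apply_of, hf0 x h]
  have h2 : ∀ x, FreeGroup.lift g (f x) = FreeGroup.of x := by
    intro x
    by_cases h : ∃ k, x ∈ S k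
    · obtain ⟨k, hk⟩ := h
      rw [hf k x hk, hg' k _ ((hpres k) _ |>.mpr (of_mem_H hk)), MulAut.inv_apply_self]
    · push Not at h
      rw [hf0 x h, FreeGroup.lift_apply_of, hg0 x h]
  refine ⟨mkAut f g h1 h2, ?_, ?_, ?_⟩
  · intro k w hw
    rw [mkAut_apply, hf' k w hw]
  · intro x hx
    rw [mkAut_of, hf0 x hx]
  · apply Pres.mk'
    · intro x hx
      obtain ⟨k, hk⟩ := Set.mem_iUnion.mp hx
      rw [mkAut_of, hf k x hk]
      exact H_mono (Set.subset_iUnion S k) ((hpres k _).mpr (of_mem_H hk))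
    · intro x hx
      obtain ⟨k, hk⟩ := Set.mem_iUnion.mp hx
      rw [mkAut_inv_apply, FreeGroup.lift_apply_of, hg k x hk]
      exact H_mono (Set.subset_iUnion S k) (((hpres k).inv _).mpr (of_mem_H hk))

/-- restriction of an automorphism to a part of the basis, extended by the identity -/
theorem exists_res (φ : MulAut (FreeGroup X)) (U : Set X) (h : Pres φ U) :
    ∃ ψ : MulAut (FreeGroup X), (∀ w ∈ H U, ψ w = φ w) ∧
      (∀ x, x ∉ U → ψ (FreeGroup.of x) = FreeGroup.of x) ∧ Pres ψ U := by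
  obtain ⟨ψ, h1, h2, h3⟩ := limit_aut (K := Unit) (fun _ => U) (fun _ => φ) (fun _ => h)
    (fun _ _ => ⟨(), ⟨subset_rfl, fun _ _ => rfl⟩, ⟨subset_rfl, fun _ _ => rfl⟩⟩)
  refine ⟨ψ, h1 (), ?_, ?_⟩
  · intro x hx; exact h2 x (fun _ => hx)
  · have e : (⋃ _ : Unit, U) = U := Set.iUnion_const U
    rwa [e] at h3

noncomputable def res (φ : MulAut (FreeGroup X)) (U : Set X) (h : Pres φ U) :
    MulAut (FreeGroup X) := (exists_res φ U h).choose

lemma res_mem {φ : MulAut (FreeGroup X)} {U : Set X} (h : Pres φ U) {w : FreeGroup X}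
    (hw : w ∈ H U) : res φ U h w = φ w := (exists_res φ U h).choose_spec.1 w hw

lemma res_not {φ : MulAut (FreeGroup X)} {U : Set X} (h : Pres φ U) {x : X}
    (hx : x ∉ U) : res φ U h (FreeGroup.of x) = FreeGroup.of x :=
  (exists_res φ U h).choose_spec.2.1 x hx

lemma res_pres {φ : MulAut (FreeGroup X)} {U : Set X} (h : Pres φ U) :
    Pres (res φ U h) U := (exists_res φ U h).choose_spec.2.2

/-- an automorphism supported on `U` preserves every larger set -/
lemma Pres.of_supp {φ : MulAut (FreeGroup X)} {U V : Set X} (h : Pres φ U)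
    (hs : ∀ x, x ∉ U → φ (FreeGroup.of x) = FreeGroup.of x) (hV : U ⊆ V) : Pres φ V := by
  apply Pres.mk'
  · intro x hx
    by_cases hxU : x ∈ U
    · exact H_mono hV ((h _).mpr (of_mem_H hxU))
    · rw [hs x hxU]; exact of_mem_H hx
  · intro x hx
    by_cases hxU : x ∈ U
    · exact H_mono hV ((h.inv _).mpr (of_mem_H hxU))
    · have : φ⁻¹ (FreeGroup.of x) = FreeGroup.of x := by
        conv_lhs => rw [← hs x hxU]
        rw [MulAut.inv_apply_self]
      rw [this]; exact of_mem_H hx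

/-- union of preserved sets -/
lemma Pres.union {φ : MulAut (FreeGroup X)} {U V : Set X} (h : Pres φ U) (h' : Pres φ V) :
    Pres φ (U ∪ V) := by
  apply Pres.mk'
  · rintro x (hx | hx)
    · exact H_mono Set.subset_union_left ((h _).mpr (of_mem_H hx))
    · exact H_mono Set.subset_union_right ((h' _).mpr (of_mem_H hx))
  · rintro x (hx | hx)
    · exact H_mono Set.subset_union_left ((h.inv _).mpr (of_mem_H hx))
    · exact H_mono Set.subset_union_right ((h'.inv _).mpr (of_mem_H hx))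

/-! permutation automorphisms -/

lemma papply_inv_self (e : Equiv.Perm X) (x : X) : e (e⁻¹ x) = x := e.apply_symm_apply x

lemma pinv_apply_self (e : Equiv.Perm X) (x : X) : e⁻¹ (e x) = x := e.symm_apply_apply x

/-- permutations of the basis act by automorphisms -/
def pa : Equiv.Perm X →* MulAut (FreeGroup X) where
  toFun e := FreeGroup.freeGroupCongr e
  map_one' := by
    ext w
    change FreeGroup.map _ w = w
    exact FreeGroup.map.id w
  map_mul' a b := by
    ext w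
    change FreeGroup.map _ w = FreeGroup.map _ (FreeGroup.map _ w)
    rw [FreeGroup.map.comp]
    rfl

@[simp] lemma pa_of (e : Equiv.Perm X) (x : X) :
    pa e (FreeGroup.of x) = FreeGroup.of (e x) := FreeGroup.map.of

/-- `e` maps `U` onto itself -/
def PP (e : Equiv.Perm X) (U : Set X) : Prop := ∀ x, e x ∈ U ↔ x ∈ U

lemma PP.inv {e : Equiv.Perm X} {U : Set X} (h : PP e U) : PP e⁻¹ U := by
  intro x
  have := h (e⁻¹ x)
  rw [papply_inv_self] at this
  exact this.symm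

lemma pa_mem {e : Equiv.Perm X} {U V : Set X} (h : ∀ x ∈ U, e x ∈ V) :
    ∀ w ∈ H U, pa e w ∈ H V :=
  aut_mem _ (fun x hx => by rw [pa_of]; exact of_mem_H (h x hx))

lemma PP.pres {e : Equiv.Perm X} {U : Set X} (h : PP e U) : Pres (pa e) U := by
  apply Pres.mk'
  · intro x hx
    rw [pa_of]; exact of_mem_H ((h x).mpr hx)
  · intro x hx
    rw [← _root_.map_inv, pa_of]; exact of_mem_H ((h.inv x).mpr hx)

/-- directed unions of permutations -/
theorem limit_perm {K : Type*} (S : K → Set X) (p : K → Equiv.Perm X)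
    (hpres : ∀ k, PP (p k) (S k))
    (hdir : ∀ k l, ∃ m, (S k ⊆ S m ∧ ∀ x ∈ S k, p m x = p k x) ∧
      (S l ⊆ S m ∧ ∀ x ∈ S l, p m x = p l x)) :
    ∃ q : Equiv.Perm X, (∀ k, ∀ x ∈ S k, q x = p k x) ∧
      (∀ x, (∀ k, x ∉ S k) → q x = x) ∧ PP q (⋃ k, S k) := by
  classical
  let f : X → X := fun x => if h : ∃ k, x ∈ S k then p h.choose x else x
  let g : X → X := fun x => if h : ∃ k, x ∈ S k then (p h.choose)⁻¹ x else x
  have key : ∀ k m, S k ⊆ S m → (∀ x ∈ S k, p m x = p k x) →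
      ∀ x ∈ S k, (p m)⁻¹ x = (p k)⁻¹ x := by
    intro k m hkm hw x hx
    have h1 : (p k)⁻¹ x ∈ S k := (hpres k).inv x |>.mpr hx
    have h2 := hw _ h1
    rw [papply_inv_self] at h2
    rw [← h2, pinv_apply_self, h2]
  have hf : ∀ k, ∀ x ∈ S k, f x = p k x := by
    intro k x hx
    have h : ∃ k, x ∈ S k := ⟨k, hx⟩
    simp only [f, dif_pos h]
    obtain ⟨m, ⟨h1, h2⟩, ⟨h3, h4⟩⟩ := hdir h.choose k
    rw [← h2 _ h.choose_spec, ← h4 _ hx]
  have hg : ∀ k, ∀ x ∈ S k, g x = (p k)⁻¹ x := by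
    intro k x hx
    have h : ∃ k, x ∈ S k := ⟨k, hx⟩
    simp only [g, dif_pos h]
    obtain ⟨m, ⟨h1, h2⟩, ⟨h3, h4⟩⟩ := hdir h.choose k
    rw [← key _ m h1 h2 _ h.choose_spec, ← key _ m h3 h4 _ hx]
  have hf0 : ∀ x, (∀ k, x ∉ S k) → f x = x := by
    intro x hx
    have h : ¬ ∃ k, x ∈ S k := by push Not; exact hx
    simp only [f, dif_neg h]
  have hg0 : ∀ x, (∀ k, x ∉ S k) → g x = x := by
    intro x hx
    have h : ¬ ∃ k, x ∈ S k := by push Not; exact hx
    simp only [g, dif_neg h]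
  have h1 : ∀ x, f (g x) = x := by
    intro x
    by_cases h : ∃ k, x ∈ S k
    · obtain ⟨k, hk⟩ := h
      rw [hg k x hk, hf k _ ((hpres k).inv _ |>.mpr hk), papply_inv_self]
    · push Not at h
      rw [hg0 x h, hf0 x h]
  have h2 : ∀ x, g (f x) = x := by
    intro x
    by_cases h : ∃ k, x ∈ S k
    · obtain ⟨k, hk⟩ := h
      rw [hf k x hk, hg k _ ((hpres k) _ |>.mpr hk), pinv_apply_self]
    · push Not at h
      rw [hf0 x h, hg0 x h]
  refine ⟨⟨f, g, h2, h1⟩, ?_, ?_, ?_⟩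
  · intro k x hx
    exact hf k x hx
  · intro x hx
    exact hf0 x hx
  · intro x
    change f x ∈ _ ↔ _
    constructor
    · intro hx
      by_contra hn
      have hx' : ∀ k, x ∉ S k := fun k hk => hn (Set.mem_iUnion.mpr ⟨k, hk⟩)
      rw [hf0 x hx'] at hx
      exact hn hx
    · intro hx
      obtain ⟨k, hk⟩ := Set.mem_iUnion.mp hx
      rw [hf k x hk]
      exact Set.mem_iUnion.mpr ⟨k, (hpres k x).mpr hk⟩

end Pool.Agent.Helper634.FA
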