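import Pool.Agent.Helper634.Step
set_option autoImplicit false

/-!
The relative theorem: one countable step.
-/

namespace Pool.Agent.Helper634.FA

open FreeGroup

universe u

variable {X : Type u}

lemma cm_congr {δ δ' : MulAut (FreeGroup X)} {p p' : Equiv.Perm X} {U : Set X}
    (hδ : Pres δ U) (hp : PP p U) (h1 : ∀ w ∈ H U, δ' w = δ w) (h2 : ∀ x ∈ U, p' x = p x) :
    ∀ w ∈ H U, cm δ' p' w = cm δ p w := by
  have hδ' : ∀ w ∈ H U, δ'⁻¹ w = δ⁻¹ w := by
    intro w hw
    have h3 : δ⁻¹ w ∈ H U := (hδ.inv _).mpr hw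
    have h4 := h1 _ h3
    rw [MulAut.apply_inv_self] at h4
    conv_lhs => rw [← h4]
    rw [MulAut.inv_apply_self]
  have hpa : ∀ w ∈ H U, pa p' w = pa p w := by
    apply aut_eqOn
    intro x hx
    rw [pa_of, pa_of, h2 x hx]
  have hpai : ∀ w ∈ H U, (pa p')⁻¹ w = (pa p)⁻¹ w := by
    intro w hw
    have h3 : (pa p)⁻¹ w ∈ H U := (hp.pres.inv _).mpr hw
    have h4 := hpa _ h3
    rw [MulAut.apply_inv_self] at h4
    conv_lhs => rw [← h4]
    rw [MulAut.inv_apply_self]
  intro w hw
  have e1 : (pa p)⁻¹ w ∈ H U := (hp.pres.inv _).mpr hw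
  have e2 : δ⁻¹ ((pa p)⁻¹ w) ∈ H U := (hδ.inv _).mpr e1
  have e3 : pa p (δ⁻¹ ((pa p)⁻¹ w)) ∈ H U := (hp.pres _).mpr e2
  rw [cm_apply, cm_apply, hpai w hw, hδ' _ e1, hpa _ e2, h1 _ e3]

lemma cm_pres {δ : MulAut (FreeGroup X)} {p : Equiv.Perm X} {U : Set X}
    (hδ : Pres δ U) (hp : PP p U) : Pres (cm δ p) U :=
  ((hδ.mul hp.pres).mul hδ.inv).mul hp.pres.inv

/-- approximations -/
structure Cond (col : X → Bool) (S S' : Set X) (α : ℕ → MulAut (FreeGroup X)) where
  C : Bool → Set X
  δ : Bool → MulAut (FreeGroup X)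
  Cn : Bool → ℕ → Set X
  p : Bool → ℕ → Equiv.Perm X
  hSCn : ∀ b n, S ⊆ Cn b n
  hCnC : ∀ b n, Cn b n ⊆ C b
  hCS' : ∀ b, C b ⊆ S'
  hfin : ∀ b, (C b \ S).Finite
  hδC : ∀ b, Pres (δ b) (C b)
  hδCn : ∀ b n, Pres (δ b) (Cn b n)
  hδS : ∀ b, Pres (δ b) S
  hpCn : ∀ b n, PP (p b n) (Cn b n)
  hpS : ∀ b n, PP (p b n) S
  hpcol : ∀ b n x, col (p b n x) = col x
  hβ : ∀ n, ∃ β : Bool → MulAut (FreeGroup X), (∀ b, Pres (β b) S') ∧
    (∀ b, ∀ w ∈ H (Cn b n), β b w = cm (δ b) (p b n) w) ∧ β false = α n * β true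

variable {col : X → Bool} {S S' : Set X} {α : ℕ → MulAut (FreeGroup X)}

instance : Preorder (Cond col S S' α) where
  le c d := ∀ b, c.C b ⊆ d.C b ∧ (∀ w ∈ H (c.C b), d.δ b w = c.δ b w) ∧
    ∀ n, c.Cn b n ⊆ d.Cn b n ∧ ∀ x ∈ c.Cn b n, d.p b n x = c.p b n x
  le_refl c b := ⟨subset_rfl, fun _ _ => rfl, fun _ => ⟨subset_rfl, fun _ _ => rfl⟩⟩
  le_trans c d e h h' b := by
    refine ⟨(h b).1.trans (h' b).1, ?_, ?_⟩
    · intro w hw
      rw [(h' b).2.1 w (H_mono (h b).1 hw), (h b).2.1 w hw]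
    · intro n
      refine ⟨((h b).2.2 n).1.trans ((h' b).2.2 n).1, ?_⟩
      intro x hx
      rw [((h' b).2.2 n).2 x (((h b).2.2 n).1 hx), ((h b).2.2 n).2 x hx]

lemma cond_le_def {c d : Cond col S S' α} : c ≤ d ↔ ∀ b, c.C b ⊆ d.C b ∧
    (∀ w ∈ H (c.C b), d.δ b w = c.δ b w) ∧
    ∀ n, c.Cn b n ⊆ d.Cn b n ∧ ∀ x ∈ c.Cn b n, d.p b n x = c.p b n x := Iff.rfl

open Classical in
/-- replace the data of one side and one index -/
noncomputable def Cond.upd (c : Cond col S S' α) (b : Bool) (n : ℕ) (C' : Set X)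
    (δ' : MulAut (FreeGroup X)) (p' : Equiv.Perm X)
    (h1 : c.C b ⊆ C') (h2 : C' ⊆ S') (h3 : (C' \ S).Finite) (h4 : Pres δ' C')
    (h5 : ∀ w ∈ H (c.C b), δ' w = c.δ b w) (h6 : PP p' C')
    (h7 : ∀ x ∈ c.Cn b n, p' x = c.p b n x) (h8 : ∀ x, col (p' x) = col x)
    (h9 : ∃ β : Bool → MulAut (FreeGroup X), (∀ b, Pres (β b) S') ∧
      (∀ w ∈ H C', β b w = cm δ' p' w) ∧
      (∀ w ∈ H (c.Cn (!b) n), β (!b) w = cm (c.δ (!b)) (c.p (!b) n) w) ∧
      β false = α n * β true) : Cond col S S' α where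
  C b' := if b' = b then C' else c.C b'
  δ b' := if b' = b then δ' else c.δ b'
  Cn b' m := if b' = b ∧ m = n then C' else c.Cn b' m
  p b' m := if b' = b ∧ m = n then p' else c.p b' m
  hSCn b' m := by
    split_ifs with h
    · exact (c.hSCn b n).trans ((c.hCnC b n).trans h1)
    · exact c.hSCn b' m
  hCnC b' m := by
    by_cases hb : b' = b
    · subst hb
      by_cases hm : m = n
      · subst hm; simp
      · simp only [hm, and_false, if_false, if_true]
        exact (c.hCnC b' m).trans h1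
    · simp only [hb, false_and, if_false]
      exact c.hCnC b' m
  hCS' b' := by
    split_ifs
    · exact h2
    · exact c.hCS' b'
  hfin b' := by
    split_ifs
    · exact h3
    · exact c.hfin b'
  hδC b' := by
    split_ifs
    · exact h4
    · exact c.hδC b'
  hδCn b' m := by
    by_cases hb : b' = b
    · subst hb
      by_cases hm : m = n
      · subst hm; simpa using h4
      · simp only [hm, and_false, if_false, if_true]
        exact (c.hδCn b' m).congr (fun w hw => h5 w (H_mono (c.hCnC b' m) hw))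
    · simp only [hb, false_and, if_false]
      exact c.hδCn b' m
  hδS b' := by
    by_cases hb : b' = b
    · subst hb
      simp only [if_true]
      exact (c.hδS b').congr (fun w hw => h5 w (H_mono ((c.hSCn b' n).trans (c.hCnC b' n)) hw))
    · simp only [hb, if_false]
      exact c.hδS b'
  hpCn b' m := by
    split_ifs with h
    · exact h6
    · exact c.hpCn b' m
  hpS b' m := by
    split_ifs with h
    · obtain ⟨rfl, rfl⟩ := h
      exact (c.hpS b' m).congr (fun x hx => h7 x (c.hSCn b' m hx))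
    · exact c.hpS b' m
  hpcol b' m x := by
    split_ifs with h
    · exact h8 x
    · exact c.hpcol b' m x
  hβ m := by
    by_cases hm : m = n
    · subst hm
      obtain ⟨β, hβ1, hβ2, hβ3, hβ4⟩ := h9
      refine ⟨β, hβ1, ?_, hβ4⟩
      intro b' w
      by_cases hb : b' = b
      · subst hb
        simpa using hβ2 w
      · have hb' : b' = !b := Bool.eq_not.mpr hb
        subst hb'
        simpa using hβ3 w
    · obtain ⟨β, hβ1, hβ2, hβ3⟩ := c.hβ m
      refine ⟨β, hβ1, ?_, hβ3⟩
      intro b' w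
      by_cases hb : b' = b
      · subst hb
        simp only [hm, and_false, if_false, if_true]
        intro hw
        rw [hβ2 b' w hw]
        symm
        exact cm_congr (c.hδCn b' m) (c.hpCn b' m)
          (fun w hw => h5 w (H_mono (c.hCnC b' m) hw)) (fun _ _ => rfl) w hw
      · simp only [hb, false_and, if_false]
        exact hβ2 b' w

lemma cofinal_step (hinf : ∀ c : Bool, {x | x ∈ S' \ S ∧ col x = c}.Infinite)
    (hα : ∀ n, Pres (α n) S') (c : Cond col S S' α) (b : Bool) (n : ℕ) (x : X) (hx : x ∈ S')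
     : ∃ d : Cond col S S' α, x ∈ d.Cn b n ∧ c ≤ d := by
  obtain ⟨β, hβ1, hβ2, hβ3⟩ := c.hβ n
  have hSC : S ⊆ c.C b := (c.hSCn b n).trans (c.hCnC b n)
  have hβS : Pres (β b) S := (cm_pres (c.hδS b) (c.hpS b n)).congr
    (fun w hw => hβ2 b w (H_mono (c.hSCn b n) hw))
  obtain ⟨C', δ', p', h1, h2, h3, h4, h5, h6, h7, h8, h9, h10, h11⟩ :=
    step col S S' (c.C b) (c.Cn b n) (c.C b ∪ c.Cn (!b) n ∪ {x}) (c.hSCn b n) (c.hCnC b n)
      (Set.subset_union_left.trans Set.subset_union_left)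
      (Set.union_subset (Set.union_subset (c.hCS' b) ((c.hCnC _ n).trans (c.hCS' _)))
        (by simpa using hx))
      (by
        have h1 := c.hfin b
        have h2 : (c.Cn (!b) n \ S).Finite := (c.hfin (!b)).subset
          (fun y hy => ⟨c.hCnC _ n hy.1, hy.2⟩)
        exact ((h1.union h2).union (Set.finite_singleton x)).subset (by
          rintro y ⟨(hy | hy) | hy, hyS⟩
          · exact Or.inl (Or.inl ⟨hy, hyS⟩)
          · exact Or.inl (Or.inr ⟨hy, hyS⟩)
          · exact Or.inr hy))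
      hinf (c.δ b) (c.p b n) (β b) (c.hδC b) (c.hδCn b n) (c.hpCn b n) (c.hpcol b n) hβS
      (hβ1 b) (hβ2 b)
  have hCC' : c.C b ⊆ C' := (Set.subset_union_left.trans Set.subset_union_left).trans h1
  have hCn' : c.Cn (!b) n ⊆ c.C b ∪ c.Cn (!b) n ∪ {x} :=
    Set.subset_union_right.trans Set.subset_union_left
  have h12 : ∃ β : Bool → MulAut (FreeGroup X), (∀ b, Pres (β b) S') ∧
      (∀ w ∈ H C', β b w = cm δ' p' w) ∧
      (∀ w ∈ H (c.Cn (!b) n), β (!b) w = cm (c.δ (!b)) (c.p (!b) n) w) ∧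
      β false = α n * β true := by
    have hp : Pres (cm δ' p') S' := cm_pres h5 h8
    cases b with
    | false =>
      refine ⟨fun b' => if b' then (α n)⁻¹ * cm δ' p' else cm δ' p', ?_, ?_, ?_, ?_⟩
      · intro b'
        cases b'
        · simpa using hp
        · simpa using (hα n).inv.mul hp
      · intro w _; simp
      · intro w hw
        simp only [Bool.not_false, if_true] at hw ⊢
        rw [MulAut.mul_apply, h11 w (H_mono hCn' hw), ← hβ2 true w hw, hβ3, MulAut.mul_apply,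
          MulAut.inv_apply_self]
      · simp
    | true =>
      refine ⟨fun b' => if b' then cm δ' p' else (α n) * cm δ' p', ?_, ?_, ?_, ?_⟩
      · intro b'
        cases b'
        · simpa using (hα n).mul hp
        · simpa using hp
      · intro w _; simp
      · intro w hw
        simp only [Bool.not_true] at hw ⊢
        change (α n * cm δ' p') w = _
        rw [MulAut.mul_apply, h11 w (H_mono hCn' hw), ← hβ2 false w hw, hβ3, MulAut.mul_apply]
      · simp
  refine ⟨c.upd b n C' δ' p' hCC' h2 h3 h4 h6 h7 h9 h10 h12, ?_, ?_⟩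
  · change x ∈ (if b = b ∧ n = n then C' else c.Cn b n)
    simp only [and_self, if_true]
    exact h1 (Or.inr rfl)
  · rw [cond_le_def]
    intro b'
    refine ⟨?_, ?_, ?_⟩
    · change _ ⊆ (if b' = b then C' else c.C b')
      split_ifs with h
      · subst h; exact hCC'
      · exact subset_rfl
    · intro w hw
      change (if b' = b then δ' else c.δ b') w = _
      split_ifs with h
      · subst h; exact h6 w hw
      · rfl
    · intro m
      refine ⟨?_, ?_⟩
      · change _ ⊆ (if b' = b ∧ m = n then C' else c.Cn b' m)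
        split_ifs with h
        · obtain ⟨rfl, rfl⟩ := h
          exact (c.hCnC b' m).trans hCC'
        · exact subset_rfl
      · intro y hy
        change (if b' = b ∧ m = n then p' else c.p b' m) y = _
        split_ifs with h
        · obtain ⟨rfl, rfl⟩ := h
          exact h9 y hy
        · rfl

lemma mem_H_of_mono {T : ℕ → Set X} (hT : Monotone T) {w : FreeGroup X}
    (hw : w ∈ H (⋃ k, T k)) : ∃ k, w ∈ H (T k) := by
  unfold H at hw
  induction hw using Subgroup.closure_induction with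
  | mem x hx =>
    obtain ⟨y, hy, rfl⟩ := hx
    obtain ⟨k, hk⟩ := Set.mem_iUnion.mp hy
    exact ⟨k, of_mem_H hk⟩
  | one => exact ⟨0, Subgroup.one_mem _⟩
  | mul a b _ _ iha ihb =>
    obtain ⟨k, hk⟩ := iha
    obtain ⟨l, hl⟩ := ihb
    exact ⟨max k l, Subgroup.mul_mem _ (H_mono (hT (le_max_left _ _)) hk)
      (H_mono (hT (le_max_right _ _)) hl)⟩
  | inv a _ iha =>
    obtain ⟨k, hk⟩ := iha
    exact ⟨k, Subgroup.inv_mem _ hk⟩

theorem relative (hSS' : S ⊆ S') (hcount : (S' \ S).Countable)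
    (hinf : ∀ c : Bool, {x | x ∈ S' \ S ∧ col x = c}.Infinite)
    (hα : ∀ n, Pres (α n) S')
    (δ : Bool → MulAut (FreeGroup X)) (p : Bool → ℕ → Equiv.Perm X)
    (hδ : ∀ b, Pres (δ b) S) (hp : ∀ b n, PP (p b n) S)
    (hpcol : ∀ b n x, col (p b n x) = col x)
    (heq : ∀ n, ∀ w ∈ H S, cm (δ false) (p false n) w = α n (cm (δ true) (p true n) w)) :
    ∃ (δ' : Bool → MulAut (FreeGroup X)) (p' : Bool → ℕ → Equiv.Perm X),
      (∀ b, Pres (δ' b) S') ∧ (∀ b, ∀ w ∈ H S, δ' b w = δ b w) ∧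
      (∀ b n, PP (p' b n) S') ∧ (∀ b n, ∀ x ∈ S, p' b n x = p b n x) ∧
      (∀ b n x, col (p' b n x) = col x) ∧
      ∀ n, ∀ w ∈ H S', cm (δ' false) (p' false n) w = α n (cm (δ' true) (p' true n) w) := by
  classical
  -- initial condition
  have hinit : ∀ n, ∃ β : Bool → MulAut (FreeGroup X), (∀ b, Pres (β b) S') ∧
      (∀ b, ∀ w ∈ H S, β b w = cm (δ b) (p b n) w) ∧ β false = α n * β true := by
    intro n
    obtain ⟨q, hq1, hq2⟩ := exists_resPerm (p true n) S (hp true n)
    let d1 := res (δ true) S (hδ true)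
    have hd : Pres d1 S' := (res_pres (hδ true)).of_supp (fun x hx => res_not _ hx) hSS'
    have hq : PP q S' := PP.of_supp (fun x hx => hq2 x (fun h => hx (hSS' h)))
    have hcm : ∀ w ∈ H S, cm d1 q w = cm (δ true) (p true n) w :=
      cm_congr (hδ true) (hp true n) (fun w hw => res_mem _ hw) hq1
    refine ⟨fun b => if b then cm d1 q else α n * cm d1 q, ?_, ?_, ?_⟩
    · intro b
      cases b
      · simpa using (hα n).mul (cm_pres hd hq)
      · simpa using cm_pres hd hq
    · intro b w hw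
      cases b
      · simp only [Bool.false_eq_true, if_false]
        rw [MulAut.mul_apply, hcm w hw, heq n w hw]
      · simp only [if_true]
        rw [hcm w hw]
    · simp
  let c0 : Cond col S S' α :=
    { C := fun _ => S
      δ := δ
      Cn := fun _ _ => S
      p := p
      hSCn := fun _ _ => subset_rfl
      hCnC := fun _ _ => subset_rfl
      hCS' := fun _ => hSS'
      hfin := fun _ => by simp
      hδC := hδ
      hδCn := fun b _ => hδ b
      hδS := hδ
      hpCn := hp
      hpS := hp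
      hpcol := hpcol
      hβ := hinit }
  have : Countable ↥(S' \ S) := hcount
  have : Encodable (Bool × ℕ × ↥(S' \ S)) := Encodable.ofCountable _
  let 𝒟 : (Bool × ℕ × ↥(S' \ S)) → Order.Cofinal (Cond col S S' α) := fun i =>
    { carrier := {d | (i.2.2 : X) ∈ d.Cn i.1 i.2.1}
      isCofinal := fun c => by
        obtain ⟨d, h1, h2⟩ := cofinal_step hinf hα c i.1 i.2.1 i.2.2 i.2.2.2.1
        exact ⟨d, h1, h2⟩ }
  let s : ℕ → Cond col S S' α := Order.sequenceOfCofinals c0 𝒟
  have hmono : Monotone s := Order.sequenceOfCofinals.monotone c0 𝒟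
  have hs0 : s 0 = c0 := rfl
  have hmeet : ∀ b n, ∀ x ∈ S', ∃ k, x ∈ (s k).Cn b n := by
    intro b n x hx
    by_cases hxS : x ∈ S
    · exact ⟨0, (s 0).hSCn b n hxS⟩
    · exact ⟨_, Order.sequenceOfCofinals.encode_mem c0 𝒟 (b, n, ⟨x, hx, hxS⟩)⟩
  have hUn : ∀ b n, (⋃ k, (s k).Cn b n) = S' := by
    intro b n
    apply Set.Subset.antisymm
    · exact Set.iUnion_subset (fun k => ((s k).hCnC b n).trans ((s k).hCS' b))
    · intro x hx
      exact Set.mem_iUnion.mpr (hmeet b n x hx)
  have hU : ∀ b, (⋃ k, (s k).C b) = S' := by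
    intro b
    apply Set.Subset.antisymm
    · exact Set.iUnion_subset (fun k => ((s k).hCS' b))
    · intro x hx
      obtain ⟨k, hk⟩ := hmeet b 0 x hx
      exact Set.mem_iUnion.mpr ⟨k, (s k).hCnC b 0 hk⟩
  have hδlim : ∀ b, ∃ ψ : MulAut (FreeGroup X),
      (∀ k, ∀ w ∈ H ((s k).C b), ψ w = (s k).δ b w) ∧
      (∀ x, (∀ k, x ∉ (s k).C b) → ψ (FreeGroup.of x) = FreeGroup.of x) ∧
      Pres ψ (⋃ k, (s k).C b) := by
    intro b
    apply limit_aut (fun k => (s k).C b) (fun k => (s k).δ b) (fun k => (s k).hδC b)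
    intro k l
    refine ⟨max k l, ⟨?_, ?_⟩, ⟨?_, ?_⟩⟩
    · exact (hmono (le_max_left k l) b).1
    · exact (hmono (le_max_left k l) b).2.1
    · exact (hmono (le_max_right k l) b).1
    · exact (hmono (le_max_right k l) b).2.1
  have hplim : ∀ b n, ∃ q : Equiv.Perm X,
      (∀ k, ∀ x ∈ (s k).Cn b n, q x = (s k).p b n x) ∧
      (∀ x, (∀ k, x ∉ (s k).Cn b n) → q x = x) ∧ PP q (⋃ k, (s k).Cn b n) := by
    intro b n
    apply limit_perm (fun k => (s k).Cn b n) (fun k => (s k).p b n) (fun k => (s k).hpCn b n)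
    intro k l
    refine ⟨max k l, ⟨?_, ?_⟩, ⟨?_, ?_⟩⟩
    · exact ((hmono (le_max_left k l) b).2.2 n).1
    · exact ((hmono (le_max_left k l) b).2.2 n).2
    · exact ((hmono (le_max_right k l) b).2.2 n).1
    · exact ((hmono (le_max_right k l) b).2.2 n).2
  choose δ' hδ'1 hδ'2 hδ'3 using hδlim
  choose p' hp'1 hp'2 hp'3 using hplim
  refine ⟨δ', p', ?_, ?_, ?_, ?_, ?_, ?_⟩
  · intro b
    have := hδ'3 b
    rwa [hU b] at this
  · intro b w hw
    have := hδ'1 b 0 w
    rw [hs0] at this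
    exact this hw
  · intro b n
    have := hp'3 b n
    rwa [hUn b n] at this
  · intro b n x hx
    have := hp'1 b n 0 x
    rw [hs0] at this
    exact this hx
  · intro b n x
    by_cases hx : x ∈ S'
    · obtain ⟨k, hk⟩ := hmeet b n x hx
      rw [hp'1 b n k x hk]
      exact (s k).hpcol b n x
    · rw [hp'2 b n x]
      intro k hk
      exact hx ((s k).hCS' b ((s k).hCnC b n hk))
  · intro n w hw
    have hT : Monotone (fun k => (s k).Cn false n ∩ (s k).Cn true n) := by
      intro k l hkl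
      exact Set.inter_subset_inter ((hmono hkl false).2.2 n).1 ((hmono hkl true).2.2 n).1
    have hTU : (⋃ k, ((s k).Cn false n ∩ (s k).Cn true n)) = S' := by
      apply Set.Subset.antisymm
      · apply Set.iUnion_subset
        intro k
        exact Set.inter_subset_left.trans (((s k).hCnC _ n).trans ((s k).hCS' _))
      · intro x hx
        obtain ⟨k, hk⟩ := hmeet false n x hx
        obtain ⟨l, hl⟩ := hmeet true n x hx
        refine Set.mem_iUnion.mpr ⟨max k l, ?_, ?_⟩
        · exact ((hmono (le_max_left k l) false).2.2 n).1 hk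
        · exact ((hmono (le_max_right k l) true).2.2 n).1 hl
    rw [← hTU] at hw
    obtain ⟨k, hk⟩ := mem_H_of_mono hT hw
    obtain ⟨β, hβ1, hβ2, hβ3⟩ := (s k).hβ n
    have e1 : cm (δ' false) (p' false n) w = cm ((s k).δ false) ((s k).p false n) w := by
      apply cm_congr ((s k).hδCn false n) ((s k).hpCn false n) _ _ w
        (H_mono Set.inter_subset_left hk)
      · intro v hv; exact hδ'1 false k v (H_mono ((s k).hCnC false n) hv)
      · exact hp'1 false n k
    have e2 : cm (δ' true) (p' true n) w = cm ((s k).δ true) ((s k).p true n) w := by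
      apply cm_congr ((s k).hδCn true n) ((s k).hpCn true n) _ _ w
        (H_mono Set.inter_subset_right hk)
      · intro v hv; exact hδ'1 true k v (H_mono ((s k).hCnC true n) hv)
      · exact hp'1 true n k
    rw [e1, e2, ← hβ2 false w (H_mono Set.inter_subset_left hk),
      ← hβ2 true w (H_mono Set.inter_subset_right hk), hβ3, MulAut.mul_apply]

end Pool.Agent.Helper634.FA
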