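import Pool.Agent.Helper634.Gen
import Pool.Agent.Helper634.Relative
set_option autoImplicit false

/-!
Existence of generic extensions.
-/

namespace Pool.Agent.Helper634.FA

open FreeGroup

universe u v

variable {X : Type u}

/-- the inclusion of the free group on a subset -/
def incl (A : Set X) : FreeGroup ↥A →* FreeGroup X := FreeGroup.map Subtype.val

lemma mem_range_incl {A : Set X} {w : FreeGroup X} (hw : w ∈ H A) : ∃ v, incl A v = w := by
  have := hom_mem (MonoidHom.id (FreeGroup X)) (U := A) (incl A).range (by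
    intro x hx
    exact ⟨FreeGroup.of ⟨x, hx⟩, by simp [incl]⟩) w hw
  exact this

/-- the requests -/
abbrev Req (ι : Type v) (c D : Set X) : Type (max u v) :=
  ι × Finset ↥(c ∪ D) × (Σ W : Finset ↥(c ∪ D), (↥W → FreeGroup ↥(c ∪ D)))

variable {ι : Type v} {δ : MulAut (FreeGroup X)} {c D : Set X}

/-- the base of a request -/
def Req.U (r : Req ι c D) : Set X := c ∪ Subtype.val '' (r.2.1 : Set ↥(c ∪ D))

/-- the new letters of a request -/
def Req.W (r : Req ι c D) : Set X := Subtype.val '' (r.2.2.1 : Set ↥(c ∪ D))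

/-- `γ` is an extension as requested -/
def Req.Match (r : Req ι c D) (φ γ : MulAut (FreeGroup X)) : Prop :=
  IA γ ∧ (∀ w ∈ H r.U, γ w = φ w) ∧ Pres γ (r.U ∪ r.W) ∧
    ∀ x : ↥r.2.2.1, γ (FreeGroup.of (x.1 : X)) = incl (c ∪ D) (r.2.2.2 x)

/-- the request is realized -/
def Req.Done (r : Req ι c D) (φ : MulAut (FreeGroup X)) (P : Set X) : Prop :=
  Pres φ r.U → ∀ γ, r.Match φ γ →
    ∃ p : Equiv.Perm X, (∀ x, x ∉ D \ r.U → p x = x) ∧
      (∀ x ∈ r.U ∪ r.W, p x ∈ P) ∧ ∀ w ∈ H (r.U ∪ r.W), φ (pa p w) = pa p (γ w)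

lemma EC.extend_req (hDi : D.Infinite) (hcD : Disjoint c D) (hδc : Pres δ c)
    (α : ι → MulAut (FreeGroup X)) (hα : ∀ i, IA (α i)) (hαc : ∀ i, Pres (α i) c)
    (hαD : ∀ i, Pres (α i) (c ∪ D)) (e : EC δ c D) (r : Req ι c D) (hW : r.W ⊆ D \ r.U) :
    ∃ f : EC δ c D, e ≤ f ∧ r.U ⊆ f.P ∧ r.Done (α r.1 * f.β) f.P := by
  classical
  have hUD : r.U ⊆ c ∪ D := by
    apply Set.union_subset Set.subset_union_left
    rintro _ ⟨y, _, rfl⟩; exact y.2
  have hWD : r.W ⊆ c ∪ D := by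
    rintro _ ⟨y, _, rfl⟩; exact y.2
  have hUfin : (r.U \ c).Finite := by
    refine ((Finset.finite_toSet r.2.1).image Subtype.val).subset ?_
    rintro x ⟨hx | hx, hxc⟩
    · exact absurd hx hxc
    · exact hx
  have hWfin : r.W.Finite := (Finset.finite_toSet r.2.2.1).image Subtype.val
  obtain ⟨e1, h1, h2, h3⟩ := e.extend hδc (e.P ∪ (r.U ∪ r.W)) e.β e.hIA Set.subset_union_left
    (Set.union_subset e.hPD (Set.union_subset hUD hWD))
    ((e.hfin.union (hUfin.union hWfin)).subset (by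
      rintro x ⟨hx | hx | hx, hxc⟩
      · exact Or.inl ⟨hx, hxc⟩
      · exact Or.inr (Or.inl ⟨hx, hxc⟩)
      · exact Or.inr (Or.inr hx)))
    (fun _ _ => rfl) e.presD
  have hU1 : r.U ⊆ e1.P := (Set.subset_union_left.trans Set.subset_union_right).trans h2
  have hW1 : r.W ⊆ e1.P := (Set.subset_union_right.trans Set.subset_union_right).trans h2
  by_cases hcase : Pres (α r.1 * e1.β) r.U ∧ ∃ γ, r.Match (α r.1 * e1.β) γ
  · obtain ⟨hP, γ, hγ1, hγ2, hγ3, hγ4⟩ := hcase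
    obtain ⟨f, hf1, p, hp1, hp2, hp3⟩ := e1.extend_real hDi hcD hδc (α r.1) (hα _) (hαc _)
      (hαD _) r.U r.W hU1 hP hW1 hWfin hW γ hγ1 hγ2 hγ3
    refine ⟨f, h1.trans hf1, hU1.trans hf1.1, ?_⟩
    intro hP' γ' hγ'
    obtain ⟨hγ'1, hγ'2, hγ'3, hγ'4⟩ := hγ'
    refine ⟨p, hp1, hp2, ?_⟩
    have hγγ' : ∀ w ∈ H (r.U ∪ r.W), γ' w = γ w := by
      apply aut_eqOn
      rintro x (hx | hx)
      · rw [hγ'2 _ (of_mem_H hx), hγ2 _ (of_mem_H hx), MulAut.mul_apply, MulAut.mul_apply,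
          hf1.2 _ (of_mem_H (hU1 hx))]
      · obtain ⟨y, hy, rfl⟩ := hx
        rw [hγ'4 ⟨y, hy⟩, hγ4 ⟨y, hy⟩]
    intro w hw
    rw [hp3 w hw, hγγ' w hw]
  · refine ⟨e1, h1, hU1, ?_⟩
    intro hP γ hγ
    exact absurd ⟨hP, γ, hγ⟩ hcase

theorem exGen [Countable ι] (hc : c.Countable) (hDc : D.Countable) (hDi : D.Infinite)
    (hcD : Disjoint c D) (hδ : IA δ) (hδc : Pres δ c)
    (α : ι → MulAut (FreeGroup X)) (hα : ∀ i, IA (α i)) (hαc : ∀ i, Pres (α i) c)
    (hαD : ∀ i, Pres (α i) (c ∪ D)) :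
    ∃ δ₁ : MulAut (FreeGroup X), IA δ₁ ∧ (∀ w ∈ H c, δ₁ w = δ w) ∧ Pres δ₁ (c ∪ D) ∧
      (∀ x, x ∉ c ∪ D → δ₁ (FreeGroup.of x) = FreeGroup.of x) ∧
      ∀ i, Gen (α i * δ₁) c D := by
  classical
  let e0 : EC δ c D :=
    { β := res δ c hδc, P := c, hIA := hδ.res hδc, hcP := subset_rfl,
      hPD := Set.subset_union_left, hfin := by simp, hpres := res_pres hδc,
      hc := fun w hw => res_mem hδc hw, hnot := fun x hx => res_not hδc hx }
  have hcount : (c ∪ D).Countable := hc.union hDc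
  have : Countable ↥(c ∪ D) := hcount
  have : Countable ↥D := hDc
  let R : Type _ := (ι × ↥D) ⊕ {r : Req ι c D // r.W ⊆ D \ r.U}
  have : Encodable R := Encodable.ofCountable _
  let 𝒟 : R → Order.Cofinal (EC δ c D) := fun s => match s with
    | Sum.inl t =>
      { carrier := {f | ∃ P0, c ⊆ P0 ∧ (t.2 : X) ∈ P0 ∧ P0 ⊆ f.P ∧ Pres (α t.1 * f.β) P0}
        isCofinal := fun e => by
          obtain ⟨f, hf1, hf2⟩ := e.extend_lf hδc (α t.1) (hα _) (hαc _) (hαD _) t.2 t.2.2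
          exact ⟨f, hf2, hf1⟩ }
    | Sum.inr r =>
      { carrier := {f | r.1.U ⊆ f.P ∧ r.1.Done (α r.1.1 * f.β) f.P}
        isCofinal := fun e => by
          obtain ⟨f, hf1, hf2⟩ := e.extend_req hDi hcD hδc α hα hαc hαD r.1 r.2
          exact ⟨f, hf2, hf1⟩ }
  let s : ℕ → EC δ c D := Order.sequenceOfCofinals e0 𝒟
  have hmono : Monotone s := Order.sequenceOfCofinals.monotone e0 𝒟
  have hs0 : s 0 = e0 := rfl
  have hmeet1 : ∀ (i : ι) (x : ↥D), ∃ k, ∃ P0, c ⊆ P0 ∧ (x : X) ∈ P0 ∧ P0 ⊆ (s k).P ∧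
      Pres (α i * (s k).β) P0 := fun i x =>
    ⟨_, Order.sequenceOfCofinals.encode_mem e0 𝒟 (Sum.inl (i, x))⟩
  have hmeet2 : ∀ (r : {r : Req ι c D // r.W ⊆ D \ r.U}), ∃ k, r.1.U ⊆ (s k).P ∧
      r.1.Done (α r.1.1 * (s k).β) (s k).P := fun r =>
    ⟨_, Order.sequenceOfCofinals.encode_mem e0 𝒟 (Sum.inr r)⟩
  obtain ⟨ψ, hψ1, hψ2, hψ3⟩ := limit_aut (fun k => (s k).P) (fun k => (s k).β)
    (fun k => (s k).hpres) (by
      intro k l
      refine ⟨max k l, ⟨?_, ?_⟩, ⟨?_, ?_⟩⟩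
      · exact (hmono (le_max_left k l)).1
      · exact (hmono (le_max_left k l)).2
      · exact (hmono (le_max_right k l)).1
      · exact (hmono (le_max_right k l)).2)
  have hUPD : (⋃ k, (s k).P) ⊆ c ∪ D := Set.iUnion_subset (fun k => (s k).hPD)
  have hlf : ∀ i, ∀ x ∈ D, ∃ P0, c ⊆ P0 ∧ x ∈ P0 ∧ P0 ⊆ c ∪ D ∧ (P0 \ c).Finite ∧
      Pres (α i * ψ) P0 := by
    intro i x hx
    obtain ⟨k, P0, h1, h2, h3, h4⟩ := hmeet1 i ⟨x, hx⟩
    refine ⟨P0, h1, h2, h3.trans (s k).hPD, (s k).hfin.subset (fun y hy => ⟨h3 hy.1, hy.2⟩),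
      h4.congr ?_⟩
    intro w hw
    rw [MulAut.mul_apply, MulAut.mul_apply, hψ1 k w (H_mono h3 hw)]
  refine ⟨ψ, ?_, ?_, ?_, ?_, ?_⟩
  · apply IA.of_letters
    intro x
    by_cases hx : ∃ k, x ∈ (s k).P
    · obtain ⟨k, hk⟩ := hx
      rw [hψ1 k _ (of_mem_H hk), (s k).hIA]
    · push Not at hx
      rw [hψ2 x hx]
  · intro w hw
    rw [hψ1 0 w (H_mono (s 0).hcP hw), (s 0).hc w hw]
  · exact hψ3.of_supp (fun x hx => hψ2 x (fun k hk => hx (Set.mem_iUnion.mpr ⟨k, hk⟩))) hUPD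
  · intro x hx
    exact hψ2 x (fun k hk => hx ((s k).hPD hk))
  · intro i
    refine ⟨?_, ?_⟩
    · intro V hV hVD
      choose! P0 h1 h2 h3 h4 h5 using hlf i
      refine ⟨c ∪ ⋃ x ∈ V, P0 x, ?_, ?_, ?_, ?_⟩
      · apply Set.union_subset_union_right
        intro x hx
        exact Set.mem_biUnion hx (h2 x (hVD hx))
      · apply Set.union_subset Set.subset_union_left
        exact Set.iUnion₂_subset (fun x hx => h3 x (hVD hx))
      · have : (⋃ x ∈ V, (P0 x \ c)).Finite := hV.biUnion (fun x hx => h4 x (hVD hx))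
        refine this.subset ?_
        rintro y ⟨hy | hy, hyc⟩
        · exact absurd hy hyc
        · obtain ⟨x, hx, hyx⟩ := Set.mem_iUnion₂.mp hy
          exact Set.mem_biUnion hx ⟨hyx, hyc⟩
      · have hcψ : Pres (α i * ψ) c := (hαc i).mul (hδc.congr (fun w hw => by
          rw [hψ1 0 w (H_mono (s 0).hcP hw), (s 0).hc w hw]))
        apply hcψ.union
        apply Pres.mk'
        · intro y hy
          obtain ⟨x, hx, hyx⟩ := Set.mem_iUnion₂.mp hy
          exact H_mono (Set.subset_biUnion_of_mem hx) ((h5 x (hVD hx) _).mpr (of_mem_H hyx))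
        · intro y hy
          obtain ⟨x, hx, hyx⟩ := Set.mem_iUnion₂.mp hy
          exact H_mono (Set.subset_biUnion_of_mem hx)
            (((h5 x (hVD hx)).inv _).mpr (of_mem_H hyx))
    · intro U W hcU hUD hfin hP hW hWD γ hγ hγU hγP
      have hWD' : W ⊆ c ∪ D := fun x hx => Or.inr (hWD hx).1
      -- the request
      let U' : Finset ↥(c ∪ D) := (hfin.preimage (Subtype.val_injective.injOn)).toFinset
      let W' : Finset ↥(c ∪ D) := (hW.preimage (Subtype.val_injective.injOn)).toFinset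
      have hU' : Subtype.val '' (U' : Set ↥(c ∪ D)) = U \ c := by
        ext x
        constructor
        · rintro ⟨y, hy, rfl⟩
          simpa [U'] using hy
        · intro hx
          exact ⟨⟨x, hUD hx.1⟩, by simpa [U'] using hx, rfl⟩
      have hW' : Subtype.val '' (W' : Set ↥(c ∪ D)) = W := by
        ext x
        constructor
        · rintro ⟨y, hy, rfl⟩
          simpa [W'] using hy
        · intro hx
          exact ⟨⟨x, hWD' hx⟩, by simpa [W'] using hx, rfl⟩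
      have hex : ∀ x : ↥W', ∃ v, incl (c ∪ D) v = γ (FreeGroup.of (x.1 : X)) := by
        intro x
        apply mem_range_incl
        have hx : (x.1 : X) ∈ W := by rw [← hW']; exact ⟨x.1, x.2, rfl⟩
        exact H_mono (Set.union_subset hUD hWD') ((hγP _).mpr (of_mem_H (Or.inr hx)))
      choose g hg using hex
      let r : Req ι c D := (i, U', ⟨W', g⟩)
      have hrU : r.U = U := by
        change c ∪ Subtype.val '' (U' : Set ↥(c ∪ D)) = U
        rw [hU']
        exact Set.union_sdiff_cancel hcU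
      have hrW : r.W = W := hW'
      have hrWU : r.W ⊆ D \ r.U := by rw [hrU, hrW]; exact hWD
      obtain ⟨k, hk1, hk2⟩ := hmeet2 ⟨r, hrWU⟩
      change r.U ⊆ (s k).P at hk1
      change r.Done (α i * (s k).β) (s k).P at hk2
      unfold Req.Done at hk2
      have hUk : U ⊆ (s k).P := by rw [← hrU]; exact hk1
      have hag : ∀ w ∈ H U, (α i * (s k).β) w = (α i * ψ) w := by
        intro w hw
        rw [MulAut.mul_apply, MulAut.mul_apply, hψ1 k w (H_mono hUk hw)]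
      obtain ⟨p, hp1, hp2, hp3⟩ := hk2 (by rw [hrU]; exact hP.congr hag) γ (by
        refine ⟨hγ, ?_, ?_, ?_⟩
        · rw [hrU]
          intro w hw
          rw [hγU w hw, hag w hw]
        · rw [hrU, hrW]; exact hγP
        · intro x
          exact (hg x).symm)
      rw [hrU] at hp1
      rw [hrU, hrW] at hp2 hp3
      refine ⟨p, hp1, ?_⟩
      intro w hw
      rw [← hp3 w hw, MulAut.mul_apply, MulAut.mul_apply, hψ1 k _ (pa_mem hp2 w hw)]

end Pool.Agent.Helper634.FA
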