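import Pool.Agent.Helper634.Star
set_option autoImplicit false

/-!
A filtration of the index set by countable closed sets.
-/

namespace Pool.Agent.Helper634.FA

open FreeGroup Cardinal

universe u

variable {T : Type u}

/-- countable closures -/
lemma exists_closure (op : Finset T → Set T) (hop : ∀ g, (op g).Countable) (t0 : T) :
    ∃ E : Set T, E.Countable ∧ t0 ∈ E ∧ ∀ g : Finset T, (g : Set T) ⊆ E → op g ⊆ E := by
  classical
  let nxt : Set T → Set T := fun E => E ∪ ⋃ g ∈ {g : Finset T | (g : Set T) ⊆ E}, op g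
  let E : ℕ → Set T := fun n => nxt^[n] {t0}
  have hEs : ∀ n, E (n + 1) = nxt (E n) := fun n => Function.iterate_succ_apply' nxt n {t0}
  have hfc : ∀ A : Set T, A.Countable → {g : Finset T | (g : Set T) ⊆ A}.Countable := by
    intro A hA
    have : Countable ↥A := hA
    refine (Set.countable_range (fun g : Finset ↥A => g.map (Function.Embedding.subtype _))).mono ?_
    intro g hg
    refine ⟨g.subtype (· ∈ A), ?_⟩
    simp only
    rw [Finset.subtype_map_of_mem]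
    intro x hx
    exact hg hx
  have hcount : ∀ n, (E n).Countable := by
    intro n
    induction n with
    | zero => exact Set.countable_singleton t0
    | succ n ih =>
      rw [hEs]
      exact ih.union ((hfc _ ih).biUnion (fun g _ => hop g))
  have hmono : Monotone E := by
    apply monotone_nat_of_le_succ
    intro n
    rw [hEs]
    exact Set.subset_union_left
  refine ⟨⋃ n, E n, Set.countable_iUnion hcount, Set.mem_iUnion.mpr ⟨0, rfl⟩, ?_⟩
  intro g hg
  have h1 : ∃ n, (g : Set T) ⊆ E n := by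
    induction g using Finset.induction_on with
    | empty => exact ⟨0, by simp⟩
    | insert a g _ ih =>
      rw [Finset.coe_insert, Set.insert_subset_iff] at hg
      obtain ⟨n, hn⟩ := ih hg.2
      obtain ⟨m, hm⟩ := Set.mem_iUnion.mp hg.1
      refine ⟨max n m, ?_⟩
      rw [Finset.coe_insert, Set.insert_subset_iff]
      exact ⟨hmono (le_max_right n m) hm, hn.trans (hmono (le_max_left n m))⟩
  obtain ⟨n, hn⟩ := h1
  refine Set.Subset.trans ?_ (Set.subset_iUnion E (n + 1))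
  rw [hEs]
  refine Set.Subset.trans ?_ Set.subset_union_right
  exact Set.subset_biUnion_of_mem (u := op) (show g ∈ {g : Finset T | (g : Set T) ⊆ E n} from hn)

/-- supports of the images of the letters over an index -/
lemma exists_supp_index (α : MulAut (FreeGroup (T × ℕ))) (t : T) :
    ∃ V : Set T, V.Countable ∧ ∀ n, α (FreeGroup.of (t, n)) ∈ H (bl V) ∧
      α⁻¹ (FreeGroup.of (t, n)) ∈ H (bl V) := by
  have h1 : ∀ w : FreeGroup (T × ℕ), ∃ V : Set T, V.Finite ∧ w ∈ H (bl V) := by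
    intro w
    obtain ⟨V, _, hV, hV'⟩ := exists_supp (mem_H_univ w)
    refine ⟨Prod.fst '' V, hV.image _, H_mono ?_ hV'⟩
    intro x hx
    exact Set.mem_image_of_mem Prod.fst hx
  choose F hF1 hF2 using h1
  refine ⟨⋃ n : ℕ, (F (α (FreeGroup.of (t, n))) ∪ F (α⁻¹ (FreeGroup.of (t, n)))), ?_, ?_⟩
  · exact Set.countable_iUnion (fun n => ((hF1 _).union (hF1 _)).countable)
  · intro n
    refine ⟨H_mono (bl_mono ?_) (hF2 _), H_mono (bl_mono ?_) (hF2 _)⟩
    · exact Set.subset_union_left.trans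
        (Set.subset_iUnion (fun n : ℕ => F (α (FreeGroup.of (t, n))) ∪
          F (α⁻¹ (FreeGroup.of (t, n)))) n)
    · exact Set.subset_union_right.trans
        (Set.subset_iUnion (fun n : ℕ => F (α (FreeGroup.of (t, n))) ∪
          F (α⁻¹ (FreeGroup.of (t, n)))) n)

lemma pres_of_index {α : MulAut (FreeGroup (T × ℕ))} {V : T → Set T}
    (hV : ∀ t n, α (FreeGroup.of (t, n)) ∈ H (bl (V t)) ∧
      α⁻¹ (FreeGroup.of (t, n)) ∈ H (bl (V t))) {E : Set T} (hE : ∀ t ∈ E, V t ⊆ E) :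
    Pres α (bl E) := by
  apply Pres.mk'
  · rintro ⟨t, n⟩ hx
    exact H_mono (bl_mono (hE t hx)) (hV t n).1
  · rintro ⟨t, n⟩ hx
    exact H_mono (bl_mono (hE t hx)) (hV t n).2

/-- one step of the filtration -/
lemma step_exists (s : T → Set T) (hs1 : ∀ t, (s t).Countable)
    (α : MulAut (FreeGroup (T × ℕ))) (hT : ℵ₀ < #T)
    (hbig : ∀ J : Set T, #J < #T → ∀ g : Set T, g.Finite → ∃ k, k ∉ J ∧ g ⊆ s k)
    {K : Type u} (hK : #K < #T) (F : K → Set T) (hF : ∀ κ, (F κ).Countable) (t0 : T) :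
    ∃ E : Set T, E.Countable ∧ t0 ∈ E ∧ Pres α (bl E) ∧ (∀ t ∈ E, s t ⊆ E) ∧
      (∀ t ∈ E, (∃ κ, t ∈ F κ) → ∃ κ, t ∈ F κ ∧ F κ ⊆ E) ∧
      ∀ g : Set T, g.Finite → g ⊆ E → ∃ k ∈ E, (∀ κ, k ∉ F κ) ∧ g ⊆ s k := by
  classical
  have hprev : #(⋃ κ, F κ : Set T) < #T := by
    refine (Cardinal.mk_iUnion_le F).trans_lt ?_
    refine Cardinal.mul_lt_of_lt hT.le hK ?_
    refine lt_of_le_of_lt (ciSup_le' (fun κ => ?_)) hT
    exact Cardinal.mk_le_aleph0_iff.mpr (hF κ)
  choose V hV1 hV2 using exists_supp_index α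
  choose k hk1 hk2 using fun g : Finset T => hbig _ hprev (g : Set T) g.finite_toSet
  let op : Finset T → Set T := fun g =>
    (⋃ t ∈ g, (s t ∪ V t ∪ (if h : ∃ κ, t ∈ F κ then F h.choose else ∅))) ∪ {k g}
  obtain ⟨E, h1, h2, h3⟩ := exists_closure op (by
    intro g
    refine Set.Countable.union ?_ (Set.countable_singleton _)
    refine Set.Countable.biUnion g.countable_toSet (fun t _ => ?_)
    refine ((hs1 t).union (hV1 t)).union ?_
    split_ifs with h
    · exact hF _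
    · exact Set.countable_empty) t0
  have hsing : ∀ t ∈ E, s t ∪ V t ∪ (if h : ∃ κ, t ∈ F κ then F h.choose else ∅) ⊆ E := by
    intro t ht
    have := h3 {t} (by simpa using ht)
    refine Set.Subset.trans ?_ this
    refine Set.Subset.trans ?_ Set.subset_union_left
    intro y hy
    exact Set.mem_biUnion (Finset.mem_singleton_self t) hy
  refine ⟨E, h1, h2, ?_, ?_, ?_, ?_⟩
  · exact pres_of_index hV2 (fun t ht =>
      (Set.subset_union_right.trans Set.subset_union_left).trans (hsing t ht))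
  · intro t ht
    exact (Set.subset_union_left.trans Set.subset_union_left).trans (hsing t ht)
  · intro t ht hex
    refine ⟨hex.choose, hex.choose_spec, ?_⟩
    have := Set.subset_union_right.trans (hsing t ht)
    rw [dif_pos hex] at this
    exact this
  · intro g hg hgE
    have h4 := h3 hg.toFinset (by simpa using hgE)
    refine ⟨k hg.toFinset, h4 (Or.inr rfl), ?_, ?_⟩
    · intro κ hκ
      exact hk1 _ (Set.mem_iUnion.mpr ⟨κ, hκ⟩)
    · have := hk2 hg.toFinset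
      simpa using this

/-- the filtration -/
structure Filtr (s : T → Set T) (α : MulAut (FreeGroup (T × ℕ))) where
  Ξ : Type u
  ord : LinearOrder Ξ
  wf : WellFoundedLT Ξ
  E : Ξ → Set T
  hcount : ∀ ξ, (E ξ).Countable
  hne : ∀ ξ, ∃ t ∈ E ξ, ∀ η < ξ, t ∉ E η
  hun : ∀ t, ∃ ξ, t ∈ E ξ
  hα : ∀ ξ, Pres α (bl (E ξ))
  hs : ∀ ξ, ∀ t ∈ E ξ, s t ⊆ E ξ
  hprev : ∀ ξ, ∀ t ∈ E ξ, (∃ η < ξ, t ∈ E η) → ∃ η < ξ, t ∈ E η ∧ E η ⊆ E ξ
  hrich : ∀ ξ, ∀ g : Set T, g.Finite → g ⊆ E ξ →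
    ∃ k ∈ E ξ, (∀ η < ξ, k ∉ E η) ∧ g ⊆ s k

theorem exists_filtr (s : T → Set T) (hs1 : ∀ t, (s t).Countable)
    (α : MulAut (FreeGroup (T × ℕ))) [Infinite T]
    (hbig : ∀ J : Set T, #J < #T → ∀ g : Set T, g.Finite → ∃ k, k ∉ J ∧ g ⊆ s k) :
    Nonempty (Filtr s α) := by
  classical
  rcases (Cardinal.aleph0_le_mk T).eq_or_lt with hT | hT
  · -- the countable case
    have : Countable T := Cardinal.mk_le_aleph0_iff.mp hT.symm.le
    refine ⟨{ Ξ := PUnit, ord := inferInstance, wf := inferInstance, E := fun _ => Set.univ,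
              hcount := fun _ => Set.countable_univ, hne := ?_, hun := fun _ => ⟨PUnit.unit, trivial⟩,
              hα := ?_, hs := fun _ _ _ => Set.subset_univ _, hprev := ?_, hrich := ?_ }⟩
    · intro ξ
      obtain ⟨k, _⟩ := hbig ∅ (by simpa using hT ▸ Cardinal.aleph0_pos) ∅ Set.finite_empty
      exact ⟨k, trivial, fun η hη => absurd hη (by simp)⟩
    · intro _
      have : bl (Set.univ : Set T) = Set.univ := rfl
      rw [this]
      exact Pres.univ α
    · rintro ξ t _ ⟨η, hη, _⟩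
      exact absurd hη (by simp)
    · intro ξ g hg _
      obtain ⟨k, _, hk⟩ := hbig ∅ (by simpa using hT ▸ Cardinal.aleph0_pos) g hg
      exact ⟨k, trivial, fun η hη => absurd hη (by simp), hk⟩
  · let Ξ : Type u := (#T).ord.ToType
    have hΞ : #Ξ = #T := Cardinal.mk_ord_toType _
    obtain ⟨e⟩ : Nonempty (Ξ ≃ T) := Cardinal.eq.mp hΞ
    have hIio : ∀ ξ : Ξ, #{η : Ξ // η < ξ} < #T := by
      intro ξ
      have := Cardinal.mk_Iio_lt ξ (by rw [hΞ]; exact (Ordinal.type_toType _).symm)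
      rw [hΞ] at this
      exact this
    have hstep : ∀ (ξ : Ξ) (F : {η : Ξ // η < ξ} → Set T), (∀ κ, (F κ).Countable) →
        ∃ E : Set T, E.Countable ∧ (∃ t ∈ E, ∀ κ, t ∉ F κ) ∧ e ξ ∈ E ∧ Pres α (bl E) ∧
          (∀ t ∈ E, s t ⊆ E) ∧
          (∀ t ∈ E, (∃ κ, t ∈ F κ) → ∃ κ, t ∈ F κ ∧ F κ ⊆ E) ∧
          ∀ g : Set T, g.Finite → g ⊆ E → ∃ k ∈ E, (∀ κ, k ∉ F κ) ∧ g ⊆ s k := by
      intro ξ F hF
      obtain ⟨E, h1, h2, h3, h4, h5, h6⟩ := step_exists s hs1 α hT hbig (hIio ξ) F hF (e ξ)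
      refine ⟨E, h1, ?_, h2, h3, h4, h5, h6⟩
      obtain ⟨k, hk1, hk2, _⟩ := h6 ∅ Set.finite_empty (Set.empty_subset _)
      exact ⟨k, hk1, hk2⟩
    have hwf : WellFounded (fun a b : Ξ => a < b) := wellFounded_lt
    let E : Ξ → Set T := hwf.fix (C := fun _ => Set T) (fun ξ IH =>
      if h : ∀ κ : {η : Ξ // η < ξ}, (IH κ.1 κ.2).Countable then
        (hstep ξ (fun κ => IH κ.1 κ.2) h).choose else ∅)
    have hE : ∀ ξ, E ξ = if h : ∀ κ : {η : Ξ // η < ξ}, (E κ.1).Countable then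
        (hstep ξ (fun κ => E κ.1) h).choose else ∅ := by
      intro ξ
      exact hwf.fix_eq _ ξ
    have hcount : ∀ ξ, (E ξ).Countable := by
      intro ξ
      rw [hE]
      split_ifs with h
      · exact (hstep ξ (fun κ => E κ.1) h).choose_spec.1
      · exact Set.countable_empty
    have hspec : ∀ ξ, (∃ t ∈ E ξ, ∀ κ : {η : Ξ // η < ξ}, t ∉ E κ.1) ∧ e ξ ∈ E ξ ∧
          Pres α (bl (E ξ)) ∧
          (∀ t ∈ E ξ, s t ⊆ E ξ) ∧
          (∀ t ∈ E ξ, (∃ κ : {η : Ξ // η < ξ}, t ∈ E κ.1) →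
            ∃ κ : {η : Ξ // η < ξ}, t ∈ E κ.1 ∧ E κ.1 ⊆ E ξ) ∧
          ∀ g : Set T, g.Finite → g ⊆ E ξ →
            ∃ k ∈ E ξ, (∀ κ : {η : Ξ // η < ξ}, k ∉ E κ.1) ∧ g ⊆ s k := by
      intro ξ
      have h : ∀ κ : {η : Ξ // η < ξ}, (E κ.1).Countable := fun κ => hcount κ.1
      have h2 : E ξ = (hstep ξ (fun κ => E κ.1) h).choose := by
        rw [hE ξ, dif_pos h]
      rw [h2]
      exact (hstep ξ (fun κ => E κ.1) h).choose_spec.2
    refine ⟨{ Ξ := Ξ, ord := inferInstance, wf := inferInstance, E := E, hcount := hcount,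
              hne := ?_, hun := ?_, hα := fun ξ => (hspec ξ).2.2.1,
              hs := fun ξ => (hspec ξ).2.2.2.1, hprev := ?_, hrich := ?_ }⟩
    · intro ξ
      obtain ⟨t, h1, h2⟩ := (hspec ξ).1
      exact ⟨t, h1, fun η hη => h2 ⟨η, hη⟩⟩
    · intro t
      exact ⟨e.symm t, by
        have := (hspec (e.symm t)).2.1
        rwa [Equiv.apply_symm_apply] at this⟩
    · rintro ξ t ht ⟨η, hη, hηt⟩
      obtain ⟨κ, h1, h2⟩ := (hspec ξ).2.2.2.2.1 t ht ⟨⟨η, hη⟩, hηt⟩
      exact ⟨κ.1, κ.2, h1, h2⟩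
    · intro ξ g hg hgE
      obtain ⟨k, h1, h2, h3⟩ := (hspec ξ).2.2.2.2.2 g hg hgE
      exact ⟨k, h1, fun η hη => h2 ⟨η, hη⟩, h3⟩

end Pool.Agent.Helper634.FA
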