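import Mathlib
set_option autoImplicit false

/-!
Balls for a generating set, and finite width from strong distortion.
-/

namespace Pool.Agent.Helper634.FA

universe u

variable {G : Type u} [Group G]

/-- products of at most `k` letters of `X` and inverses -/
def W (X : Set G) (k : ℕ) : Set G :=
  {g | ∃ l : List G, l.length ≤ k ∧ (∀ x ∈ l, x ∈ X ∨ x⁻¹ ∈ X) ∧ l.prod = g}

lemma W_mono {X : Set G} {m n : ℕ} (h : m ≤ n) {g : G} (hg : g ∈ W X m) : g ∈ W X n := by
  obtain ⟨l, h1, h2, h3⟩ := hg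
  exact ⟨l, h1.trans h, h2, h3⟩

lemma W_one (X : Set G) (n : ℕ) : (1 : G) ∈ W X n := ⟨[], by simp, by simp, by simp⟩

lemma W_of {X : Set G} {x : G} (hx : x ∈ X) : x ∈ W X 1 :=
  ⟨[x], by simp, by simpa using Or.inl hx, by simp⟩

lemma W_mul {X : Set G} {m n : ℕ} {a b : G} (ha : a ∈ W X m) (hb : b ∈ W X n) :
    a * b ∈ W X (m + n) := by
  obtain ⟨l, h1, h2, h3⟩ := ha
  obtain ⟨l', h1', h2', h3'⟩ := hb
  refine ⟨l ++ l', ?_, ?_, ?_⟩
  · rw [List.length_append]; omega
  · intro x hx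
    rcases List.mem_append.mp hx with h | h
    · exact h2 x h
    · exact h2' x h
  · rw [List.prod_append, h3, h3']

lemma W_inv {X : Set G} {m : ℕ} {a : G} (ha : a ∈ W X m) : a⁻¹ ∈ W X m := by
  obtain ⟨l, h1, h2, h3⟩ := ha
  refine ⟨(l.map (fun x => x⁻¹)).reverse, ?_, ?_, ?_⟩
  · simpa using h1
  · intro x hx
    rw [List.mem_reverse, List.mem_map] at hx
    obtain ⟨y, hy, rfl⟩ := hx
    rw [inv_inv]
    exact (h2 y hy).symm
  · rw [← h3, List.prod_inv_reverse]

lemma W_pow {X : Set G} {m : ℕ} {a : G} (ha : a ∈ W X m) (n : ℕ) : a ^ n ∈ W X (n * m) := by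
  induction n with
  | zero => rw [pow_zero]; exact W_one _ _
  | succ n ih =>
    rw [pow_succ]
    have := W_mul ih ha
    rwa [show n * m + m = (n + 1) * m by ring] at this

lemma W_closure {X : Set G} (hX : Subgroup.closure X = ⊤) (g : G) : ∃ k, g ∈ W X k := by
  have hg : g ∈ Subgroup.closure X := by rw [hX]; trivial
  induction hg using Subgroup.closure_induction with
  | mem x hx => exact ⟨1, W_of hx⟩
  | one => exact ⟨0, W_one _ _⟩
  | mul x y _ _ hx hy =>
    obtain ⟨k, hk⟩ := hx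
    obtain ⟨l, hl⟩ := hy
    exact ⟨k + l, W_mul hk hl⟩
  | inv x _ hx =>
    obtain ⟨k, hk⟩ := hx
    exact ⟨k, W_inv hk⟩

lemma W_trans {S X : Set G} {M : ℕ} (hS : ∀ x ∈ S, x ∈ W X M) {k : ℕ} {g : G}
    (hg : g ∈ W S k) : g ∈ W X (k * M) := by
  obtain ⟨l, h1, h2, rfl⟩ := hg
  refine W_mono (Nat.mul_le_mul_right M h1) ?_
  clear h1
  induction l with
  | nil => exact W_one _ _
  | cons a l ih =>
    rw [List.prod_cons, List.length_cons]
    have h3 : a ∈ W X M := by
      rcases h2 a (by simp) with h | h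
      · exact hS a h
      · have := W_inv (hS _ h)
        rwa [inv_inv] at this
    have h4 := ih (fun x hx => h2 x (by simp [hx]))
    have := W_mul h3 h4
    rwa [show M + l.length * M = (l.length + 1) * M by ring] at this

/-- strong distortion implies finite width -/
theorem finite_width (L : ℕ → ℕ)
    (h : ∀ a : ℕ → G, ∃ S : Set G, S.Finite ∧ ∀ n, a n ∈ W S (L n))
    (X : Set G) (hX : Subgroup.closure X = ⊤) :
    ∃ n : ℕ, ∀ g : G, g ∈ W X n := by
  by_contra hcon
  push Not at hcon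
  choose a ha using fun n : ℕ => hcon (L n * n)
  obtain ⟨S, hS, hSa⟩ := h a
  choose k hk using fun g : G => W_closure hX g
  obtain ⟨M, hM⟩ := (hS.image k).bddAbove
  have h1 : ∀ x ∈ S, x ∈ W X M := fun x hx =>
    W_mono (hM (Set.mem_image_of_mem k hx)) (hk x)
  exact ha M (W_trans h1 (hSa M))

end Pool.Agent.Helper634.FA
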