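import Pool.Agent.Helper634.Sym
import Pool.Agent.Helper634.Width
set_option autoImplicit false

/-!
Assembly: the automorphism group of a free group of infinite rank is the normal
closure of an involution and has finite width.
-/

namespace Pool.Agent.Helper634.FA

open FreeGroup

universe u

variable {Y : Type u}

/-- the conjugate of `T` by a power of the shift -/
def AA (T : Equiv.Perm (Y × ℤ × ℤ)) (n : ℕ) : Equiv.Perm (Y × ℤ × ℤ) := (SS ^ n)⁻¹ * T * SS ^ n

/-- the commutator of `AA T n` with the square of `UU` -/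
def CC (T : Equiv.Perm (Y × ℤ × ℤ)) (n : ℕ) : Equiv.Perm (Y × ℤ × ℤ) :=
  AA T n * (UU * UU) * (AA T n)⁻¹ * (UU * UU)⁻¹

/-- the product of two such commutators, the second conjugated by `om` -/
def QQ (om T T' : Equiv.Perm (Y × ℤ × ℤ)) (n : ℕ) : Equiv.Perm (Y × ℤ × ℤ) :=
  CC T n * (om * CC T' n * om⁻¹)

/-- every sequence of permutations preserving the colour class is of the form `QQ` -/
lemma exists_QQ (om : Equiv.Perm (Y × ℤ × ℤ)) (hom : ∀ t, cl (om t) = !(cl t))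
    (p : ℕ → Equiv.Perm (Y × ℤ × ℤ)) (hp : ∀ n t, cl (p n t) = cl t) :
    ∃ T T' : Equiv.Perm (Y × ℤ × ℤ), ∀ n, p n = QQ om T T' n := by
  choose r s hr hs hrs using fun n => split_perm (p n) (hp n)
  have hs' : ∀ n t, cl t = false → (om⁻¹ * s n * om) t = t := by
    intro n t ht
    simp only [Equiv.Perm.mul_apply]
    rw [hs n (om t) (by rw [hom, ht]; rfl), pinv_apply_self]
  choose q hq using fun n => supported_eq (r n) (hr n)
  choose q' hq' using fun n => supported_eq (om⁻¹ * s n * om) (hs' n)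
  refine ⟨DD (fun i k => if 0 ≤ i ∧ 0 ≤ k ∧ k % 2 = 0 then q i.toNat else 1),
    DD (fun i k => if 0 ≤ i ∧ 0 ≤ k ∧ k % 2 = 0 then q' i.toNat else 1), fun n => ?_⟩
  have h1 := key_comm q n
  have h2 := key_comm q' n
  simp only at h1 h2
  unfold QQ CC AA
  rw [h1, h2, ← hq n, ← hq' n, hrs n]
  group

theorem main_struct {I : Type u} (e : Y ≃ Y × ℕ) (g : Y → I)
    (hg : ∀ i, (g ⁻¹' {i}).Countable) (hg' : ∀ i, (g ⁻¹' {i}).Infinite) :
    ∃ om : Equiv.Perm (Y × ℤ × ℤ), ∀ α : ℕ → MulAut (FreeGroup (Y × ℤ × ℤ)),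
      ∃ (δ : Bool → MulAut (FreeGroup (Y × ℤ × ℤ))) (T T' : Bool → Equiv.Perm (Y × ℤ × ℤ)),
        ∀ n, α n = cm (δ false) (QQ om (T false) (T' false) n) *
          (cm (δ true) (QQ om (T true) (T' true) n))⁻¹ := by
  obtain ⟨om, hom⟩ := exists_exchange e
  refine ⟨om, fun α => ?_⟩
  obtain ⟨δ, p, h1, h2⟩ := glob (fun t : Y × ℤ × ℤ => g t.1) cl α (by
      intro i
      have : (fun t : Y × ℤ × ℤ => g t.1) ⁻¹' {i} = (g ⁻¹' {i}) ×ˢ Set.univ := by
        ext t; simp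
      rw [this]
      exact (hg i).prod Set.countable_univ) (by
      intro i c
      cases c
      · have : Set.InjOn (fun y : Y => ((y, 0, 1) : Y × ℤ × ℤ)) (g ⁻¹' {i}) := by
          intro a _ b _ hab
          exact congrArg Prod.fst hab
        refine ((hg' i).image this).mono ?_
        rintro _ ⟨y, hy, rfl⟩
        exact ⟨hy, by simp [cl]⟩
      · have : Set.InjOn (fun y : Y => ((y, 0, 0) : Y × ℤ × ℤ)) (g ⁻¹' {i}) := by
          intro a _ b _ hab
          exact congrArg Prod.fst hab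
        refine ((hg' i).image this).mono ?_
        rintro _ ⟨y, hy, rfl⟩
        exact ⟨hy, by simp [cl]⟩)
  choose T T' hT using fun b => exists_QQ om hom (p b) (h1 b)
  refine ⟨δ, T, T', fun n => ?_⟩
  rw [h2 n, hT false n, hT true n]

/-- part A on the model -/
theorem model_A {I : Type u} (e : Y ≃ Y × ℕ) (g : Y → I)
    (hg : ∀ i, (g ⁻¹' {i}).Countable) (hg' : ∀ i, (g ⁻¹' {i}).Infinite) :
    Subgroup.normalClosure ({pa PI} : Set (MulAut (FreeGroup (Y × ℤ × ℤ)))) = ⊤ := by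
  obtain ⟨om, hom⟩ := main_struct e g hg hg'
  rw [eq_top_iff]
  intro α _
  set N := Subgroup.normalClosure ({pa PI} : Set (MulAut (FreeGroup (Y × ℤ × ℤ)))) with hN
  have hconj : ∀ n ∈ N, ∀ g, g * n * g⁻¹ ∈ N := fun n hn g =>
    Subgroup.Normal.conj_mem inferInstance n hn g
  have h0 : pa PI ∈ N := Subgroup.subset_normalClosure rfl
  have h1 : pa (UU * UU) ∈ N := by
    rw [UU_sq, _root_.map_mul, _root_.map_mul, _root_.map_mul, _root_.map_inv]
    exact N.mul_mem (hconj _ h0 _) h0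
  have h2 : ∀ T n, pa (CC T n) ∈ N := by
    intro T n
    unfold CC
    rw [_root_.map_mul, _root_.map_mul, _root_.map_mul, _root_.map_inv, _root_.map_inv]
    exact N.mul_mem (hconj _ h1 _) (N.inv_mem h1)
  have h3 : ∀ T T' n, pa (QQ om T T' n) ∈ N := by
    intro T T' n
    unfold QQ
    rw [_root_.map_mul, _root_.map_mul, _root_.map_mul, _root_.map_inv]
    exact N.mul_mem (h2 _ _) (hconj _ (h2 _ _) _)
  have h4 : ∀ (δ : MulAut (FreeGroup (Y × ℤ × ℤ))) T T' n, cm δ (QQ om T T' n) ∈ N := by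
    intro δ T T' n
    unfold cm
    exact N.mul_mem (hconj _ (h3 _ _ _) _) (N.inv_mem (h3 _ _ _))
  obtain ⟨δ, T, T', h⟩ := hom (fun _ => α)
  rw [h 0]
  exact N.mul_mem (h4 _ _ _ _) (N.inv_mem (h4 _ _ _ _))

/-- part B on the model -/
theorem model_B {I : Type u} (e : Y ≃ Y × ℕ) (g : Y → I)
    (hg : ∀ i, (g ⁻¹' {i}).Countable) (hg' : ∀ i, (g ⁻¹' {i}).Infinite)
    (a : ℕ → MulAut (FreeGroup (Y × ℤ × ℤ))) :
    ∃ S : Set (MulAut (FreeGroup (Y × ℤ × ℤ))), S.Finite ∧ ∀ n, a n ∈ W S (32 * n + 60) := by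
  obtain ⟨om, hom⟩ := main_struct e g hg hg'
  obtain ⟨δ, T, T', h⟩ := hom a
  refine ⟨Set.range δ ∪ Set.range (fun b => pa (T b)) ∪ Set.range (fun b => pa (T' b)) ∪
    {pa SS, pa UU, pa om}, ?_, ?_⟩
  · exact (((Set.finite_range _).union (Set.finite_range _)).union (Set.finite_range _)).union
      (by simp)
  set S := Set.range δ ∪ Set.range (fun b => pa (T b)) ∪ Set.range (fun b => pa (T' b)) ∪
    {pa SS, pa UU, pa om} with hS
  have hδ : ∀ b, δ b ∈ W S 1 := fun b => W_of (by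
    refine Or.inl (Or.inl (Or.inl ?_)); exact ⟨b, rfl⟩)
  have hT : ∀ b, pa (T b) ∈ W S 1 := fun b => W_of (by
    refine Or.inl (Or.inl (Or.inr ?_)); exact ⟨b, rfl⟩)
  have hT' : ∀ b, pa (T' b) ∈ W S 1 := fun b => W_of (by
    refine Or.inl (Or.inr ?_); exact ⟨b, rfl⟩)
  have hSS : pa SS ∈ W S 1 := W_of (by simp [hS])
  have hUU : pa UU ∈ W S 1 := W_of (by simp [hS])
  have hom' : pa om ∈ W S 1 := W_of (by simp [hS])
  have h1 : ∀ R : Equiv.Perm (Y × ℤ × ℤ), pa R ∈ W S 1 → ∀ n, pa (AA R n) ∈ W S (2 * n + 1) := by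
    intro R hR n
    unfold AA
    rw [_root_.map_mul, _root_.map_mul, _root_.map_inv, _root_.map_pow]
    have := W_mul (W_mul (W_inv (W_pow hSS n)) hR) (W_pow hSS n)
    exact W_mono (by omega) this
  have h2 : ∀ R : Equiv.Perm (Y × ℤ × ℤ), pa R ∈ W S 1 → ∀ n, pa (CC R n) ∈ W S (4 * n + 6) := by
    intro R hR n
    unfold CC
    rw [_root_.map_mul, _root_.map_mul, _root_.map_mul, _root_.map_inv, _root_.map_inv,
      _root_.map_mul]
    have h3 := h1 R hR n
    have h4 := W_mul hUU hUU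
    have := W_mul (W_mul (W_mul h3 h4) (W_inv h3)) (W_inv h4)
    exact W_mono (by omega) this
  have h3 : ∀ R R' : Equiv.Perm (Y × ℤ × ℤ), pa R ∈ W S 1 → pa R' ∈ W S 1 →
      ∀ n, pa (QQ om R R' n) ∈ W S (8 * n + 14) := by
    intro R R' hR hR' n
    unfold QQ
    rw [_root_.map_mul, _root_.map_mul, _root_.map_mul, _root_.map_inv]
    have := W_mul (h2 R hR n) (W_mul (W_mul hom' (h2 R' hR' n)) (W_inv hom'))
    exact W_mono (by omega) this
  have h4 : ∀ b n, cm (δ b) (QQ om (T b) (T' b) n) ∈ W S (16 * n + 30) := by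
    intro b n
    unfold cm
    have h5 := h3 (T b) (T' b) (hT b) (hT' b) n
    have := W_mul (W_mul (W_mul (hδ b) h5) (W_inv (hδ b))) (W_inv h5)
    exact W_mono (by omega) this
  intro n
  rw [h n]
  have := W_mul (h4 false n) (W_inv (h4 true n))
  exact W_mono (by omega) this

/-- the model -/
theorem exists_model (α : Type u) [Infinite α] :
    ∃ (Y : Type u) (_ : Y ≃ Y × ℕ) (g : Y → α) (_ : ∀ i, (g ⁻¹' {i}).Countable)
      (_ : ∀ i, (g ⁻¹' {i}).Infinite), Nonempty (α ≃ Y × ℤ × ℤ) := by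
  have hN : Nonempty (ℕ ≃ ℕ × ℕ) := ⟨(Denumerable.eqv _).symm⟩
  have hZ : Nonempty (ℕ ≃ ℕ × ℤ × ℤ) := ⟨(Denumerable.eqv _).symm⟩
  obtain ⟨eN⟩ := hN
  obtain ⟨eZ⟩ := hZ
  have h1 : Nonempty (α ≃ α × ℕ) := by
    rw [← Cardinal.eq, Cardinal.mk_prod]
    simp only [Cardinal.lift_uzero, Cardinal.mk_eq_aleph0 ℕ, Cardinal.lift_aleph0]
    exact (Cardinal.mul_aleph0_eq (Cardinal.aleph0_le_mk α)).symm
  obtain ⟨e1⟩ := h1
  refine ⟨α × ℕ, ?_, Prod.fst, ?_, ?_, ?_⟩
  · exact ((Equiv.refl α).prodCongr eN).trans (Equiv.prodAssoc α ℕ ℕ).symm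
  · intro i
    have : (Prod.fst : α × ℕ → α) ⁻¹' {i} = {i} ×ˢ Set.univ := by ext t; simp
    rw [this]
    exact (Set.countable_singleton i).prod Set.countable_univ
  · intro i
    have : Set.InjOn (fun n : ℕ => (i, n)) Set.univ := by
      intro a _ b _ hab
      exact congrArg Prod.snd hab
    refine (Set.infinite_univ.image this).mono ?_
    rintro _ ⟨n, _, rfl⟩
    rfl
  · exact ⟨e1.trans (((Equiv.refl α).prodCongr eZ).trans (Equiv.prodAssoc α ℕ (ℤ × ℤ)).symm)⟩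

/-- Part A. -/
theorem thm_A (α : Type u) [Infinite α] :
    ∃ σ : MulAut (FreeGroup α), σ ≠ 1 ∧ σ * σ = 1 ∧
      Subgroup.normalClosure ({σ} : Set (MulAut (FreeGroup α))) = ⊤ := by
  obtain ⟨Y, e, g, hg, hg', ⟨E⟩⟩ := exists_model α
  let Φ : MulAut (FreeGroup (Y × ℤ × ℤ)) ≃* MulAut (FreeGroup α) :=
    MulAut.congr (FreeGroup.freeGroupCongr E.symm)
  have hA := model_A e g hg hg'
  refine ⟨Φ (pa PI), ?_, ?_, ?_⟩
  · intro h
    have h1 : pa (PI : Equiv.Perm (Y × ℤ × ℤ)) = 1 := by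
      apply Φ.injective
      rw [h, _root_.map_one]
    obtain ⟨a⟩ : Nonempty α := inferInstance
    obtain ⟨y, -⟩ := (hg' a).nonempty
    have h2 : pa PI (FreeGroup.of (y, (0 : ℤ), (1 : ℤ))) = FreeGroup.of (y, (0 : ℤ), (1 : ℤ)) := by
      rw [h1]; rfl
    rw [pa_of, PI_apply] at h2
    have h3 := FreeGroup.of_injective h2
    simp at h3
  · rw [← _root_.map_mul, ← _root_.map_mul, PI_mul_self, _root_.map_one, _root_.map_one]
  · rw [eq_top_iff]
    intro x _
    have h1 : Φ.symm x ∈ Subgroup.normalClosure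
        ({pa PI} : Set (MulAut (FreeGroup (Y × ℤ × ℤ)))) := by
      rw [hA]; trivial
    have h2 : Subgroup.normalClosure ({pa PI} : Set (MulAut (FreeGroup (Y × ℤ × ℤ)))) ≤
        (Subgroup.normalClosure ({Φ (pa PI)} : Set (MulAut (FreeGroup α)))).comap
          Φ.toMonoidHom := by
      apply Subgroup.normalClosure_le_normal
      rw [Set.singleton_subset_iff]
      exact Subgroup.subset_normalClosure rfl
    have h3 := h2 h1
    rw [Subgroup.mem_comap] at h3
    simpa using h3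

/-- Part B. -/
theorem thm_B (α : Type u) [Infinite α] (X : Set (MulAut (FreeGroup α)))
    (hX : Subgroup.closure X = ⊤) :
    ∃ n : ℕ, ∀ g : MulAut (FreeGroup α), g ∈ W X n := by
  obtain ⟨Y, e, g, hg, hg', ⟨E⟩⟩ := exists_model α
  let Φ : MulAut (FreeGroup (Y × ℤ × ℤ)) ≃* MulAut (FreeGroup α) :=
    MulAut.congr (FreeGroup.freeGroupCongr E.symm)
  refine finite_width (fun n => 32 * n + 60) ?_ X hX
  intro a
  obtain ⟨S, hS, h⟩ := model_B e g hg hg' (fun n => Φ.symm (a n))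
  refine ⟨Φ '' S, hS.image _, fun n => ?_⟩
  obtain ⟨l, h1, h2, h3⟩ := h n
  refine ⟨l.map Φ, by simpa using h1, ?_, ?_⟩
  · intro x hx
    obtain ⟨y, hy, rfl⟩ := List.mem_map.mp hx
    rcases h2 y hy with h | h
    · exact Or.inl (Set.mem_image_of_mem _ h)
    · refine Or.inr ?_
      rw [← _root_.map_inv]
      exact Set.mem_image_of_mem _ h
  · rw [← map_list_prod, h3]
    simp

end Pool.Agent.Helper634.FA
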