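import Pool.Agent.Helper634.Homology
set_option autoImplicit false

/-!
Generic automorphisms relative to a countable part of the basis.
-/

namespace Pool.Agent.Helper634.FA

open FreeGroup

universe u

variable {X : Type u}

lemma H_inter {A B : Set X} {w : FreeGroup X} (hA : w ∈ H A) (hB : w ∈ H B) : w ∈ H (A ∩ B) := by
  classical
  let r : FreeGroup X →* FreeGroup X :=
    FreeGroup.lift (fun x => if x ∈ B then FreeGroup.of x else 1)
  have h1 : r w = w := hom_eqOn r (MonoidHom.id _) (by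
    intro x hx
    simp [r, hx]) w hB
  have h2 : r w ∈ H (A ∩ B) := hom_mem r _ (by
    intro x hx
    by_cases hxB : x ∈ B
    · simp only [r, FreeGroup.lift_apply_of]
      rw [if_pos hxB]
      exact of_mem_H ⟨hx, hxB⟩
    · simp only [r, FreeGroup.lift_apply_of]
      rw [if_neg hxB]
      exact Subgroup.one_mem _) w hA
  rwa [h1] at h2

lemma Pres.inter {φ : MulAut (FreeGroup X)} {A B : Set X} (hA : Pres φ A) (hB : Pres φ B) :
    Pres φ (A ∩ B) := by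
  apply Pres.mk'
  · intro x hx
    exact H_inter ((hA _).mpr (of_mem_H hx.1)) ((hB _).mpr (of_mem_H hx.2))
  · intro x hx
    exact H_inter ((hA.inv _).mpr (of_mem_H hx.1)) ((hB.inv _).mpr (of_mem_H hx.2))

theorem exists_amalg (φ₁ φ₂ : MulAut (FreeGroup X)) (A B : Set X) (h1 : Pres φ₁ A)
    (h2 : Pres φ₂ B) (h12 : Pres φ₁ (A ∩ B))
    (he : ∀ x ∈ A ∩ B, φ₂ (FreeGroup.of x) = φ₁ (FreeGroup.of x)) :
    ∃ ψ : MulAut (FreeGroup X), (∀ w ∈ H A, ψ w = φ₁ w) ∧ (∀ w ∈ H B, ψ w = φ₂ w) ∧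
      (∀ x, x ∉ A ∪ B → ψ (FreeGroup.of x) = FreeGroup.of x) ∧ Pres ψ (A ∪ B) := by
  classical
  have he' : ∀ w ∈ H (A ∩ B), φ₂ w = φ₁ w := aut_eqOn φ₂ φ₁ he
  let f : X → FreeGroup X := fun x =>
    if x ∈ A then φ₁ (FreeGroup.of x) else if x ∈ B then φ₂ (FreeGroup.of x) else FreeGroup.of x
  let g : X → FreeGroup X := fun x =>
    if x ∈ A then φ₁⁻¹ (FreeGroup.of x) else
      if x ∈ B then φ₂⁻¹ (FreeGroup.of x) else FreeGroup.of x
  have hfA : ∀ x ∈ A, f x = φ₁ (FreeGroup.of x) := fun x hx => by simp only [f]; rw [if_pos hx]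
  have hgA : ∀ x ∈ A, g x = φ₁⁻¹ (FreeGroup.of x) := fun x hx => by simp only [g]; rw [if_pos hx]
  have hfB : ∀ x ∈ B, f x = φ₂ (FreeGroup.of x) := fun x hx => by
    by_cases hxA : x ∈ A
    · rw [hfA x hxA, he x ⟨hxA, hx⟩]
    · simp only [f]; rw [if_neg hxA, if_pos hx]
  have hgB : ∀ x ∈ B, g x = φ₂⁻¹ (FreeGroup.of x) := fun x hx => by
    by_cases hxA : x ∈ A
    · rw [hgA x hxA]
      apply φ₂.injective
      rw [MulAut.apply_inv_self, he' _ ((h12.inv _).mpr (of_mem_H ⟨hxA, hx⟩)),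
        MulAut.apply_inv_self]
    · simp only [g]; rw [if_neg hxA, if_pos hx]
  have hf0 : ∀ x, x ∉ A → x ∉ B → f x = FreeGroup.of x := fun x h h' => by
    simp only [f]; rw [if_neg h, if_neg h']
  have hg0 : ∀ x, x ∉ A → x ∉ B → g x = FreeGroup.of x := fun x h h' => by
    simp only [g]; rw [if_neg h, if_neg h']
  have hfA' : ∀ w ∈ H A, FreeGroup.lift f w = φ₁ w :=
    hom_eqOn (FreeGroup.lift f) φ₁.toMonoidHom (fun x hx => by
      rw [FreeGroup.lift_apply_of]; exact hfA x hx)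
  have hfB' : ∀ w ∈ H B, FreeGroup.lift f w = φ₂ w :=
    hom_eqOn (FreeGroup.lift f) φ₂.toMonoidHom (fun x hx => by
      rw [FreeGroup.lift_apply_of]; exact hfB x hx)
  have hgA' : ∀ w ∈ H A, FreeGroup.lift g w = φ₁⁻¹ w :=
    hom_eqOn (FreeGroup.lift g) φ₁⁻¹.toMonoidHom (fun x hx => by
      rw [FreeGroup.lift_apply_of]; exact hgA x hx)
  have hgB' : ∀ w ∈ H B, FreeGroup.lift g w = φ₂⁻¹ w :=
    hom_eqOn (FreeGroup.lift g) φ₂⁻¹.toMonoidHom (fun x hx => by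
      rw [FreeGroup.lift_apply_of]; exact hgB x hx)
  have e1 : ∀ x, FreeGroup.lift f (g x) = FreeGroup.of x := by
    intro x
    by_cases hA : x ∈ A
    · rw [hgA x hA, hfA' _ ((h1.inv _).mpr (of_mem_H hA)), MulAut.apply_inv_self]
    · by_cases hB : x ∈ B
      · rw [hgB x hB, hfB' _ ((h2.inv _).mpr (of_mem_H hB)), MulAut.apply_inv_self]
      · rw [hg0 x hA hB, FreeGroup.lift_apply_of, hf0 x hA hB]
  have e2 : ∀ x, FreeGroup.lift g (f x) = FreeGroup.of x := by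
    intro x
    by_cases hA : x ∈ A
    · rw [hfA x hA, hgA' _ ((h1 _).mpr (of_mem_H hA)), MulAut.inv_apply_self]
    · by_cases hB : x ∈ B
      · rw [hfB x hB, hgB' _ ((h2 _).mpr (of_mem_H hB)), MulAut.inv_apply_self]
      · rw [hf0 x hA hB, FreeGroup.lift_apply_of, hg0 x hA hB]
  have f1 : ∀ w ∈ H A, mkAut f g e1 e2 w = φ₁ w := fun w hw => by rw [mkAut_apply, hfA' w hw]
  have f2 : ∀ w ∈ H B, mkAut f g e1 e2 w = φ₂ w := fun w hw => by rw [mkAut_apply, hfB' w hw]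
  refine ⟨mkAut f g e1 e2, f1, f2, ?_, (h1.congr f1).union (h2.congr f2)⟩
  intro x hx
  rw [mkAut_of, hf0 x (fun h => hx (Or.inl h)) (fun h => hx (Or.inr h))]

/-- genericity of `δ` on `c ∪ D` relative to `c` -/
structure Gen (δ : MulAut (FreeGroup X)) (c D : Set X) : Prop where
  lf : ∀ V : Set X, V.Finite → V ⊆ D →
    ∃ U : Set X, c ∪ V ⊆ U ∧ U ⊆ c ∪ D ∧ (U \ c).Finite ∧ Pres δ U
  ext : ∀ U W : Set X, c ⊆ U → U ⊆ c ∪ D → (U \ c).Finite → Pres δ U → W.Finite →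
    W ⊆ D \ U → ∀ γ : MulAut (FreeGroup X), IA γ → (∀ w ∈ H U, γ w = δ w) → Pres γ (U ∪ W) →
    ∃ p : Equiv.Perm X, (∀ x, x ∉ D \ U → p x = x) ∧
      ∀ w ∈ H (U ∪ W), δ (pa p w) = pa p (γ w)

lemma pa_fix {p : Equiv.Perm X} {U : Set X} (h : ∀ x ∈ U, p x = x) :
    ∀ w ∈ H U, pa p w = w :=
  aut_eqOn (pa p) 1 (fun x hx => by rw [pa_of, h x hx]; rfl)

lemma pa_inv_fix {p : Equiv.Perm X} {U : Set X} (h : ∀ x ∈ U, p x = x) :
    ∀ w ∈ H U, (pa p)⁻¹ w = w := fun w hw => by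
  conv_lhs => rw [← pa_fix h w hw]
  rw [MulAut.inv_apply_self]

lemma Gen.congr {δ δ' : MulAut (FreeGroup X)} {c D : Set X} (h : Gen δ c D)
    (h' : ∀ w ∈ H (c ∪ D), δ' w = δ w) : Gen δ' c D where
  lf V hV hVD := by
    obtain ⟨U, h1, h2, h3, h4⟩ := h.lf V hV hVD
    exact ⟨U, h1, h2, h3, h4.congr (fun w hw => h' w (H_mono h2 hw))⟩
  ext U W hcU hUD hfin hP hW hWD γ hγ hγU hγP := by
    have hP' : Pres δ U := hP.congr (fun w hw => (h' w (H_mono hUD hw)).symm)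
    obtain ⟨p, hp1, hp2⟩ := h.ext U W hcU hUD hfin hP' hW hWD γ hγ
      (fun w hw => by rw [hγU w hw, h' w (H_mono hUD hw)]) hγP
    refine ⟨p, hp1, fun w hw => ?_⟩
    rw [← hp2 w hw]
    apply h'
    have hpp : PP p (D \ U) := PP.of_supp hp1
    refine pa_mem (U := U ∪ W) ?_ w hw
    rintro x hx
    by_cases hxD : x ∈ D \ U
    · exact Or.inr ((hpp x).mpr hxD).1
    · rw [hp1 x hxD]
      rcases hx with hx | hx
      · exact hUD hx
      · exact Or.inr (hWD hx).1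

lemma Gen.conj {δ h : MulAut (FreeGroup X)} {c D : Set X} (hδ : Gen δ c D)
    (hcD : Disjoint c D) (hc : Pres h c)
    (hnot : ∀ x, x ∉ c → h (FreeGroup.of x) = FreeGroup.of x) : Gen (h * δ * h⁻¹) c D where
  lf V hV hVD := by
    obtain ⟨U, h1, h2, h3, h4⟩ := hδ.lf V hV hVD
    have hU : Pres h U := hc.of_supp hnot (Set.subset_union_left.trans h1)
    exact ⟨U, h1, h2, h3, (hU.mul h4).mul hU.inv⟩
  ext U W hcU hUD hfin hP hW hWD γ hγ hγU hγP := by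
    have hU : Pres h U := hc.of_supp hnot hcU
    have hUW : Pres h (U ∪ W) := hc.of_supp hnot (hcU.trans Set.subset_union_left)
    have hP' : Pres δ U := by
      have := (hU.inv.mul hP).mul hU
      have e : h⁻¹ * (h * δ * h⁻¹) * h = δ := by group
      rwa [e] at this
    obtain ⟨p, hp1, hp2⟩ := hδ.ext U W hcU hUD hfin hP' hW hWD (h⁻¹ * γ * h)
      (by simpa using hγ.conj h⁻¹)
      (fun w hw => by
        rw [MulAut.mul_apply, MulAut.mul_apply, hγU _ ((hU w).mpr hw), MulAut.mul_apply,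
          MulAut.mul_apply, MulAut.inv_apply_self, MulAut.inv_apply_self])
      ((hUW.inv.mul hγP).mul hUW)
    have hcomm : ∀ w, h (pa p w) = pa p (h w) := by
      intro w
      have hpc : ∀ x ∈ c, p x = x := fun x hx =>
        hp1 x (fun h => Set.disjoint_left.mp hcD hx h.1)
      have := aut_eqOn (h * pa p) (pa p * h) (U := Set.univ) (by
        intro x _
        rw [MulAut.mul_apply, MulAut.mul_apply, pa_of]
        by_cases hx : x ∈ c
        · rw [hpc x hx, pa_fix hpc _ ((hc _).mpr (of_mem_H hx))]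
        · rw [hnot x hx, pa_of]
          apply hnot
          intro hpx
          have h1 := hpc _ hpx
          have h2 := p.injective h1
          rw [h2] at hpx
          exact hx hpx) w (mem_H_univ w)
      exact this
    have hcomm' : ∀ w, h⁻¹ (pa p w) = pa p (h⁻¹ w) := by
      intro w
      apply h.injective
      rw [MulAut.apply_inv_self, hcomm, MulAut.apply_inv_self]
    refine ⟨p, hp1, fun w hw => ?_⟩
    rw [MulAut.mul_apply, MulAut.mul_apply, hcomm', hp2 _ ((hUW.inv w).mpr hw), hcomm,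
      MulAut.mul_apply, MulAut.mul_apply, MulAut.apply_inv_self, MulAut.apply_inv_self]

lemma choose_fresh (E T : Set X) (hE : E.Finite) (hT : T.Infinite) :
    ∃ ε : X → X, Set.InjOn ε E ∧ ∀ e ∈ E, ε e ∈ T := by
  obtain ⟨n, hn⟩ := Set.countable_iff_exists_injOn.mp hE.countable
  refine ⟨fun x => (hT.natEmbedding _ (n x)).1, ?_, ?_⟩
  · intro x hx y hy hxy
    have := (Set.Infinite.natEmbedding _ hT).injective (Subtype.ext hxy)
    exact hn hx hy this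
  · intro e _
    exact (hT.natEmbedding _ (n e)).2

/-- conditions for the generic construction -/
structure EC (δ : MulAut (FreeGroup X)) (c D : Set X) where
  β : MulAut (FreeGroup X)
  P : Set X
  hIA : IA β
  hcP : c ⊆ P
  hPD : P ⊆ c ∪ D
  hfin : (P \ c).Finite
  hpres : Pres β P
  hc : ∀ w ∈ H c, β w = δ w
  hnot : ∀ x, x ∉ P → β (FreeGroup.of x) = FreeGroup.of x

variable {δ : MulAut (FreeGroup X)} {c D : Set X}

instance : Preorder (EC δ c D) where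
  le e f := e.P ⊆ f.P ∧ ∀ w ∈ H e.P, f.β w = e.β w
  le_refl e := ⟨subset_rfl, fun _ _ => rfl⟩
  le_trans e f g h h' := by
    refine ⟨h.1.trans h'.1, ?_⟩
    intro w hw
    rw [h'.2 w (H_mono h.1 hw), h.2 w hw]

lemma EC.le_def {e f : EC δ c D} : e ≤ f ↔ e.P ⊆ f.P ∧ ∀ w ∈ H e.P, f.β w = e.β w := Iff.rfl

lemma EC.presD (e : EC δ c D) : Pres e.β (c ∪ D) := e.hpres.of_supp e.hnot e.hPD

lemma EC.extend (hδc : Pres δ c) (e : EC δ c D) (P' : Set X) (β' : MulAut (FreeGroup X))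
    (hIA : IA β') (h1 : e.P ⊆ P') (h2 : P' ⊆ c ∪ D) (h3 : (P' \ c).Finite)
    (h4 : ∀ w ∈ H e.P, β' w = e.β w) (h5 : Pres β' (c ∪ D)) :
    ∃ f : EC δ c D, e ≤ f ∧ P' ⊆ f.P ∧ ∀ w ∈ H P', f.β w = β' w := by
  have hcP' : c ⊆ P' := e.hcP.trans h1
  have hβ'c : ∀ w ∈ H c, β' w = δ w := fun w hw => by
    rw [h4 w (H_mono e.hcP hw), e.hc w hw]
  have hpc : Pres β' c := hδc.congr hβ'c
  obtain ⟨Q, hQ1, hQ2, hQ3, hQ4⟩ := exists_C2 c (c ∪ D) P' hcP' h2 h3 β' hpc h5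
  obtain ⟨β₁, g1, g2, g3, g4⟩ := lemmaE_IA c P' Q hcP' hQ1 hQ3 β' hIA hpc hQ4
  refine ⟨{ β := β₁, P := Q, hIA := g1, hcP := hcP'.trans hQ1, hPD := hQ2, hfin := hQ3,
            hpres := g3, hc := ?_, hnot := g4 }, ?_, hQ1, g2⟩
  · intro w hw
    rw [g2 w (H_mono hcP' hw), hβ'c w hw]
  · refine ⟨h1.trans hQ1, ?_⟩
    intro w hw
    change β₁ w = _
    rw [g2 w (H_mono h1 hw), h4 w hw]

lemma EC.extend_lf (hδc : Pres δ c) (α : MulAut (FreeGroup X)) (hα : IA α) (hαc : Pres α c)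
    (hαD : Pres α (c ∪ D)) (e : EC δ c D) (x : X) (hx : x ∈ D) :
    ∃ f : EC δ c D, e ≤ f ∧ ∃ P0, c ⊆ P0 ∧ x ∈ P0 ∧ P0 ⊆ f.P ∧ Pres (α * f.β) P0 := by
  have hcP1 : c ⊆ insert x e.P := e.hcP.trans (Set.subset_insert _ _)
  have hP1D : insert x e.P ⊆ c ∪ D := Set.insert_subset (Or.inr hx) e.hPD
  have hfin1 : (insert x e.P \ c).Finite := (e.hfin.union (Set.finite_singleton x)).subset (by
    rintro y ⟨hy | hy, hyc⟩
    · exact Or.inr hy
    · exact Or.inl ⟨hy, hyc⟩)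
  have hpc : Pres (α * e.β) c := hαc.mul (hδc.congr e.hc)
  obtain ⟨Q, hQ1, hQ2, hQ3, hQ4⟩ := exists_C2 c (c ∪ D) (insert x e.P) hcP1 hP1D hfin1
    (α * e.β) hpc (hαD.mul e.presD)
  obtain ⟨β₁, g1, g2, g3, g4⟩ := lemmaE_IA c (insert x e.P) Q hcP1 hQ1 hQ3 (α * e.β)
    (hα.mul e.hIA) hpc hQ4
  obtain ⟨f, hf1, hf2, hf3⟩ := e.extend hδc Q (α⁻¹ * β₁) (hα.inv.mul g1)
    ((Set.subset_insert _ _).trans hQ1) hQ2 hQ3 (by
      intro w hw
      rw [MulAut.mul_apply, g2 w (H_mono (Set.subset_insert _ _) hw), MulAut.mul_apply,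
        MulAut.inv_apply_self]) (hαD.inv.mul (g3.of_supp g4 hQ2))
  refine ⟨f, hf1, Q, hcP1.trans hQ1, hQ1 (Set.mem_insert _ _), hf2, ?_⟩
  refine g3.congr ?_
  intro w hw
  rw [MulAut.mul_apply, hf3 w hw, MulAut.mul_apply, MulAut.apply_inv_self]

lemma EC.extend_real (hDi : D.Infinite) (hcD : Disjoint c D) (hδc : Pres δ c)
    (α : MulAut (FreeGroup X)) (hα : IA α) (hαc : Pres α c)
    (hαD : Pres α (c ∪ D)) (e : EC δ c D) (U W : Set X) (hUP : U ⊆ e.P)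
    (hU : Pres (α * e.β) U) (hWP : W ⊆ e.P) (hWfin : W.Finite) (hWD : W ⊆ D \ U)
    (γ : MulAut (FreeGroup X)) (hγ : IA γ) (hγU : ∀ w ∈ H U, γ w = (α * e.β) w)
    (hγP : Pres γ (U ∪ W)) :
    ∃ f : EC δ c D, e ≤ f ∧ ∃ p : Equiv.Perm X, (∀ x, x ∉ D \ U → p x = x) ∧
      (∀ x ∈ U ∪ W, p x ∈ f.P) ∧
      ∀ w ∈ H (U ∪ W), (α * f.β) (pa p w) = pa p (γ w) := by
  have hpc : Pres (α * e.β) c := hαc.mul (hδc.congr e.hc)
  obtain ⟨Q, hQ1, hQ2, hQ3, hQ4⟩ := exists_C2 c (c ∪ D) e.P e.hcP e.hPD e.hfin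
    (α * e.β) hpc (hαD.mul e.presD)
  obtain ⟨β₁, g1, g2, g3, g4⟩ := lemmaE_IA c e.P Q e.hcP hQ1 hQ3 (α * e.β)
    (hα.mul e.hIA) hpc hQ4
  have hT : (D \ Q).Infinite := by
    have : D \ (Q \ c) ⊆ D \ Q := by
      rintro x ⟨h1, h2⟩
      exact ⟨h1, fun h => h2 ⟨h, fun h' => Set.disjoint_left.mp hcD h' h1⟩⟩
    exact (hDi.sdiff hQ3).mono this
  obtain ⟨ε, hε1, hε2⟩ := choose_fresh W (D \ Q) hWfin hT
  have hUQ : U ⊆ Q := hUP.trans hQ1
  have hWQ : W ⊆ Q := hWP.trans hQ1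
  obtain ⟨p, hp1, hp2⟩ := exists_swap W ε hε1 (fun x hx h => (hε2 x hx).2 (hWQ h))
  have hpU : ∀ x ∈ U, p x = x := fun x hx =>
    hp2 x (fun h => (hWD h).2 hx) (fun y hy h => (hε2 y hy).2 (h ▸ hUQ hx))
  have hpnot : ∀ x, x ∉ D \ U → p x = x := by
    intro x hx
    apply hp2 x
    · intro h; exact hx (hWD h)
    · intro y hy h
      apply hx
      rw [← h]
      exact ⟨(hε2 y hy).1, fun h' => (hε2 y hy).2 (hUQ h')⟩
  let W' : Set X := ε '' W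
  have hW'Q : ∀ x ∈ W', x ∉ Q := by
    rintro _ ⟨y, hy, rfl⟩; exact (hε2 y hy).2
  have hpA : ∀ x ∈ U ∪ W, p x ∈ U ∪ W' := by
    rintro x (hx | hx)
    · rw [hpU x hx]; exact Or.inl hx
    · rw [(hp1 x hx).1]; exact Or.inr ⟨x, hx, rfl⟩
  have hpB : ∀ x ∈ U ∪ W', p⁻¹ x ∈ U ∪ W := by
    rintro x (hx | ⟨y, hy, rfl⟩)
    · have : p⁻¹ x = x := by rw [Equiv.Perm.inv_eq_iff_eq, hpU x hx]
      rw [this]; exact Or.inl hx
    · have : p⁻¹ (ε y) = y := by rw [Equiv.Perm.inv_eq_iff_eq, (hp1 y hy).1]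
      rw [this]; exact Or.inr hy
  have hpA' : ∀ w ∈ H (U ∪ W), pa p w ∈ H (U ∪ W') := pa_mem hpA
  have hpB' : ∀ w ∈ H (U ∪ W'), (pa p)⁻¹ w ∈ H (U ∪ W) := by
    rw [← _root_.map_inv]; exact pa_mem hpB
  let γ' : MulAut (FreeGroup X) := pa p * γ * (pa p)⁻¹
  have hγ' : ∀ w, γ' w = pa p (γ ((pa p)⁻¹ w)) := fun w => rfl
  have hγ'i : ∀ w, γ'⁻¹ w = pa p (γ⁻¹ ((pa p)⁻¹ w)) := fun w => by
    have : γ'⁻¹ = pa p * γ⁻¹ * (pa p)⁻¹ := by simp only [γ']; group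
    rw [this]; rfl
  have hγ'P : Pres γ' (U ∪ W') := by
    apply Pres.mk'
    · intro x hx
      rw [hγ']
      exact hpA' _ ((hγP _).mpr (hpB' _ (of_mem_H hx)))
    · intro x hx
      rw [hγ'i]
      exact hpA' _ ((hγP.inv _).mpr (hpB' _ (of_mem_H hx)))
  have hγ'U : ∀ w ∈ H U, γ' w = (α * e.β) w := by
    intro w hw
    rw [hγ', pa_inv_fix hpU w hw, hγU w hw, pa_fix hpU _ ((hU w).mpr hw)]
  have hβ₁U : Pres β₁ U := hU.congr (fun w hw => g2 w (H_mono hUP hw))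
  have hβ₁W' : Pres β₁ W' := Pres.one.congr (aut_eqOn β₁ 1 (fun x hx => g4 x (hW'Q x hx)))
  have hμ0 : Pres (β₁⁻¹ * γ') (U ∪ W') := (hβ₁U.union hβ₁W').inv.mul hγ'P
  let μ : MulAut (FreeGroup X) := res (β₁⁻¹ * γ') (U ∪ W') hμ0
  have hμU : ∀ w ∈ H (U ∪ W'), μ w = β₁⁻¹ (γ' w) := fun w hw => res_mem hμ0 hw
  have hμnot : ∀ x, x ∉ W' → μ (FreeGroup.of x) = FreeGroup.of x := by
    intro x hx
    by_cases hxU : x ∈ U
    · rw [hμU _ (of_mem_H (Or.inl hxU)), hγ'U _ (of_mem_H hxU),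
        ← g2 _ (of_mem_H (hUP hxU)), MulAut.inv_apply_self]
    · exact res_not hμ0 (fun h => h.elim hxU hx)
  have hμIA : IA μ := (g1.inv.mul (hγ.conj (pa p))).res hμ0
  have hμe : ∀ w ∈ H e.P, μ w = w :=
    aut_eqOn μ 1 (fun x hx => hμnot x (fun h => hW'Q x h (hQ1 hx)))
  have hUW'D : U ∪ W' ⊆ c ∪ D := by
    apply Set.union_subset (hUP.trans e.hPD)
    rintro _ ⟨y, hy, rfl⟩
    exact Or.inr (hε2 y hy).1
  have hμD : Pres μ (c ∪ D) :=
    (res_pres hμ0).of_supp (fun x hx => res_not hμ0 hx) hUW'D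
  obtain ⟨f, hf1, hf2, hf3⟩ := e.extend hδc (e.P ∪ W') (α⁻¹ * (β₁ * μ))
    (hα.inv.mul (g1.mul hμIA)) Set.subset_union_left
    (Set.union_subset e.hPD (Set.subset_union_right.trans hUW'D))
    ((e.hfin.union (hWfin.image ε)).subset (by
      rintro x ⟨hx | hx, hxc⟩
      · exact Or.inl ⟨hx, hxc⟩
      · exact Or.inr hx))
    (by
      intro w hw
      rw [MulAut.mul_apply, MulAut.mul_apply, hμe w hw, g2 w hw, MulAut.mul_apply,
        MulAut.inv_apply_self])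
    (hαD.inv.mul ((g3.of_supp g4 hQ2).mul hμD))
  refine ⟨f, hf1, p, hpnot, ?_, ?_⟩
  · intro x hx
    apply hf2
    rcases hpA x hx with h | h
    · exact Or.inl (hUP h)
    · exact Or.inr h
  · have key : ∀ v ∈ H (U ∪ W'), (α * f.β) v = γ' v := by
      intro v hv
      rw [MulAut.mul_apply, hf3 v (H_mono (Set.union_subset_union_left _ hUP) hv),
        MulAut.mul_apply, MulAut.apply_inv_self, MulAut.mul_apply, hμU v hv,
        MulAut.apply_inv_self]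
    intro w hw
    rw [key _ (hpA' w hw), hγ', MulAut.inv_apply_self]

end Pool.Agent.Helper634.FA
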