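import Pool.Agent.Helper634.Relative
set_option autoImplicit false

/-!
The global theorem, by Zorn's lemma over saturated subsets of the basis.
-/

namespace Pool.Agent.Helper634.FA

open FreeGroup

universe u v

variable {X : Type u} {I : Type v}

lemma mem_H_of_directed {K : Type*} [Nonempty K] (S : K → Set X)
    (hdir : ∀ k l, ∃ m, S k ⊆ S m ∧ S l ⊆ S m) {w : FreeGroup X} (hw : w ∈ H (⋃ k, S k)) :
    ∃ k, w ∈ H (S k) := by
  unfold H at hw
  induction hw using Subgroup.closure_induction with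
  | mem x hx =>
    obtain ⟨y, hy, rfl⟩ := hx
    obtain ⟨k, hk⟩ := Set.mem_iUnion.mp hy
    exact ⟨k, of_mem_H hk⟩
  | one => exact ⟨Classical.arbitrary K, Subgroup.one_mem _⟩
  | mul a b _ _ iha ihb =>
    obtain ⟨k, hk⟩ := iha
    obtain ⟨l, hl⟩ := ihb
    obtain ⟨m, h1, h2⟩ := hdir k l
    exact ⟨m, Subgroup.mul_mem _ (H_mono h1 hk) (H_mono h2 hl)⟩
  | inv a _ iha =>
    obtain ⟨k, hk⟩ := iha
    exact ⟨k, Subgroup.inv_mem _ hk⟩

lemma Pres.iUnion {K : Type*} {φ : MulAut (FreeGroup X)} {S : K → Set X}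
    (h : ∀ k, Pres φ (S k)) : Pres φ (⋃ k, S k) := by
  apply Pres.mk'
  · intro x hx
    obtain ⟨k, hk⟩ := Set.mem_iUnion.mp hx
    exact H_mono (Set.subset_iUnion S k) ((h k _).mpr (of_mem_H hk))
  · intro x hx
    obtain ⟨k, hk⟩ := Set.mem_iUnion.mp hx
    exact H_mono (Set.subset_iUnion S k) (((h k).inv _).mpr (of_mem_H hk))

/-- countable saturated sets closed under countably many automorphisms -/
lemma exists_closed (f : X → I) (hf : ∀ i, (f ⁻¹' {i}).Countable)
    (α : ℕ → MulAut (FreeGroup X)) (i : I) :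
    ∃ C : Set I, C.Countable ∧ i ∈ C ∧ ∀ n, Pres (α n) (f ⁻¹' C) := by
  have h1 : ∀ (n : ℕ) (x : X), ∃ V : Set X, V.Finite ∧ α n (FreeGroup.of x) ∈ H V ∧
      (α n)⁻¹ (FreeGroup.of x) ∈ H V := by
    intro n x
    obtain ⟨V, _, hV, hV'⟩ := exists_supp (mem_H_univ (α n (FreeGroup.of x)))
    obtain ⟨W, _, hW, hW'⟩ := exists_supp (mem_H_univ ((α n)⁻¹ (FreeGroup.of x)))
    exact ⟨V ∪ W, hV.union hW, H_mono Set.subset_union_left hV',
      H_mono Set.subset_union_right hW'⟩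
  choose V hV1 hV2 hV3 using h1
  let nxt : Set I → Set I := fun C => C ∪ ⋃ n : ℕ, ⋃ x ∈ f ⁻¹' C, f '' (V n x)
  let C : ℕ → Set I := fun k => nxt^[k] {i}
  have hCs : ∀ k, C (k + 1) = nxt (C k) := fun k => Function.iterate_succ_apply' nxt k {i}
  have hcount : ∀ k, (C k).Countable := by
    intro k
    induction k with
    | zero => exact Set.countable_singleton i
    | succ k ih =>
      rw [hCs]
      apply ih.union
      apply Set.countable_iUnion
      intro n
      apply Set.Countable.biUnion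
      · have : f ⁻¹' (C k) = ⋃ j ∈ C k, f ⁻¹' {j} := by
          ext x; simp
        rw [this]
        exact ih.biUnion (fun j _ => hf j)
      · intro x _
        exact ((hV1 n x).image f).countable
  have hmono : Monotone C := by
    apply monotone_nat_of_le_succ
    intro k
    rw [hCs]
    exact Set.subset_union_left
  refine ⟨⋃ k, C k, Set.countable_iUnion hcount, Set.mem_iUnion.mpr ⟨0, rfl⟩, ?_⟩
  have hsub : ∀ n x k, f x ∈ C k → V n x ⊆ f ⁻¹' (⋃ k, C k) := by
    intro n x k hk y hy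
    refine Set.mem_iUnion.mpr ⟨k + 1, ?_⟩
    rw [hCs]
    right
    exact Set.mem_iUnion.mpr ⟨n, Set.mem_biUnion (show x ∈ f ⁻¹' (C k) from hk) ⟨y, hy, rfl⟩⟩
  intro n
  apply Pres.mk'
  · intro x hx
    obtain ⟨k, hk⟩ := Set.mem_iUnion.mp hx
    exact H_mono (hsub n x k hk) (hV2 n x)
  · intro x hx
    obtain ⟨k, hk⟩ := Set.mem_iUnion.mp hx
    exact H_mono (hsub n x k hk) (hV3 n x)

/-- partial solutions over saturated subsets -/
structure Glob (f : X → I) (col : X → Bool) (α : ℕ → MulAut (FreeGroup X)) where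
  J : Set I
  δ : Bool → MulAut (FreeGroup X)
  p : Bool → ℕ → Equiv.Perm X
  hα : ∀ n, Pres (α n) (f ⁻¹' J)
  hδ : ∀ b, Pres (δ b) (f ⁻¹' J)
  hp : ∀ b n, PP (p b n) (f ⁻¹' J)
  hcol : ∀ b n x, col (p b n x) = col x
  heq : ∀ n, ∀ w ∈ H (f ⁻¹' J), cm (δ false) (p false n) w = α n (cm (δ true) (p true n) w)

variable {f : X → I} {col : X → Bool} {α : ℕ → MulAut (FreeGroup X)}

instance : Preorder (Glob f col α) where
  le c d := c.J ⊆ d.J ∧ (∀ b, ∀ w ∈ H (f ⁻¹' c.J), d.δ b w = c.δ b w) ∧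
    ∀ b n, ∀ x ∈ f ⁻¹' c.J, d.p b n x = c.p b n x
  le_refl c := ⟨subset_rfl, fun _ _ _ => rfl, fun _ _ _ _ => rfl⟩
  le_trans c d e h h' := by
    refine ⟨h.1.trans h'.1, ?_, ?_⟩
    · intro b w hw
      rw [h'.2.1 b w (H_mono (Set.preimage_mono h.1) hw), h.2.1 b w hw]
    · intro b n x hx
      rw [h'.2.2 b n x (h.1 hx), h.2.2 b n x hx]

lemma glob_le_def {c d : Glob f col α} : c ≤ d ↔ c.J ⊆ d.J ∧
    (∀ b, ∀ w ∈ H (f ⁻¹' c.J), d.δ b w = c.δ b w) ∧
    ∀ b n, ∀ x ∈ f ⁻¹' c.J, d.p b n x = c.p b n x := Iff.rfl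

lemma glob_chain (c : Set (Glob f col α)) (hc : IsChain (· ≤ ·) c) : BddAbove c := by
  classical
  rcases c.eq_empty_or_nonempty with rfl | hne
  · have hb : ∀ w ∈ H (∅ : Set X), w = 1 := by
      intro w hw
      have : H (∅ : Set X) = ⊥ := by unfold H; simp
      rw [this] at hw
      exact hw
    refine ⟨{ J := ∅, δ := fun _ => 1, p := fun _ _ => 1, hα := ?_, hδ := ?_, hp := ?_,
              hcol := ?_, heq := ?_ }, ?_⟩
    · intro n; exact Pres.empty _
    · intro b; exact Pres.empty _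
    · intro b n x; simp
    · intro b n x; rfl
    · intro n w hw
      have : w = 1 := hb w hw
      rw [this]; simp
    · intro x hx
      exact absurd hx (by simp)
  · have : Nonempty ↥c := hne.to_subtype
    let S : ↥c → Set X := fun k => f ⁻¹' k.1.J
    have hdir : ∀ k l : ↥c, ∃ m : ↥c, k.1 ≤ m.1 ∧ l.1 ≤ m.1 := by
      intro k l
      rcases hc.total k.2 l.2 with h | h
      · exact ⟨l, h, le_rfl⟩
      · exact ⟨k, le_rfl, h⟩
    have hpre : f ⁻¹' (⋃ k : ↥c, k.1.J) = ⋃ k, S k := Set.preimage_iUnion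
    have hδlim : ∀ b, ∃ ψ : MulAut (FreeGroup X), (∀ k : ↥c, ∀ w ∈ H (S k), ψ w = k.1.δ b w) ∧
        (∀ x, (∀ k, x ∉ S k) → ψ (FreeGroup.of x) = FreeGroup.of x) ∧ Pres ψ (⋃ k, S k) := by
      intro b
      apply limit_aut S (fun k => k.1.δ b) (fun k => k.1.hδ b)
      intro k l
      obtain ⟨m, h1, h2⟩ := hdir k l
      exact ⟨m, ⟨Set.preimage_mono h1.1, h1.2.1 b⟩, ⟨Set.preimage_mono h2.1, h2.2.1 b⟩⟩
    have hplim : ∀ b n, ∃ q : Equiv.Perm X, (∀ k : ↥c, ∀ x ∈ S k, q x = k.1.p b n x) ∧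
        (∀ x, (∀ k, x ∉ S k) → q x = x) ∧ PP q (⋃ k, S k) := by
      intro b n
      apply limit_perm S (fun k => k.1.p b n) (fun k => k.1.hp b n)
      intro k l
      obtain ⟨m, h1, h2⟩ := hdir k l
      exact ⟨m, ⟨Set.preimage_mono h1.1, h1.2.2 b n⟩, ⟨Set.preimage_mono h2.1, h2.2.2 b n⟩⟩
    choose δ' hδ'1 hδ'2 hδ'3 using hδlim
    choose p' hp'1 hp'2 hp'3 using hplim
    refine ⟨{ J := ⋃ k : ↥c, k.1.J, δ := δ', p := p', hα := ?_, hδ := ?_, hp := ?_,
              hcol := ?_, heq := ?_ }, ?_⟩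
    · intro n
      rw [hpre]
      exact Pres.iUnion (fun k => k.1.hα n)
    · intro b
      rw [hpre]
      exact hδ'3 b
    · intro b n
      rw [hpre]
      exact hp'3 b n
    · intro b n x
      by_cases hx : ∃ k, x ∈ S k
      · obtain ⟨k, hk⟩ := hx
        rw [hp'1 b n k x hk]
        exact k.1.hcol b n x
      · push Not at hx
        rw [hp'2 b n x hx]
    · intro n w hw
      rw [hpre] at hw
      obtain ⟨k, hk⟩ := mem_H_of_directed S (fun k l => by
        obtain ⟨m, h1, h2⟩ := hdir k l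
        exact ⟨m, Set.preimage_mono h1.1, Set.preimage_mono h2.1⟩) hw
      rw [cm_congr (k.1.hδ false) (k.1.hp false n) (hδ'1 false k) (hp'1 false n k) w hk,
        cm_congr (k.1.hδ true) (k.1.hp true n) (hδ'1 true k) (hp'1 true n k) w hk]
      exact k.1.heq n w hk
    · intro x hx
      refine ⟨?_, ?_, ?_⟩
      · exact Set.subset_iUnion (fun k : ↥c => k.1.J) ⟨x, hx⟩
      · intro b w hw
        exact hδ'1 b ⟨x, hx⟩ w hw
      · intro b n y hy
        exact hp'1 b n ⟨x, hx⟩ y hy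

theorem glob (f : X → I) (col : X → Bool) (α : ℕ → MulAut (FreeGroup X))
    (hf : ∀ i, (f ⁻¹' {i}).Countable)
    (hf' : ∀ i, ∀ c : Bool, {x | f x = i ∧ col x = c}.Infinite) :
    ∃ (δ : Bool → MulAut (FreeGroup X)) (p : Bool → ℕ → Equiv.Perm X),
      (∀ b n x, col (p b n x) = col x) ∧
      ∀ n, α n = cm (δ false) (p false n) * (cm (δ true) (p true n))⁻¹ := by
  obtain ⟨m, hm⟩ := zorn_le (α := Glob f col α) glob_chain
  have hJ : m.J = Set.univ := by
    by_contra hne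
    obtain ⟨i, hi⟩ := (Set.ne_univ_iff_exists_notMem _).mp hne
    obtain ⟨C, hC1, hC2, hC3⟩ := exists_closed f hf α i
    have hpre : f ⁻¹' (m.J ∪ C) = f ⁻¹' m.J ∪ f ⁻¹' C := Set.preimage_union
    have hCc : (f ⁻¹' C).Countable := by
      have : f ⁻¹' C = ⋃ j ∈ C, f ⁻¹' {j} := by
        ext x; simp
      rw [this]
      exact hC1.biUnion (fun j _ => hf j)
    have hα' : ∀ n, Pres (α n) (f ⁻¹' (m.J ∪ C)) := by
      intro n
      rw [hpre]
      exact (m.hα n).union (hC3 n)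
    obtain ⟨δ', p', h1, h2, h3, h4, h5, h6⟩ := relative (col := col) (α := α)
      (S := f ⁻¹' m.J) (S' := f ⁻¹' (m.J ∪ C)) (Set.preimage_mono Set.subset_union_left)
      (hCc.mono (by
        rintro x ⟨hx | hx, hx'⟩
        · exact absurd hx hx'
        · exact hx))
      (by
        intro c
        refine (hf' i c).mono ?_
        rintro x ⟨hx, hxc⟩
        refine ⟨⟨Or.inr (by rw [← hx] at hC2; exact hC2), ?_⟩, hxc⟩
        intro h
        apply hi
        rw [← hx]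
        exact h)
      hα' m.δ m.p m.hδ m.hp m.hcol m.heq
    let m' : Glob f col α :=
      { J := m.J ∪ C, δ := δ', p := p', hα := hα', hδ := h1, hp := h3, hcol := h5, heq := h6 }
    have hle : m ≤ m' := ⟨Set.subset_union_left, h2, h4⟩
    have := hm hle
    exact hi (this.1 (Or.inr hC2))
  refine ⟨m.δ, m.p, m.hcol, ?_⟩
  intro n
  rw [eq_mul_inv_iff_mul_eq]
  ext w
  rw [MulAut.mul_apply, m.heq n w (by rw [hJ]; simpa using mem_H_univ w)]

end Pool.Agent.Helper634.FA
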