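import Pool.Agent.Helper634.Step
set_option autoImplicit false

/-!
Automorphisms acting trivially on the abelianization.
-/

namespace Pool.Agent.Helper634.FA

open FreeGroup

universe u

variable {X : Type u}

/-- the abelianization map -/
abbrev ab : FreeGroup X →* Abelianization (FreeGroup X) := Abelianization.of

/-- the automorphism acts trivially on the abelianization -/
def IA (φ : MulAut (FreeGroup X)) : Prop := ∀ w, ab (φ w) = ab w

lemma IA.of_letters {φ : MulAut (FreeGroup X)}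
    (h : ∀ x, ab (φ (FreeGroup.of x)) = ab (FreeGroup.of x)) : IA φ := by
  intro w
  have : (ab : FreeGroup X →* _).comp φ.toMonoidHom = ab := by
    ext x; exact h x
  exact DFunLike.congr_fun this w

lemma eq_of_ab {G : Type*} [CommGroup G] (h : FreeGroup X →* G) {u v : FreeGroup X}
    (huv : ab u = ab v) : h u = h v := by
  have := congrArg (Abelianization.lift h) huv
  simpa using this

lemma ab_congr (h : MulAut (FreeGroup X)) {u v : FreeGroup X} (huv : ab u = ab v) :
    ab (h u) = ab (h v) := eq_of_ab (ab.comp h.toMonoidHom) huv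

lemma IA.one : IA (1 : MulAut (FreeGroup X)) := fun _ => rfl

lemma IA.mul {φ ψ : MulAut (FreeGroup X)} (h : IA φ) (h' : IA ψ) : IA (φ * ψ) := fun w => by
  rw [MulAut.mul_apply, h, h']

lemma IA.inv {φ : MulAut (FreeGroup X)} (h : IA φ) : IA φ⁻¹ := fun w => by
  have := h (φ⁻¹ w)
  rw [MulAut.apply_inv_self] at this
  exact this.symm

lemma IA.conj {φ : MulAut (FreeGroup X)} (h : IA φ) (g : MulAut (FreeGroup X)) :
    IA (g * φ * g⁻¹) := fun w => by
  rw [MulAut.mul_apply, MulAut.mul_apply, ab_congr g (h (g⁻¹ w)), MulAut.apply_inv_self]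

lemma IA.res {φ : MulAut (FreeGroup X)} (h : IA φ) {U : Set X} (hU : Pres φ U) :
    IA (res φ U hU) := by
  apply IA.of_letters
  intro x
  by_cases hx : x ∈ U
  · rw [res_mem hU (of_mem_H hx), h]
  · rw [res_not hU hx]

lemma exists_tv (e : X) (w : FreeGroup X) (hw : w ∈ H ({e}ᶜ : Set X)) :
    ∃ τ : MulAut (FreeGroup X), τ (FreeGroup.of e) = FreeGroup.of e * w ∧
      (∀ x, x ≠ e → τ (FreeGroup.of x) = FreeGroup.of x) ∧
      (∀ Q : Set X, e ∈ Q → w ∈ H Q → Pres τ Q) := by
  classical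
  let f : X → FreeGroup X := fun x => if x = e then FreeGroup.of e * w else FreeGroup.of x
  let g : X → FreeGroup X := fun x => if x = e then FreeGroup.of e * w⁻¹ else FreeGroup.of x
  have hfe : f e = FreeGroup.of e * w := by simp [f]
  have hge : g e = FreeGroup.of e * w⁻¹ := by simp [g]
  have hf0 : ∀ x, x ≠ e → f x = FreeGroup.of x := fun x hx => by simp [f, hx]
  have hg0 : ∀ x, x ≠ e → g x = FreeGroup.of x := fun x hx => by simp [g, hx]
  have hfw : FreeGroup.lift f w = w := hom_eqOn (FreeGroup.lift f) (MonoidHom.id _) (by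
    intro x hx
    rw [FreeGroup.lift_apply_of, hf0 x hx]; rfl) w hw
  have hgw : FreeGroup.lift g w = w := hom_eqOn (FreeGroup.lift g) (MonoidHom.id _) (by
    intro x hx
    rw [FreeGroup.lift_apply_of, hg0 x hx]; rfl) w hw
  have h1 : ∀ x, FreeGroup.lift f (g x) = FreeGroup.of x := by
    intro x
    by_cases hx : x = e
    · subst hx
      rw [hge, _root_.map_mul, _root_.map_inv, hfw, FreeGroup.lift_apply_of, hfe]
      group
    · rw [hg0 x hx, FreeGroup.lift_apply_of, hf0 x hx]
  have h2 : ∀ x, FreeGroup.lift g (f x) = FreeGroup.of x := by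
    intro x
    by_cases hx : x = e
    · subst hx
      rw [hfe, _root_.map_mul, hgw, FreeGroup.lift_apply_of, hge]
      group
    · rw [hf0 x hx, FreeGroup.lift_apply_of, hg0 x hx]
  refine ⟨mkAut f g h1 h2, ?_, ?_, ?_⟩
  · rw [mkAut_of, hfe]
  · intro x hx
    rw [mkAut_of, hf0 x hx]
  · intro Q heQ hwQ
    apply Pres.mk'
    · intro x hx
      rw [mkAut_of]
      by_cases hxe : x = e
      · subst hxe
        rw [hfe]
        exact Subgroup.mul_mem _ (of_mem_H heQ) hwQ
      · rw [hf0 x hxe]; exact of_mem_H hx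
    · intro x hx
      rw [mkAut_inv_apply, FreeGroup.lift_apply_of]
      by_cases hxe : x = e
      · subst hxe
        rw [hge]
        exact Subgroup.mul_mem _ (of_mem_H heQ) (Subgroup.inv_mem _ hwQ)
      · rw [hg0 x hxe]; exact of_mem_H hx

lemma exists_inversion (e : X) :
    ∃ τ : MulAut (FreeGroup X), τ (FreeGroup.of e) = (FreeGroup.of e)⁻¹ ∧
      (∀ x, x ≠ e → τ (FreeGroup.of x) = FreeGroup.of x) ∧
      (∀ Q : Set X, e ∈ Q → Pres τ Q) := by
  classical
  let f : X → FreeGroup X := fun x => if x = e then (FreeGroup.of e)⁻¹ else FreeGroup.of x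
  have hfe : f e = (FreeGroup.of e)⁻¹ := by simp [f]
  have hf0 : ∀ x, x ≠ e → f x = FreeGroup.of x := fun x hx => by simp [f, hx]
  have h1 : ∀ x, FreeGroup.lift f (f x) = FreeGroup.of x := by
    intro x
    by_cases hx : x = e
    · subst hx
      rw [hfe, _root_.map_inv, FreeGroup.lift_apply_of, hfe, inv_inv]
    · rw [hf0 x hx, FreeGroup.lift_apply_of, hf0 x hx]
  have h3 : ∀ Q : Set X, e ∈ Q → ∀ x ∈ Q, f x ∈ H Q := by
    intro Q heQ x hx
    by_cases hxe : x = e
    · subst hxe
      rw [hfe]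
      exact Subgroup.inv_mem _ (of_mem_H heQ)
    · rw [hf0 x hxe]; exact of_mem_H hx
  refine ⟨mkAut f f h1 h1, ?_, ?_, ?_⟩
  · rw [mkAut_of, hfe]
  · intro x hx
    rw [mkAut_of, hf0 x hx]
  · intro Q heQ
    apply Pres.mk'
    · intro x hx
      rw [mkAut_of]; exact h3 Q heQ x hx
    · intro x hx
      rw [mkAut_inv_apply, FreeGroup.lift_apply_of]; exact h3 Q heQ x hx

lemma euclid (E : Set X) (hE : E.Finite) : ∀ (n : ℕ) (ν : FreeGroup X →* Multiplicative ℤ),
    (∑ e ∈ hE.toFinset, (Multiplicative.toAdd (ν (FreeGroup.of e))).natAbs) = n →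
    ∃ φ : MulAut (FreeGroup X), (∀ x, x ∉ E → φ (FreeGroup.of x) = FreeGroup.of x) ∧
      (∀ Q, E ⊆ Q → Pres φ Q) ∧
      ∀ e ∈ E, ∀ e' ∈ E, e ≠ e' → ν (φ (FreeGroup.of e)) = 1 ∨ ν (φ (FreeGroup.of e')) = 1 := by
  intro n
  induction n using Nat.strong_induction_on with
  | _ n ih =>
    intro ν hν
    by_cases hgood : ∀ e ∈ E, ∀ e' ∈ E, e ≠ e' →
        ν (FreeGroup.of e) = 1 ∨ ν (FreeGroup.of e') = 1
    · exact ⟨1, fun _ _ => rfl, fun _ _ => Pres.one, hgood⟩
    · push Not at hgood
      have key : ∃ e ∈ E, ∃ e' ∈ E, e ≠ e' ∧ ν (FreeGroup.of e') ≠ 1 ∧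
          (Multiplicative.toAdd (ν (FreeGroup.of e'))).natAbs ≤
            (Multiplicative.toAdd (ν (FreeGroup.of e))).natAbs := by
        obtain ⟨e, he, e', he', hne, h1, h2⟩ := hgood
        rcases le_total (Multiplicative.toAdd (ν (FreeGroup.of e'))).natAbs
            (Multiplicative.toAdd (ν (FreeGroup.of e))).natAbs with h | h
        · exact ⟨e, he, e', he', hne, h2, h⟩
        · exact ⟨e', he', e, he, hne.symm, h1, h⟩
      obtain ⟨e, he, e', he', hne, h1, h2⟩ := key
      have h1' : Multiplicative.toAdd (ν (FreeGroup.of e')) ≠ 0 := fun h => h1 (by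
        rw [← ofAdd_toAdd (ν (FreeGroup.of e')), h]; rfl)
      have hu : ∃ u : FreeGroup X, u ∈ H ({e'} : Set X) ∧
          (Multiplicative.toAdd (ν (FreeGroup.of e * u))).natAbs <
            (Multiplicative.toAdd (ν (FreeGroup.of e))).natAbs := by
        set a := Multiplicative.toAdd (ν (FreeGroup.of e)) with ha
        set b := Multiplicative.toAdd (ν (FreeGroup.of e')) with hb
        by_cases hc : (a + b).natAbs < a.natAbs
        · refine ⟨FreeGroup.of e', of_mem_H rfl, ?_⟩
          rw [_root_.map_mul, toAdd_mul, ← ha, ← hb]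
          exact hc
        · refine ⟨(FreeGroup.of e')⁻¹, Subgroup.inv_mem _ (of_mem_H rfl), ?_⟩
          rw [_root_.map_mul, _root_.map_inv, toAdd_mul, toAdd_inv, ← ha, ← hb]
          omega
      obtain ⟨u, hu1, hu2⟩ := hu
      obtain ⟨τ, hτ1, hτ2, hτ3⟩ := exists_tv e u (H_mono (by
        intro x hx
        rw [Set.mem_singleton_iff] at hx
        subst hx
        simpa using hne.symm) hu1)
      obtain ⟨φ, hφ1, hφ2, hφ3⟩ := ih _ (by
        rw [← hν]
        apply Finset.sum_lt_sum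
        · intro x hx
          by_cases hxe : x = e
          · subst hxe
            change (Multiplicative.toAdd (ν (τ (FreeGroup.of x)))).natAbs ≤ _
            rw [hτ1]; exact hu2.le
          · change (Multiplicative.toAdd (ν (τ (FreeGroup.of x)))).natAbs ≤ _
            rw [hτ2 x hxe]
        · refine ⟨e, by simpa using he, ?_⟩
          change (Multiplicative.toAdd (ν (τ (FreeGroup.of e)))).natAbs < _
          rw [hτ1]; exact hu2) (ν.comp τ.toMonoidHom) rfl
      refine ⟨τ * φ, ?_, ?_, ?_⟩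
      · intro x hx
        rw [MulAut.mul_apply, hφ1 x hx, hτ2 x (fun h => hx (h ▸ he))]
      · intro Q hQ
        exact (hτ3 Q (hQ he) (H_mono (by simpa using hQ he') hu1)).mul (hφ2 Q hQ)
      · intro x hx y hy hxy
        exact hφ3 x hx y hy hxy

theorem homology_correction (Q : Set X) : ∀ (n : ℕ) (P : Set X) (β : MulAut (FreeGroup X)),
    P ⊆ Q → (Q \ P).Finite → (Q \ P).ncard = n → Pres β Q →
    (∀ x ∈ P, ab (β (FreeGroup.of x)) = ab (FreeGroup.of x)) →
    ∃ φ : MulAut (FreeGroup X), (∀ x, x ∉ Q \ P → φ (FreeGroup.of x) = FreeGroup.of x) ∧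
      Pres φ Q ∧ ∀ x ∈ Q, ab (β (φ (FreeGroup.of x))) = ab (FreeGroup.of x) := by
  classical
  intro n
  induction n with
  | zero =>
    intro P β hPQ hfin hcard hβ hP
    have h0 : Q \ P = ∅ := (Set.ncard_eq_zero hfin).mp hcard
    refine ⟨1, fun _ _ => rfl, Pres.one, ?_⟩
    intro x hx
    apply hP
    by_contra hxP
    have : x ∈ Q \ P := ⟨hx, hxP⟩
    rw [h0] at this
    exact this
  | succ n ih =>
    intro P β hPQ hfin hcard hβ hP
    obtain ⟨e0, he0⟩ : (Q \ P).Nonempty := by
      rw [Set.nonempty_iff_ne_empty]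
      intro h
      rw [h] at hcard
      simp at hcard
    let lam : FreeGroup X →* Multiplicative ℤ :=
      FreeGroup.lift (fun x => if x = e0 then Multiplicative.ofAdd 1 else 1)
    have hlam0 : lam (FreeGroup.of e0) = Multiplicative.ofAdd 1 := by simp [lam]
    have hlam1 : ∀ x, x ≠ e0 → lam (FreeGroup.of x) = 1 := fun x hx => by simp [lam, hx]
    let ν : FreeGroup X →* Multiplicative ℤ := lam.comp β.toMonoidHom
    have hν : ∀ w, ν w = lam (β w) := fun w => rfl
    obtain ⟨φa, ha1, ha2, ha3⟩ := euclid (Q \ P) hfin _ ν rfl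
    have ha2' : Pres φa Q := ha2 Q Set.sdiff_subset
    -- surjectivity
    have hw0 : ∃ w0 ∈ H Q, ν (φa w0) = Multiplicative.ofAdd 1 := by
      refine ⟨φa⁻¹ (β⁻¹ (FreeGroup.of e0)), ?_, ?_⟩
      · exact (ha2'.inv _).mpr ((hβ.inv _).mpr (of_mem_H he0.1))
      · rw [MulAut.apply_inv_self, hν, MulAut.apply_inv_self, hlam0]
    have hνP : ∀ x ∈ P, ν (φa (FreeGroup.of x)) = 1 := by
      intro x hx
      rw [ha1 x (fun h => h.2 hx), hν, eq_of_ab lam (hP x hx)]
      exact hlam1 x (fun h => he0.2 (h ▸ hx))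
    have he1 : ∃ e1 ∈ Q \ P, ν (φa (FreeGroup.of e1)) ≠ 1 := by
      by_contra hcon
      push Not at hcon
      obtain ⟨w0, hw0, hw0'⟩ := hw0
      have := hom_eqOn (ν.comp φa.toMonoidHom) 1 (U := Q) (by
        intro x hx
        by_cases hxP : x ∈ P
        · exact hνP x hxP
        · exact hcon x ⟨hx, hxP⟩) w0 hw0
      have h2 : ν (φa w0) = 1 := this
      rw [hw0'] at h2
      have h3 : (1 : ℤ) = 0 := congrArg Multiplicative.toAdd h2
      omega
    obtain ⟨e1, he1, he1'⟩ := he1
    let sw : Equiv.Perm X := Equiv.swap e0 e1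
    have hswQ : PP sw Q := PP.of_supp (fun x hx => Equiv.swap_apply_of_ne_of_ne
      (fun h => hx (h ▸ he0.1)) (fun h => hx (h ▸ he1.1)))
    let φb : MulAut (FreeGroup X) := φa * pa sw
    have hb : ∀ x, φb (FreeGroup.of x) = φa (FreeGroup.of (sw x)) := fun x => by
      change φa (pa sw (FreeGroup.of x)) = _
      rw [pa_of]
    have hb1 : ∀ x, x ∉ Q \ P → φb (FreeGroup.of x) = FreeGroup.of x := by
      intro x hx
      rw [hb]
      have : sw x = x := Equiv.swap_apply_of_ne_of_ne (fun h => hx (h ▸ he0)) (fun h => hx (h ▸ he1))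
      rw [this, ha1 x hx]
    have hb2 : Pres φb Q := ha2'.mul hswQ.pres
    have hb3 : ∀ x ∈ Q, x ≠ e0 → ν (φb (FreeGroup.of x)) = 1 := by
      intro x hx hxe
      rw [hb]
      by_cases hxe1 : x = e1
      · subst hxe1
        have : sw x = e0 := Equiv.swap_apply_right _ _
        rw [this]
        rcases ha3 x he1 e0 he0 hxe with h | h
        · exact absurd h he1'
        · exact h
      · have : sw x = x := Equiv.swap_apply_of_ne_of_ne hxe hxe1
        rw [this]
        by_cases hxP : x ∈ P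
        · exact hνP x hxP
        · rcases ha3 x ⟨hx, hxP⟩ e1 he1 hxe1 with h | h
          · exact h
          · exact absurd h he1'
    -- the value at `e0` is a unit
    let N : Multiplicative ℤ := ν (φb (FreeGroup.of e0))
    have hN : ∀ w ∈ H Q, ν (φb w) = N ^ (Multiplicative.toAdd (lam w)) := by
      intro w hw
      have := hom_eqOn (ν.comp φb.toMonoidHom)
        ((zpowersHom (Multiplicative ℤ) N).comp lam) (U := Q) (by
        intro x hx
        change ν (φb (FreeGroup.of x)) = (zpowersHom (Multiplicative ℤ) N) (lam (FreeGroup.of x))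
        rw [zpowersHom_apply]
        by_cases hxe : x = e0
        · subst hxe
          rw [hlam0, toAdd_ofAdd, zpow_one]
        · rw [hlam1 x hxe, toAdd_one, zpow_zero]
          exact hb3 x hx hxe) w hw
      change ν (φb w) = (zpowersHom (Multiplicative ℤ) N) (lam w) at this
      rw [zpowersHom_apply] at this
      exact this
    have hNunit : Multiplicative.toAdd N = 1 ∨ Multiplicative.toAdd N = -1 := by
      obtain ⟨w0, hw0, hw0'⟩ := hw0
      have h1 : (pa sw)⁻¹ w0 ∈ H Q := (hswQ.pres.inv _).mpr hw0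
      have h2 := hN _ h1
      have h3 : φb ((pa sw)⁻¹ w0) = φa w0 := by
        change φa (pa sw ((pa sw)⁻¹ w0)) = _
        rw [MulAut.apply_inv_self]
      rw [h3, hw0'] at h2
      have h4 := congrArg Multiplicative.toAdd h2
      rw [toAdd_ofAdd, toAdd_zpow, smul_eq_mul] at h4
      exact Int.eq_one_or_neg_one_of_mul_eq_one' h4.symm |>.elim (fun h => Or.inl h.2)
        (fun h => Or.inr h.2)
    have hc : ∃ φc : MulAut (FreeGroup X), (∀ x, x ∉ Q \ P → φc (FreeGroup.of x) = FreeGroup.of x) ∧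
        Pres φc Q ∧ ∀ x ∈ Q, ν (φc (FreeGroup.of x)) = lam (FreeGroup.of x) := by
      rcases hNunit with h | h
      · refine ⟨φb, hb1, hb2, ?_⟩
        intro x hx
        by_cases hxe : x = e0
        · rw [hxe, hlam0]
          change N = _
          rw [← h, ofAdd_toAdd]
        · rw [hb3 x hx hxe, hlam1 x hxe]
      · obtain ⟨ι, hι1, hι2, hι3⟩ := exists_inversion e0
        refine ⟨φb * ι, ?_, hb2.mul (hι3 Q he0.1), ?_⟩
        · intro x hx
          rw [MulAut.mul_apply, hι2 x (fun h => hx (h ▸ he0)), hb1 x hx]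
        · intro x hx
          by_cases hxe : x = e0
          · rw [hxe, hlam0, MulAut.mul_apply, hι1, _root_.map_inv, _root_.map_inv]
            change N⁻¹ = _
            rw [← ofAdd_toAdd N, h]
            rfl
          · rw [MulAut.mul_apply, hι2 x hxe, hb3 x hx hxe, hlam1 x hxe]
    obtain ⟨φc, hc1, hc2, hc3⟩ := hc
    -- clear the rest of the column
    let v : FreeGroup X := (FreeGroup.of e0)⁻¹ * β (φc (FreeGroup.of e0))
    have hv : v ∈ H Q := Subgroup.mul_mem _ (Subgroup.inv_mem _ (of_mem_H he0.1))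
      ((hβ _).mpr ((hc2 _).mpr (of_mem_H he0.1)))
    let w : FreeGroup X := φc⁻¹ (β⁻¹ v)
    have hw : w ∈ H Q := (hc2.inv _).mpr ((hβ.inv _).mpr hv)
    have hβw : β (φc w) = v := by
      change β (φc (φc⁻¹ (β⁻¹ v))) = v
      rw [MulAut.apply_inv_self, MulAut.apply_inv_self]
    have hlamw : lam w = 1 := by
      have h1 : ν (φc w) = lam w := hom_eqOn (ν.comp φc.toMonoidHom) lam hc3 w hw
      rw [← h1, hν, hβw]
      change lam ((FreeGroup.of e0)⁻¹ * β (φc (FreeGroup.of e0))) = 1
      rw [_root_.map_mul, _root_.map_inv, ← hν, hc3 e0 he0.1, inv_mul_cancel]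
    let r : FreeGroup X →* FreeGroup X :=
      FreeGroup.lift (fun x => if x = e0 then 1 else FreeGroup.of x)
    have hr0 : r (FreeGroup.of e0) = 1 := by simp [r]
    have hr1 : ∀ x, x ≠ e0 → r (FreeGroup.of x) = FreeGroup.of x := fun x hx => by simp [r, hx]
    have hrw : ab (r w) = ab w := by
      have h1 : (ab : FreeGroup X →* _) = (ab.comp r) *
          ((zpowersHom (Abelianization (FreeGroup X)) (ab (FreeGroup.of e0))).comp lam) := by
        ext x
        rw [MonoidHom.mul_apply, MonoidHom.comp_apply, MonoidHom.comp_apply]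
        by_cases hxe : x = e0
        · rw [hxe, hr0, hlam0, zpowersHom_apply]
          simp
        · rw [hr1 x hxe, hlam1 x hxe, _root_.map_one, mul_one]
      have h2 := DFunLike.congr_fun h1 w
      rw [MonoidHom.mul_apply, MonoidHom.comp_apply, MonoidHom.comp_apply, hlamw, _root_.map_one,
        mul_one] at h2
      exact h2.symm
    have hrwQ : r w ∈ H (Q \ {e0}) := hom_mem r (H (Q \ {e0})) (by
      intro x hx
      by_cases hxe : x = e0
      · rw [hxe, hr0]; exact Subgroup.one_mem _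
      · rw [hr1 x hxe]; exact of_mem_H ⟨hx, hxe⟩) w hw
    obtain ⟨τ, hτ1, hτ2, hτ3⟩ := exists_tv e0 (r w)⁻¹ (Subgroup.inv_mem _ (H_mono (by
      intro x hx; exact hx.2) hrwQ))
    have hτQ : Pres τ Q := hτ3 Q he0.1 (Subgroup.inv_mem _ (H_mono Set.sdiff_subset hrwQ))
    have hP2 : ∀ x ∈ insert e0 P, ab ((β * φc * τ) (FreeGroup.of x)) = ab (FreeGroup.of x) := by
      intro x hx
      rw [MulAut.mul_apply, MulAut.mul_apply]
      rcases hx with rfl | hx
      · rw [hτ1, _root_.map_mul, _root_.map_mul, _root_.map_mul, _root_.map_inv, _root_.map_inv,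
          _root_.map_inv]
        have h1 : ab (β (φc (r w))) = ab (β (φc w)) := ab_congr β (ab_congr φc hrw)
        rw [h1, hβw]
        change _ * (ab ((FreeGroup.of x)⁻¹ * β (φc (FreeGroup.of x))))⁻¹ = _
        rw [_root_.map_mul, _root_.map_inv]
        rw [mul_inv_rev, inv_inv, ← mul_assoc, mul_inv_cancel, one_mul]
      · rw [hτ2 x (fun h => he0.2 (h ▸ hx)), hc1 x (fun h => h.2 hx)]
        exact hP x hx
    have hsub : Q \ insert e0 P = (Q \ P) \ {e0} := by
      ext x
      simp only [Set.mem_sdiff, Set.mem_insert_iff, Set.mem_singleton_iff]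
      tauto
    obtain ⟨φ2, h21, h22, h23⟩ := ih (insert e0 P) (β * φc * τ)
      (Set.insert_subset he0.1 hPQ) (by rw [hsub]; exact hfin.sdiff)
      (by
        rw [hsub, Set.ncard_sdiff_singleton_of_mem he0, hcard]
        rfl)
      ((hβ.mul hc2).mul hτQ) hP2
    refine ⟨φc * τ * φ2, ?_, (hc2.mul hτQ).mul h22, ?_⟩
    · intro x hx
      have hx2 : x ∉ Q \ insert e0 P := fun h => hx ⟨h.1, fun h' => h.2 (Or.inr h')⟩
      rw [MulAut.mul_apply, MulAut.mul_apply, h21 x hx2, hτ2 x (fun h => hx (h ▸ he0)), hc1 x hx]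
    · intro x hx
      exact h23 x hx

theorem lemmaE_IA (S P Q : Set X) (hSP : S ⊆ P) (hPQ : P ⊆ Q) (hfin : (Q \ S).Finite)
    (β : MulAut (FreeGroup X)) (hIA : IA β) (hS : Pres β S)
    (hβ : ∀ x ∈ P, β (FreeGroup.of x) ∈ H Q) :
    ∃ β₁ : MulAut (FreeGroup X), IA β₁ ∧ (∀ w ∈ H P, β₁ w = β w) ∧ Pres β₁ Q ∧
      (∀ x, x ∉ Q → β₁ (FreeGroup.of x) = FreeGroup.of x) := by
  obtain ⟨β₁, h1, h2, h3⟩ := lemmaE S P Q hSP hPQ hfin β hS hβ
  obtain ⟨φ, h4, h5, h6⟩ := homology_correction Q _ P β₁ hPQ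
    (hfin.subset (fun x hx => ⟨hx.1, fun h => hx.2 (hSP h)⟩)) rfl h2 (by
      intro x hx
      rw [h1 _ (of_mem_H hx), hIA])
  refine ⟨β₁ * φ, ?_, ?_, h2.mul h5, ?_⟩
  · apply IA.of_letters
    intro x
    by_cases hx : x ∈ Q
    · exact h6 x hx
    · rw [MulAut.mul_apply, h4 x (fun h => hx h.1), h3 x hx]
  · intro w hw
    have : φ w = w := aut_eqOn φ 1 (by
      intro x hx
      exact h4 x (fun h => h.2 hx)) w hw
    rw [MulAut.mul_apply, this, h1 w hw]
  · intro x hx
    rw [MulAut.mul_apply, h4 x (fun h => hx h.1), h3 x hx]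

end Pool.Agent.Helper634.FA
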