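import Pool.Agent.Helper634.IAMain
set_option autoImplicit false

/-!
The group of automorphisms acting trivially on the abelianization is the normal closure of
one of its elements, for every free group of infinite rank.
-/

namespace Pool.Agent.Helper634.FA

open FreeGroup Cardinal

universe u

section concrete

variable (I : Type u)

/-- the predecessors of a node -/
def sT (t : Finset I × I) : Set (Finset I × I) := {t' | t'.1 ⊂ t.1 ∧ t'.2 ∈ t.1}

lemma sT_countable (t : Finset I × I) : (sT I t).Countable := by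
  classical
  refine Set.Finite.countable ?_
  refine ((t.1.powerset ×ˢ t.1).finite_toSet).subset ?_
  rintro t' ⟨h1, h2⟩
  simp only [Finset.coe_product, Set.mem_prod, Finset.mem_coe, Finset.mem_powerset]
  exact ⟨h1.subset, h2⟩

lemma sT_trans (t : Finset I × I) : ∀ t' ∈ sT I t, sT I t' ⊆ sT I t := by
  rintro t' ⟨h1, h2⟩ t'' ⟨h3, h4⟩
  exact ⟨h3.trans h1, h1.subset h4⟩

lemma sT_wf : WellFounded (fun a b : Finset I × I => a ∈ sT I b) := by
  refine Subrelation.wf ?_ (measure (fun t : Finset I × I => t.1.card)).wf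
  intro a b h
  exact Finset.card_lt_card h.1

lemma sT_big [Infinite I] (J : Set (Finset I × I)) (hJ : #J < #(Finset I × I))
    (g : Set (Finset I × I)) (hg : g.Finite) : ∃ k, k ∉ J ∧ g ⊆ sT I k := by
  classical
  let S : Finset I := (hg.toFinset.biUnion (fun t => insert t.2 t.1))
  obtain ⟨z, hz⟩ := Infinite.exists_notMem_finset S
  let F : Finset I := insert z S
  have hSF : S ⊂ F := Finset.ssubset_insert hz
  have hgF : ∀ a : I, g ⊆ sT I (F, a) := by
    intro a t ht
    have h1 : insert t.2 t.1 ⊆ S := by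
      intro x hx
      exact Finset.mem_biUnion.mpr ⟨t, hg.mem_toFinset.mpr ht, hx⟩
    refine ⟨?_, ?_⟩
    · exact lt_of_le_of_lt ((Finset.subset_insert _ _).trans h1) hSF
    · exact hSF.subset (h1 (Finset.mem_insert_self _ _))
  have hcard : #(Finset I × I) = #I := by
    rw [Cardinal.mk_prod, Cardinal.lift_id, Cardinal.lift_id, Cardinal.mk_finset_of_infinite,
      Cardinal.mul_eq_self (Cardinal.aleph0_le_mk I)]
  by_contra hcon
  push Not at hcon
  have hall : ∀ a : I, (F, a) ∈ J := by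
    intro a
    by_contra h
    exact hcon _ h (hgF a)
  have h1 : #I ≤ #J := by
    refine Cardinal.mk_le_of_injective (f := fun a : I => (⟨(F, a), hall a⟩ : ↥J)) ?_
    intro a b hab
    have := congrArg (fun t : ↥J => t.1.2) hab
    exact this
  rw [hcard] at hJ
  exact absurd h1 (not_le.mpr hJ)

end concrete

/-- the model of the theorem -/
theorem model_C (I : Type u) [Infinite I] :
    ∃ δ : MulAut (FreeGroup ((Finset I × I) × ℕ)), IA δ ∧
      ∀ α : MulAut (FreeGroup ((Finset I × I) × ℕ)), IA α →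
        ∃ h h' : MulAut (FreeGroup ((Finset I × I) × ℕ)),
          α = h * δ * h⁻¹ * (h' * δ * h'⁻¹)⁻¹ := by
  obtain ⟨δ, h1, h2, h3⟩ := exists_star (sT_countable I) (sT_trans I) (sT_wf I)
  refine ⟨δ, h1, fun α hα => ?_⟩
  have : Infinite (Finset I × I) := Prod.infinite_of_right
  obtain ⟨𝓕⟩ := exists_filtr (sT I) (sT_countable I) α (sT_big I)
  obtain ⟨h, hh⟩ := ia_main (sT_trans I) (sT_wf I) h1 hα h2 h3 𝓕
  refine ⟨(h true)⁻¹, (h false)⁻¹, ?_⟩
  rw [inv_inv, inv_inv]
  exact hh

lemma mem_commutator_iff {X : Type u} (w : FreeGroup X) :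
    w ∈ commutator (FreeGroup X) ↔ ab w = 1 := by
  rw [← MonoidHom.mem_ker, Abelianization.ker_of]

lemma IA_iff {X : Type u} (φ : MulAut (FreeGroup X)) :
    IA φ ↔ ∀ x : FreeGroup X, φ x * x⁻¹ ∈ commutator (FreeGroup X) := by
  unfold IA
  refine forall_congr' (fun x => ?_)
  rw [mem_commutator_iff, _root_.map_mul, _root_.map_inv, mul_inv_eq_one]

lemma IA_transport {X Y : Type u} (e : FreeGroup X ≃* FreeGroup Y) (φ : MulAut (FreeGroup X)) :
    IA (MulAut.congr e φ) ↔ IA φ := by
  have key : ∀ {A B : Type u} (f : FreeGroup A ≃* FreeGroup B) {u v : FreeGroup A},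
      ab u = ab v → ab (f u) = ab (f v) := by
    intro A B f u v huv
    exact eq_of_ab (ab.comp f.toMonoidHom) huv
  constructor
  · intro h w
    have := key e.symm (h (e w))
    simpa using this
  · intro h w
    have := key e (h (e.symm w))
    simpa using this

/-- Part C. -/
theorem thm_C (α : Type u) [Infinite α] :
    ∃ φ : MulAut (FreeGroup α),
      (∀ x : FreeGroup α, φ x * x⁻¹ ∈ commutator (FreeGroup α)) ∧
      ∀ ψ : MulAut (FreeGroup α), (∀ x : FreeGroup α, ψ x * x⁻¹ ∈ commutator (FreeGroup α)) →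
        ∃ h h' : MulAut (FreeGroup α), ψ = h * φ * h⁻¹ * (h' * φ * h'⁻¹)⁻¹ := by
  have hcard : #α = #((Finset α × α) × ℕ) := by
    have h1 : #(Finset α × α) = #α := by
      rw [Cardinal.mk_prod, Cardinal.lift_id, Cardinal.lift_id, Cardinal.mk_finset_of_infinite,
        Cardinal.mul_eq_self (Cardinal.aleph0_le_mk α)]
    rw [Cardinal.mk_prod, h1]
    simp only [Cardinal.lift_uzero, Cardinal.mk_eq_aleph0 ℕ, Cardinal.lift_aleph0]
    exact (Cardinal.mul_aleph0_eq (Cardinal.aleph0_le_mk α)).symm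
  obtain ⟨e⟩ := Cardinal.eq.mp hcard
  obtain ⟨δ, h1, h2⟩ := model_C α
  let E : FreeGroup ((Finset α × α) × ℕ) ≃* FreeGroup α := FreeGroup.freeGroupCongr e.symm
  refine ⟨MulAut.congr E δ, ?_, ?_⟩
  · rw [← IA_iff, IA_transport]
    exact h1
  · intro ψ hψ
    rw [← IA_iff] at hψ
    have hψ' : IA ((MulAut.congr E).symm ψ) := by
      rw [← IA_transport E, MulEquiv.apply_symm_apply]
      exact hψ
    obtain ⟨h, h', hh⟩ := h2 _ hψ'
    refine ⟨MulAut.congr E h, MulAut.congr E h', ?_⟩
    have := congrArg (MulAut.congr E) hh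
    rw [MulEquiv.apply_symm_apply] at this
    rw [this]
    simp only [_root_.map_mul, _root_.map_inv]

theorem thm_C' (α : Type u) [Infinite α] :
    ∃ φ : MulAut (FreeGroup α),
      (∀ x : FreeGroup α, φ x * x⁻¹ ∈ commutator (FreeGroup α)) ∧
      ∀ ψ : MulAut (FreeGroup α),
        ψ ∈ Subgroup.normalClosure ({φ} : Set (MulAut (FreeGroup α))) ↔
          ∀ x : FreeGroup α, ψ x * x⁻¹ ∈ commutator (FreeGroup α) := by
  obtain ⟨φ, h1, h2⟩ := thm_C α
  refine ⟨φ, h1, fun ψ => ⟨?_, ?_⟩⟩
  · intro hψ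
    let N : Subgroup (MulAut (FreeGroup α)) :=
      { carrier := {ψ | IA ψ}
        one_mem' := IA.one
        mul_mem' := fun ha hb => IA.mul ha hb
        inv_mem' := fun ha => IA.inv ha }
    have hN : N.Normal := ⟨fun n hn g => IA.conj hn g⟩
    have hle : Subgroup.normalClosure ({φ} : Set (MulAut (FreeGroup α))) ≤ N := by
      apply Subgroup.normalClosure_le_normal
      rw [Set.singleton_subset_iff]
      exact (IA_iff φ).mpr h1
    exact (IA_iff ψ).mp (hle hψ)
  · intro hψ
    obtain ⟨h, h', hh⟩ := h2 ψ hψ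
    have hφ : φ ∈ Subgroup.normalClosure ({φ} : Set (MulAut (FreeGroup α))) :=
      Subgroup.subset_normalClosure rfl
    have hconj : ∀ g, g * φ * g⁻¹ ∈ Subgroup.normalClosure ({φ} : Set (MulAut (FreeGroup α))) :=
      fun g => Subgroup.Normal.conj_mem inferInstance φ hφ g
    rw [hh]
    exact Subgroup.mul_mem _ (hconj h) (Subgroup.inv_mem _ (hconj h'))

end Pool.Agent.Helper634.FA
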