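import Pool.Agent.Helper634.Filt
set_option autoImplicit false

/-!
Every automorphism acting trivially on the abelianization is a product of a conjugate
of the universal one and a conjugate of its inverse.
-/

namespace Pool.Agent.Helper634.FA

open FreeGroup Cardinal

universe u

variable {T : Type u}

lemma inv_eqOn {X : Type u} {φ ψ : MulAut (FreeGroup X)} {U : Set X} (hP : Pres φ U)
    (h : ∀ w ∈ H U, ψ w = φ w) : ∀ w ∈ H U, ψ⁻¹ w = φ⁻¹ w := by
  intro w hw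
  have h1 := h _ ((hP.inv w).mpr hw)
  rw [MulAut.apply_inv_self] at h1
  conv_lhs => rw [← h1]
  rw [MulAut.inv_apply_self]

/-- the two twisting automorphisms -/
def tw (α : MulAut (FreeGroup (T × ℕ))) (b : Bool) : MulAut (FreeGroup (T × ℕ)) :=
  if b then 1 else α⁻¹

lemma tw_IA {α : MulAut (FreeGroup (T × ℕ))} (hα : IA α) (b : Bool) : IA (tw α b) := by
  cases b
  · simpa [tw] using hα.inv
  · simpa [tw] using IA.one

lemma tw_pres {α : MulAut (FreeGroup (T × ℕ))} {U : Set (T × ℕ)} (hα : Pres α U) (b : Bool) :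
    Pres (tw α b) U := by
  cases b
  · simpa [tw] using hα.inv
  · simpa [tw] using Pres.one

/-- the two twists extend over one countable block -/
theorem block_step {δ α : MulAut (FreeGroup (T × ℕ))} (hδ : IA δ) (hα : IA α)
    {c D : Set T} (hcc : c.Countable) (hDc : D.Countable) (hDne : D.Nonempty)
    (hcD : Disjoint c D) (hG : Gen δ (bl c) (bl D))
    (hαc : Pres α (bl c)) (hαD : Pres α (bl (c ∪ D)))
    (h : Bool → MulAut (FreeGroup (T × ℕ))) (δ₁ : MulAut (FreeGroup (T × ℕ))) (hδ₁ : IA δ₁)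
    (hh : ∀ b, Pres (h b) (bl c)) (hδ₁c : Pres δ₁ (bl c))
    (heq : ∀ b, ∀ w ∈ H (bl c), h b (tw α b (δ₁ w)) = δ (h b w)) :
    ∃ (h' : Bool → MulAut (FreeGroup (T × ℕ))) (δ₂ : MulAut (FreeGroup (T × ℕ))),
      IA δ₂ ∧ Pres δ₂ (bl (c ∪ D)) ∧ (∀ w ∈ H (bl c), δ₂ w = δ₁ w) ∧
      (∀ b, Pres (h' b) (bl (c ∪ D))) ∧ (∀ b, ∀ w ∈ H (bl c), h' b w = h b w) ∧
      ∀ b, ∀ w ∈ H (bl (c ∪ D)), h' b (tw α b (δ₂ w)) = δ (h' b w) := by
  classical
  have hdis : Disjoint (bl c) (bl D) := bl_disjoint hcD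
  rw [bl_union] at hαD ⊢
  obtain ⟨t, ht⟩ := hDne
  obtain ⟨δ₂, d1, d2, d3, d4, d5⟩ := exGen (ι := Bool) (c := bl c) (D := bl D)
    (bl_countable hcc) (bl_countable hDc) (bl_infinite ht) hdis hδ₁ hδ₁c (tw α)
    (tw_IA hα) (tw_pres hαc) (tw_pres hαD)
  have key : ∀ b, ∃ g : MulAut (FreeGroup (T × ℕ)), Pres g (bl c ∪ bl D) ∧
      (∀ w ∈ H (bl c), g w = h b w) ∧
      ∀ w ∈ H (bl c ∪ bl D), g (tw α b (δ₂ w)) = δ (g w) := by
    intro b
    let k : MulAut (FreeGroup (T × ℕ)) := res (h b) (bl c) (hh b)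
    have hk1 : ∀ w ∈ H (bl c), k w = h b w := fun w hw => res_mem (hh b) hw
    have hk2 : ∀ x, x ∉ bl c → k (FreeGroup.of x) = FreeGroup.of x := fun x hx => res_not (hh b) hx
    have hk3 : Pres k (bl c) := res_pres (hh b)
    have hk4 : Pres k (bl c ∪ bl D) := hk3.of_supp hk2 Set.subset_union_left
    have hG' : Gen (k * (tw α b * δ₂) * k⁻¹) (bl c) (bl D) := (d5 b).conj hdis hk3 hk2
    have htc : Pres (tw α b) (bl c) := tw_pres hαc b
    have hδ₂c : Pres δ₂ (bl c) := hδ₁c.congr d2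
    obtain ⟨g, g1, g2, _, g4⟩ := uniq (c := bl c) (D := bl D) (bl_countable hDc)
      (((tw_IA hα b).mul d1).conj k) hδ ((hk3.mul (htc.mul hδ₂c)).mul hk3.inv) (by
        intro w hw
        have hv : k⁻¹ w ∈ H (bl c) := (hk3.inv w).mpr hw
        rw [MulAut.mul_apply, MulAut.mul_apply, MulAut.mul_apply, d2 _ hv,
          hk1 _ ((htc _).mpr ((hδ₁c _).mpr hv)), heq b _ hv, ← hk1 _ hv, MulAut.apply_inv_self])
      hG' hG
    refine ⟨g * k, g2.mul hk4, ?_, ?_⟩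
    · intro w hw
      rw [MulAut.mul_apply, g1 _ ((hk3 w).mpr hw), hk1 w hw]
    · intro w hw
      have := g4 (k w) ((hk4 w).mpr hw)
      rw [MulAut.mul_apply, MulAut.mul_apply, MulAut.mul_apply, MulAut.inv_apply_self] at this
      rw [MulAut.mul_apply, MulAut.mul_apply]
      exact this
  choose g g1 g2 g3 using key
  exact ⟨g, δ₂, d1, d3, d2, g1, g2, g3⟩

/-- partial solutions along the filtration -/
structure Mn {s : T → Set T} {α : MulAut (FreeGroup (T × ℕ))} (δ : MulAut (FreeGroup (T × ℕ)))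
    (𝓕 : Filtr s α) where
  A : Set 𝓕.Ξ
  h : Bool → MulAut (FreeGroup (T × ℕ))
  δ₁ : MulAut (FreeGroup (T × ℕ))
  hlow : ∀ ξ ∈ A, ∀ η, 𝓕.ord.lt η ξ → η ∈ A
  hIA : IA δ₁
  hh : ∀ b, ∀ ξ ∈ A, Pres (h b) (bl (𝓕.E ξ))
  hδ₁ : ∀ ξ ∈ A, Pres δ₁ (bl (𝓕.E ξ))
  heq : ∀ b, ∀ w ∈ H (bl (⋃ ξ ∈ A, 𝓕.E ξ)), h b (tw α b (δ₁ w)) = δ (h b w)

variable {s : T → Set T} {α δ : MulAut (FreeGroup (T × ℕ))} {𝓕 : Filtr s α}

/-- the part of the index set already treated -/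
def Mn.J (m : Mn δ 𝓕) : Set T := ⋃ ξ ∈ m.A, 𝓕.E ξ

lemma bl_biUnion {K : Type*} (A : Set K) (E : K → Set T) :
    bl (⋃ ξ ∈ A, E ξ) = ⋃ ξ ∈ A, bl (E ξ) := by
  unfold bl
  exact Set.preimage_iUnion₂

lemma bl_iUnion {K : Type*} (E : K → Set T) : bl (⋃ ξ, E ξ) = ⋃ ξ, bl (E ξ) :=
  Set.preimage_iUnion

lemma Mn.presh (m : Mn δ 𝓕) (b : Bool) : Pres (m.h b) (bl m.J) := by
  unfold Mn.J
  rw [bl_biUnion]
  exact Pres.biUnion (m.hh b)

lemma Mn.presδ₁ (m : Mn δ 𝓕) : Pres m.δ₁ (bl m.J) := by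
  unfold Mn.J
  rw [bl_biUnion]
  exact Pres.biUnion m.hδ₁

lemma Mn.presα (m : Mn δ 𝓕) : Pres α (bl m.J) := by
  unfold Mn.J
  rw [bl_biUnion]
  exact Pres.biUnion (fun ξ _ => 𝓕.hα ξ)

instance : Preorder (Mn δ 𝓕) where
  le m n := m.A ⊆ n.A ∧ (∀ b, ∀ w ∈ H (bl m.J), n.h b w = m.h b w) ∧
    ∀ w ∈ H (bl m.J), n.δ₁ w = m.δ₁ w
  le_refl m := ⟨subset_rfl, fun _ _ _ => rfl, fun _ _ => rfl⟩
  le_trans m n k h h' := by
    have hJ : m.J ⊆ n.J := Set.biUnion_subset_biUnion_left h.1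
    refine ⟨h.1.trans h'.1, ?_, ?_⟩
    · intro b w hw
      rw [h'.2.1 b w (H_mono (bl_mono hJ) hw), h.2.1 b w hw]
    · intro w hw
      rw [h'.2.2 w (H_mono (bl_mono hJ) hw), h.2.2 w hw]

lemma Mn.J_mono {m n : Mn δ 𝓕} (h : m ≤ n) : m.J ⊆ n.J := Set.biUnion_subset_biUnion_left h.1

lemma mn_chain (c : Set (Mn δ 𝓕)) (hc : IsChain (· ≤ ·) c) : BddAbove c := by
  classical
  rcases c.eq_empty_or_nonempty with rfl | hne
  · refine ⟨{ A := ∅, h := fun _ => 1, δ₁ := 1, hlow := by simp, hIA := IA.one, hh := by simp,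
              hδ₁ := by simp, heq := ?_ }, by simp [upperBounds]⟩
    intro b w hw
    have hb : w = 1 := by
      have h1 : bl (⋃ ξ ∈ (∅ : Set 𝓕.Ξ), 𝓕.E ξ) = ∅ := by simp [bl]
      rw [h1] at hw
      have : H (∅ : Set (T × ℕ)) = ⊥ := by unfold H; simp
      rw [this] at hw
      exact hw
    rw [hb]; simp
  · have : Nonempty ↥c := hne.to_subtype
    let S : ↥c → Set (T × ℕ) := fun k => bl k.1.J
    have hdir : ∀ k l : ↥c, ∃ m : ↥c, k.1 ≤ m.1 ∧ l.1 ≤ m.1 := by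
      intro k l
      rcases hc.total k.2 l.2 with h | h
      · exact ⟨l, h, le_rfl⟩
      · exact ⟨k, le_rfl, h⟩
    have hlim : ∀ b, ∃ ψ : MulAut (FreeGroup (T × ℕ)), (∀ k : ↥c, ∀ w ∈ H (S k), ψ w = k.1.h b w) ∧
        (∀ x, (∀ k, x ∉ S k) → ψ (FreeGroup.of x) = FreeGroup.of x) ∧ Pres ψ (⋃ k, S k) := by
      intro b
      apply limit_aut S (fun k => k.1.h b) (fun k => k.1.presh b)
      intro k l
      obtain ⟨m, h1, h2⟩ := hdir k l
      exact ⟨m, ⟨bl_mono (Mn.J_mono h1), h1.2.1 b⟩, ⟨bl_mono (Mn.J_mono h2), h2.2.1 b⟩⟩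
    obtain ⟨ψ, e1, e2, e3⟩ := limit_aut S (fun k => k.1.δ₁) (fun k => k.1.presδ₁) (by
      intro k l
      obtain ⟨m, h1, h2⟩ := hdir k l
      exact ⟨m, ⟨bl_mono (Mn.J_mono h1), h1.2.2⟩, ⟨bl_mono (Mn.J_mono h2), h2.2.2⟩⟩)
    choose h' f1 f2 f3 using hlim
    have hES : ∀ (k : ↥c) (ξ : 𝓕.Ξ), ξ ∈ k.1.A → bl (𝓕.E ξ) ⊆ S k := fun k ξ hξ =>
      bl_mono (Set.subset_biUnion_of_mem (u := 𝓕.E) hξ)
    have hJun : (⋃ ξ ∈ (⋃ k : ↥c, k.1.A), 𝓕.E ξ) = ⋃ k : ↥c, k.1.J := by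
      ext t
      simp only [Set.mem_iUnion, Mn.J]
      constructor
      · rintro ⟨ξ, ⟨k, hk⟩, ht⟩; exact ⟨k, ξ, hk, ht⟩
      · rintro ⟨k, ξ, hk, ht⟩; exact ⟨ξ, ⟨k, hk⟩, ht⟩
    refine ⟨{ A := ⋃ k : ↥c, k.1.A, h := h', δ₁ := ψ, hlow := ?_, hIA := ?_, hh := ?_,
              hδ₁ := ?_, heq := ?_ }, ?_⟩
    · intro ξ hξ η hη
      obtain ⟨k, hk⟩ := Set.mem_iUnion.mp hξ
      exact Set.mem_iUnion.mpr ⟨k, k.1.hlow ξ hk η hη⟩
    · apply IA.of_letters
      intro x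
      by_cases hx : ∃ k, x ∈ S k
      · obtain ⟨k, hk⟩ := hx
        rw [e1 k _ (of_mem_H hk), k.1.hIA]
      · push Not at hx
        rw [e2 x hx]
    · intro b ξ hξ
      obtain ⟨k, hk⟩ := Set.mem_iUnion.mp hξ
      exact (k.1.hh b ξ hk).congr (fun w hw => f1 b k w (H_mono (hES k ξ hk) hw))
    · intro ξ hξ
      obtain ⟨k, hk⟩ := Set.mem_iUnion.mp hξ
      exact (k.1.hδ₁ ξ hk).congr (fun w hw => e1 k w (H_mono (hES k ξ hk) hw))
    · intro b w hw
      rw [hJun, bl_iUnion] at hw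
      obtain ⟨k, hk⟩ := mem_H_of_directed S (fun k l => by
        obtain ⟨m, h1, h2⟩ := hdir k l
        exact ⟨m, bl_mono (Mn.J_mono h1), bl_mono (Mn.J_mono h2)⟩) hw
      have h1 : tw α b (k.1.δ₁ w) ∈ H (S k) :=
        (tw_pres k.1.presα b _).mpr ((k.1.presδ₁ w).mpr hk)
      rw [e1 k w hk, f1 b k _ h1, f1 b k w hk]
      exact k.1.heq b w hk
    · intro x hx
      refine ⟨?_, ?_, ?_⟩
      · exact Set.subset_iUnion (fun k : ↥c => k.1.A) ⟨x, hx⟩
      · intro b w hw; exact f1 b ⟨x, hx⟩ w hw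
      · intro w hw; exact e1 ⟨x, hx⟩ w hw

theorem ia_main (hs2 : ∀ t, ∀ t' ∈ s t, s t' ⊆ s t)
    (hs3 : WellFounded (fun a b : T => a ∈ s b)) (hδ : IA δ) (hα : IA α)
    (hpres : ∀ t, Pres δ (bl (insert t (s t))))
    (hgen : ∀ t, Gen δ (bl (s t)) (bl {t})) (𝓕 : Filtr s α) :
    ∃ h : Bool → MulAut (FreeGroup (T × ℕ)),
      α = (h true)⁻¹ * δ * h true * ((h false)⁻¹ * δ * h false)⁻¹ := by
  classical
  obtain ⟨m, hm⟩ := zorn_le (α := Mn δ 𝓕) mn_chain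
  have hA : m.A = Set.univ := by
    by_contra hne
    let _ := 𝓕.ord
    have _ := 𝓕.wf
    obtain ⟨ξ, hξ, hmin⟩ := (wellFounded_lt (α := 𝓕.Ξ)).has_min (m.Aᶜ) (by
      obtain ⟨t, ht⟩ := (Set.ne_univ_iff_exists_notMem _).mp hne
      exact ⟨t, ht⟩)
    have hlt : ∀ η, η ∈ m.A ↔ η < ξ := by
      intro η
      constructor
      · intro h
        by_contra hn
        rcases (not_lt.mp hn).eq_or_lt with h2 | h2
        · exact hξ (h2 ▸ h)
        · exact hξ (m.hlow η h ξ h2)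
      · intro h
        by_contra hn
        exact hmin η hn h
    let E := 𝓕.E ξ
    let c : Set T := E ∩ m.J
    let D : Set T := E \ m.J
    have hJmem : ∀ t, t ∈ m.J ↔ ∃ η < ξ, t ∈ 𝓕.E η := by
      intro t
      simp only [Mn.J, Set.mem_iUnion, exists_prop]
      constructor
      · rintro ⟨η, h1, h2⟩; exact ⟨η, (hlt η).mp h1, h2⟩
      · rintro ⟨η, h1, h2⟩; exact ⟨η, (hlt η).mpr h1, h2⟩
    have hcDE : c ∪ D = E := Set.inter_union_sdiff E m.J
    have hcc : c.Countable := (𝓕.hcount ξ).mono Set.inter_subset_left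
    have hDc : D.Countable := (𝓕.hcount ξ).mono Set.sdiff_subset
    have hDne : D.Nonempty := by
      obtain ⟨t, ht, ht'⟩ := 𝓕.hne ξ
      refine ⟨t, ht, ?_⟩
      rw [hJmem]
      rintro ⟨η, h1, h2⟩
      exact ht' η h1 h2
    have hcD : Disjoint c D := by
      rw [Set.disjoint_left]
      rintro t ⟨_, h1⟩ ⟨_, h2⟩
      exact h2 h1
    have hcprev : ∀ t ∈ c, ∃ η, η ∈ m.A ∧ t ∈ 𝓕.E η ∧ 𝓕.E η ⊆ c := by
      rintro t ⟨ht, htJ⟩
      obtain ⟨η, h1, h2, h3⟩ := 𝓕.hprev ξ t ht ((hJmem t).mp htJ)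
      have h1' := (hlt η).mpr h1
      exact ⟨η, h1', h2, fun x hx => ⟨h3 hx, Set.mem_biUnion h1' hx⟩⟩
    have hcpres : ∀ φ : MulAut (FreeGroup (T × ℕ)), (∀ η ∈ m.A, Pres φ (bl (𝓕.E η))) →
        Pres φ (bl c) := by
      intro φ hφ
      apply Pres.mk'
      · intro x hx
        obtain ⟨η, h1, h2, h3⟩ := hcprev x.1 hx
        exact H_mono (bl_mono h3) ((hφ η h1 _).mpr (of_mem_H h2))
      · intro x hx
        obtain ⟨η, h1, h2, h3⟩ := hcprev x.1 hx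
        exact H_mono (bl_mono h3) (((hφ η h1).inv _).mpr (of_mem_H h2))
    have hcsat : ∀ t ∈ c, s t ⊆ c := by
      intro t ht
      obtain ⟨η, h1, h2, h3⟩ := hcprev t ht
      exact (𝓕.hs η t h2).trans h3
    have hG : Gen δ (bl c) (bl D) := rich hδ hs2 hs3 hpres hgen hcD hcsat (by
      rw [hcDE]; exact 𝓕.hs ξ) (by
      rw [hcDE]
      intro g hg hgE
      obtain ⟨k, h1, h2, h3⟩ := 𝓕.hrich ξ g hg hgE
      refine ⟨k, ⟨h1, ?_⟩, h3⟩
      rw [hJmem]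
      rintro ⟨η, h4, h5⟩
      exact h2 η h4 h5)
    have hαc : Pres α (bl c) := hcpres α (fun η _ => 𝓕.hα η)
    have hδ₁c : Pres m.δ₁ (bl c) := hcpres m.δ₁ m.hδ₁
    have hhc : ∀ b, Pres (m.h b) (bl c) := fun b => hcpres (m.h b) (m.hh b)
    obtain ⟨h', δ₂, d1, d2, d3, d4, d5, d6⟩ := block_step hδ hα hcc hDc hDne hcD hG hαc
      (by rw [hcDE]; exact 𝓕.hα ξ) m.h m.δ₁ m.hIA hhc hδ₁c (by
        intro b w hw
        exact m.heq b w (H_mono (bl_mono Set.inter_subset_right) hw))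
    rw [hcDE] at d2 d4 d6
    have hAB : bl m.J ∩ bl E = bl c := by
      ext x
      exact ⟨fun h => ⟨h.2, h.1⟩, fun h => ⟨h.2, h.1⟩⟩
    have hamh : ∀ b, ∃ ψ : MulAut (FreeGroup (T × ℕ)), (∀ w ∈ H (bl m.J), ψ w = m.h b w) ∧
        (∀ w ∈ H (bl E), ψ w = h' b w) ∧
        (∀ x, x ∉ bl m.J ∪ bl E → ψ (FreeGroup.of x) = FreeGroup.of x) ∧
        Pres ψ (bl m.J ∪ bl E) := by
      intro b
      apply exists_amalg _ _ _ _ (m.presh b) (d4 b)
      · rw [hAB]; exact hhc b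
      · rw [hAB]
        intro x hx
        exact d5 b _ (of_mem_H hx)
    obtain ⟨ψ, p1, p2, p3, p4⟩ := exists_amalg m.δ₁ δ₂ (bl m.J) (bl E) m.presδ₁ d2
      (by rw [hAB]; exact hδ₁c) (by
        rw [hAB]
        intro x hx
        exact d3 _ (of_mem_H hx))
    choose hn n1 n2 n3 n4 using hamh
    have hJins : (⋃ η ∈ insert ξ m.A, 𝓕.E η) = m.J ∪ E := by
      rw [Set.biUnion_insert, Set.union_comm]
      rfl
    have hEJ : ∀ η ∈ m.A, bl (𝓕.E η) ⊆ bl m.J := fun η hη =>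
      bl_mono (Set.subset_biUnion_of_mem (u := 𝓕.E) hη)
    let m' : Mn δ 𝓕 :=
      { A := insert ξ m.A
        h := hn
        δ₁ := ψ
        hlow := by
          rintro η (rfl | hη) ζ hζ
          · exact Or.inr ((hlt ζ).mpr hζ)
          · exact Or.inr (m.hlow η hη ζ hζ)
        hIA := by
          apply IA.of_letters
          intro x
          by_cases hx1 : x ∈ bl m.J
          · rw [p1 _ (of_mem_H hx1), m.hIA]
          · by_cases hx2 : x ∈ bl E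
            · rw [p2 _ (of_mem_H hx2), d1]
            · rw [p3 x (fun h => h.elim hx1 hx2)]
        hh := by
          rintro b η (rfl | hη)
          · exact (d4 b).congr (n2 b)
          · exact (m.hh b η hη).congr (fun w hw => n1 b w (H_mono (hEJ η hη) hw))
        hδ₁ := by
          rintro η (rfl | hη)
          · exact d2.congr p2
          · exact (m.hδ₁ η hη).congr (fun w hw => p1 w (H_mono (hEJ η hη) hw))
        heq := by
          intro b
          rw [hJins, bl_union]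
          have := aut_eqOn (hn b * (tw α b * ψ)) (δ * hn b) (U := bl m.J ∪ bl E) (by
            rintro x (hx | hx)
            · have hx' := of_mem_H hx
              have h1 : tw α b (m.δ₁ (FreeGroup.of x)) ∈ H (bl m.J) :=
                (tw_pres m.presα b _).mpr ((m.presδ₁ _).mpr hx')
              rw [MulAut.mul_apply, MulAut.mul_apply, MulAut.mul_apply, p1 _ hx', n1 b _ h1,
                n1 b _ hx']
              exact m.heq b _ hx'
            · have hx' := of_mem_H hx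
              have h1 : tw α b (δ₂ (FreeGroup.of x)) ∈ H (bl E) :=
                (tw_pres (𝓕.hα ξ) b _).mpr ((d2 _).mpr hx')
              rw [MulAut.mul_apply, MulAut.mul_apply, MulAut.mul_apply, p2 _ hx', n2 b _ h1,
                n2 b _ hx']
              exact d6 b _ hx')
          intro w hw
          exact this w hw }
    have hle : m ≤ m' := ⟨Set.subset_insert _ _, n1, p1⟩
    exact hξ ((hm hle).1 (Set.mem_insert _ _))
  have hJ : bl (⋃ ξ ∈ m.A, 𝓕.E ξ) = Set.univ := by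
    rw [hA]
    ext x
    simp only [Set.mem_univ, Set.iUnion_true, iff_true]
    obtain ⟨ξ, hξ⟩ := 𝓕.hun x.1
    exact Set.mem_iUnion.mpr ⟨ξ, hξ⟩
  have hall : ∀ b w, m.h b (tw α b (m.δ₁ w)) = δ (m.h b w) := by
    intro b w
    apply m.heq b w
    rw [hJ]
    exact mem_H_univ w
  have e1 : m.δ₁ = (m.h true)⁻¹ * δ * m.h true := by
    ext w
    apply (m.h true).injective
    have := hall true w
    simp only [tw, if_true, MulAut.one_apply] at this
    rw [this, MulAut.mul_apply, MulAut.mul_apply, MulAut.apply_inv_self]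
  have e2 : α⁻¹ * m.δ₁ = (m.h false)⁻¹ * δ * m.h false := by
    ext w
    apply (m.h false).injective
    have := hall false w
    simp only [tw, Bool.false_eq_true, if_false] at this
    rw [MulAut.mul_apply, this, MulAut.mul_apply, MulAut.mul_apply, MulAut.apply_inv_self]
  refine ⟨m.h, ?_⟩
  rw [← e2, ← e1]
  group

end Pool.Agent.Helper634.FA
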