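import Pool.Agent.Helper634.Basic
set_option autoImplicit false

/-!
Extension of a partial automorphism of a free group, defined on a free factor, to an
automorphism of a slightly larger free factor.
-/

namespace Pool.Agent.Helper634.FA

open FreeGroup

universe u

variable {X : Type u}

section aux

variable {κ : Type u} (c' : κ → FreeGroup X) (Q : Set X)
  (hinj : Function.Injective (FreeGroup.lift c'))
  (hran : (FreeGroup.lift c').range = H Q)

include hinj hran in
lemma indQ {G : Type*} [Group G] (a : FreeGroup X →* G) (b : FreeGroup κ →* G)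
    (h : ∀ x ∈ Q, ∃ v, FreeGroup.lift c' v = FreeGroup.of x ∧ a (FreeGroup.of x) = b v) :
    ∀ w ∈ H Q, ∀ v, FreeGroup.lift c' v = w → a w = b v := by
  intro w hw
  have hex : ∀ y ∈ H Q, ∃ v, FreeGroup.lift c' v = y := by
    intro y hy
    rw [← hran] at hy
    exact hy
  unfold H at hw
  induction hw using Subgroup.closure_induction with
  | mem x hx =>
    obtain ⟨y, hy, rfl⟩ := hx
    intro v hv
    obtain ⟨v', h1, h2⟩ := h y hy
    have : v = v' := hinj (by rw [hv, h1])
    rw [this, h2]
  | one =>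
    intro v hv
    have : v = 1 := hinj (by rw [hv, _root_.map_one])
    rw [this, _root_.map_one, _root_.map_one]
  | mul x y hx hy ihx ihy =>
    intro v hv
    obtain ⟨vx, hvx⟩ := hex x hx
    obtain ⟨vy, hvy⟩ := hex y hy
    have : v = vx * vy := hinj (by rw [hv, _root_.map_mul, hvx, hvy])
    rw [this, _root_.map_mul, _root_.map_mul, ihx vx hvx, ihy vy hvy]
  | inv x hx ihx =>
    intro v hv
    obtain ⟨vx, hvx⟩ := hex x hx
    have : v = vx⁻¹ := hinj (by rw [hv, _root_.map_inv, hvx])
    rw [this, _root_.map_inv, _root_.map_inv, ihx vx hvx]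

end aux

theorem lemmaE (S P Q : Set X) (hSP : S ⊆ P) (hPQ : P ⊆ Q) (hfin : (Q \ S).Finite)
    (β : MulAut (FreeGroup X)) (hS : Pres β S) (hβ : ∀ x ∈ P, β (FreeGroup.of x) ∈ H Q) :
    ∃ β₁ : MulAut (FreeGroup X), (∀ w ∈ H P, β₁ w = β w) ∧ Pres β₁ Q ∧
      (∀ x, x ∉ Q → β₁ (FreeGroup.of x) = FreeGroup.of x) := by
  classical
  obtain ⟨κ, c, hcinj, hcran, hcex⟩ := Schreier.schreier ((H Q).comap β.toMonoidHom)
  let c' : κ → FreeGroup X := fun k => β (c k)
  have hlift : ∀ v, FreeGroup.lift c' v = β (FreeGroup.lift c v) := by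
    have : FreeGroup.lift c' = β.toMonoidHom.comp (FreeGroup.lift c) := by
      ext k; simp [c']
    intro v; rw [this]; rfl
  have hinj : Function.Injective (FreeGroup.lift c') := by
    intro a b hab
    rw [hlift, hlift] at hab
    exact hcinj (β.injective hab)
  have hran : (FreeGroup.lift c').range = H Q := by
    ext w
    constructor
    · rintro ⟨v, rfl⟩
      rw [hlift]
      have : FreeGroup.lift c v ∈ (FreeGroup.lift c).range := ⟨v, rfl⟩
      rw [hcran] at this
      exact this
    · intro hw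
      have : β⁻¹ w ∈ (FreeGroup.lift c).range := by
        rw [hcran]
        change β (β⁻¹ w) ∈ H Q
        rw [MulAut.apply_inv_self]; exact hw
      obtain ⟨v, hv⟩ := this
      refine ⟨v, ?_⟩
      rw [hlift, hv, MulAut.apply_inv_self]
  have hex : ∀ y ∈ H Q, ∃ v, FreeGroup.lift c' v = y := by
    intro y hy
    rw [← hran] at hy
    exact hy
  have hc'mem : ∀ k, c' k ∈ H Q := by
    intro k
    rw [← hran]
    exact ⟨FreeGroup.of k, by rw [FreeGroup.lift_apply_of]⟩
  have hj : ∀ x ∈ P, ∃ k, c k = FreeGroup.of x := fun x hx => hcex x (hβ x hx)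
  have hcinj' : Function.Injective c := by
    intro a b hab
    apply FreeGroup.of_injective
    apply hcinj
    rw [FreeGroup.lift_apply_of, FreeGroup.lift_apply_of, hab]
  let JS : Set κ := {k | ∃ x ∈ S, c k = FreeGroup.of x}
  let JP : Set κ := {k | ∃ x ∈ P, c k = FreeGroup.of x}
  have hJ : JS ⊆ JP := fun k ⟨x, hx, h⟩ => ⟨x, hSP hx, h⟩
  -- the rank computation
  have hrank : Nonempty (↥(JSᶜ) ≃ ↥(Q \ S)) := by
    let kill : FreeGroup κ →* FreeGroup ↥(JSᶜ) :=
      FreeGroup.lift (fun k => if h : k ∈ JSᶜ then FreeGroup.of ⟨k, h⟩ else 1)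
    let pQ : FreeGroup X →* FreeGroup ↥(Q \ S) :=
      FreeGroup.lift (fun x => if h : x ∈ Q \ S then FreeGroup.of ⟨x, h⟩ else 1)
    have hpS : ∀ w ∈ H S, pQ w = 1 := by
      intro w hw
      have := hom_eqOn pQ (1 : FreeGroup X →* _) (U := S) (by
        intro x hx
        have : x ∉ Q \ S := fun h => h.2 hx
        simp [pQ, hx]) w hw
      simpa using this
    choose! rw' hrw using hex
    let A : FreeGroup ↥(JSᶜ) →* FreeGroup ↥(Q \ S) := FreeGroup.lift (fun k => pQ (c' k))
    let B : FreeGroup ↥(Q \ S) →* FreeGroup ↥(JSᶜ) :=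
      FreeGroup.lift (fun x => kill (rw' (FreeGroup.of x.1)))
    have claim1 : ∀ v, A (kill v) = pQ (FreeGroup.lift c' v) := by
      have : A.comp kill = pQ.comp (FreeGroup.lift c') := by
        ext k
        simp only [MonoidHom.comp_apply, kill, FreeGroup.lift_apply_of]
        by_cases hk : k ∈ JS
        · have hk' : k ∉ JSᶜ := fun h => h hk
          rw [dif_neg hk', _root_.map_one]
          obtain ⟨x, hx, hxk⟩ := hk
          have : c' k ∈ H S := by
            change β (c k) ∈ H S
            rw [hxk]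
            exact (hS _).mpr (of_mem_H hx)
          rw [hpS _ this]
        · have hk' : k ∈ JSᶜ := hk
          rw [dif_pos hk']
          exact FreeGroup.lift_apply_of
      intro v
      exact DFunLike.congr_fun this v
    have claimS : ∀ u ∈ H S, ∀ v, FreeGroup.lift c v = u → kill v = 1 := by
      intro u hu v hv
      have h1 : u ∈ (Subgroup.closure (FreeGroup.of '' JS)).map (FreeGroup.lift c) := by
        have := hom_mem (MonoidHom.id (FreeGroup X)) (U := S)
          ((Subgroup.closure (FreeGroup.of '' JS)).map (FreeGroup.lift c)) (by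
            intro x hx
            obtain ⟨k, hk⟩ := hj x (hSP hx)
            refine ⟨FreeGroup.of k, Subgroup.subset_closure ⟨k, ⟨x, hx, hk⟩, rfl⟩, ?_⟩
            rw [FreeGroup.lift_apply_of, hk]; rfl) u hu
        exact this
      obtain ⟨v', hv', hv''⟩ := h1
      have : v = v' := hcinj (by rw [hv, hv''])
      rw [this]
      have := hom_eqOn kill (1 : FreeGroup κ →* _) (U := JS) (by
        intro x hx
        have : x ∉ JSᶜ := fun h => h hx
        simp only [kill, FreeGroup.lift_apply_of]
        rw [dif_neg this]; rfl) v' hv'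
      simpa using this
    have claim2 : ∀ w ∈ H Q, ∀ v, FreeGroup.lift c' v = w → B (pQ w) = kill v := by
      apply indQ c' Q hinj hran (B.comp pQ) kill
      intro x hx
      refine ⟨rw' (FreeGroup.of x), hrw _ (of_mem_H hx), ?_⟩
      by_cases hxS : x ∈ S
      · have h0 : x ∉ Q \ S := fun h => h.2 hxS
        have h1 : pQ (FreeGroup.of x) = 1 := hpS _ (of_mem_H hxS)
        rw [MonoidHom.comp_apply, h1, _root_.map_one]
        symm
        apply claimS (β⁻¹ (FreeGroup.of x)) ((hS.inv _).mpr (of_mem_H hxS))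
        have := hrw _ (of_mem_H hx)
        rw [hlift] at this
        calc _ = β⁻¹ (β (FreeGroup.lift c (rw' (FreeGroup.of x)))) := by
              rw [MulAut.inv_apply_self]
          _ = _ := by rw [this]
      · have h0 : x ∈ Q \ S := ⟨hx, hxS⟩
        have h1 : pQ (FreeGroup.of x) = FreeGroup.of ⟨x, h0⟩ := by
          simp only [pQ, FreeGroup.lift_apply_of]
          rw [dif_pos h0]
        rw [MonoidHom.comp_apply, h1]
        simp only [B, FreeGroup.lift_apply_of]
    have hAB : A.comp B = MonoidHom.id _ := by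
      ext x
      rw [MonoidHom.comp_apply, MonoidHom.id_apply]
      have h1 : B (FreeGroup.of x) = kill (rw' (FreeGroup.of x.1)) := by
        simp only [B, FreeGroup.lift_apply_of]
      rw [h1, claim1, hrw _ (of_mem_H x.2.1)]
      simp only [pQ, FreeGroup.lift_apply_of]
      rw [dif_pos x.2]
    have hBA : B.comp A = MonoidHom.id _ := by
      ext k
      rw [MonoidHom.comp_apply, MonoidHom.id_apply]
      have h1 : A (FreeGroup.of k) = pQ (c' k.1) := by
        simp only [A, FreeGroup.lift_apply_of]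
      rw [h1, claim2 (c' k.1) (hc'mem _) (FreeGroup.of k.1) (by rw [FreeGroup.lift_apply_of])]
      simp only [kill, FreeGroup.lift_apply_of]
      rw [dif_pos k.2]
    exact ⟨Equiv.ofFreeGroupEquiv (MonoidHom.toMulEquiv A B hBA hAB)⟩
  -- the complementary bijection
  have hcomp : Nonempty (↥(Q \ P) ≃ ↥(JPᶜ)) := by
    obtain ⟨e⟩ := hrank
    have : Finite ↥(Q \ S) := hfin
    have hJSf : Finite ↥(JSᶜ) := Finite.of_equiv _ e.symm
    have hJSfin : (JSᶜ).Finite := hJSf
    have h1 : (JSᶜ).ncard = (Q \ S).ncard := Nat.card_congr e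
    have h2 : (JP \ JS).ncard = (P \ S).ncard := by
      symm
      refine Set.ncard_congr (fun x (hx : x ∈ P \ S) => (hj x hx.1).choose) ?_ ?_ ?_
      · intro x hx
        have := (hj x hx.1).choose_spec
        refine ⟨⟨x, hx.1, this⟩, ?_⟩
        rintro ⟨y, hy, hy'⟩
        rw [this] at hy'
        exact hx.2 (FreeGroup.of_injective hy' ▸ hy)
      · intro x y hx hy hxy
        have h1 := (hj x hx.1).choose_spec
        have h2 := (hj y hy.1).choose_spec
        rw [hxy] at h1
        exact FreeGroup.of_injective (h1.symm.trans h2)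
      · rintro k ⟨⟨x, hx, hxk⟩, hk⟩
        have hxS : x ∉ S := fun h => hk ⟨x, h, hxk⟩
        refine ⟨x, ⟨hx, hxS⟩, ?_⟩
        apply hcinj'
        rw [(hj x hx).choose_spec, hxk]
    have h3 : (JSᶜ).ncard = (JP \ JS).ncard + (JPᶜ).ncard := by
      have : JSᶜ = (JP \ JS) ∪ JPᶜ := by
        ext k
        simp only [Set.mem_compl_iff, Set.mem_union, Set.mem_sdiff]
        have := @hJ k
        tauto
      rw [this]
      apply Set.ncard_union_eq
      · rw [Set.disjoint_left]
        rintro k ⟨h, _⟩ h'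
        exact h' h
      · exact hJSfin.subset (fun k hk => hk.2)
      · exact hJSfin.subset (fun k hk h => hk (hJ h))
    have h4 : (Q \ S).ncard = (P \ S).ncard + (Q \ P).ncard := by
      have : Q \ S = (P \ S) ∪ (Q \ P) := by
        ext k
        simp only [Set.mem_union, Set.mem_sdiff]
        have := @hPQ k
        have := @hSP k
        tauto
      conv_lhs => rw [this]
      apply Set.ncard_union_eq
      · rw [Set.disjoint_left]
        rintro k ⟨h, _⟩ h'
        exact h'.2 h
      · exact hfin.subset (fun k hk => ⟨hPQ hk.1, hk.2⟩)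
      · exact hfin.subset (fun k hk => ⟨hk.1, fun h => hk.2 (hSP h)⟩)
    have h5 : (Q \ P).ncard = (JPᶜ).ncard := by omega
    have : Finite ↥(Q \ P) := hfin.subset (fun k hk => ⟨hk.1, fun h => hk.2 (hSP h)⟩)
    have : Finite ↥(JPᶜ) := hJSfin.subset (fun k hk h => hk (hJ h))
    exact (Finite.card_eq (α := ↥(Q \ P)) (β := ↥(JPᶜ))).mp h5
  obtain ⟨e1⟩ := hcomp
  let f : X → FreeGroup X := fun x =>
    if x ∈ P then β (FreeGroup.of x) else
      if h : x ∈ Q \ P then c' (e1 ⟨x, h⟩) else FreeGroup.of x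
  let eh : κ → X := fun k =>
    if h : k ∈ JP then h.choose else (e1.symm ⟨k, h⟩ : ↥(Q \ P))
  have heh1 : ∀ k, ∀ x ∈ P, c k = FreeGroup.of x → eh k = x := by
    intro k x hx hk
    have h : k ∈ JP := ⟨x, hx, hk⟩
    simp only [eh]
    rw [dif_pos h]
    have := h.choose_spec.2
    exact (FreeGroup.of_injective (hk.symm.trans this)).symm
  have heh2 : ∀ k, (h : k ∉ JP) → eh k = (e1.symm ⟨k, h⟩ : ↥(Q \ P)) := by
    intro k h
    simp only [eh]
    rw [dif_neg h]
  have hfe : ∀ k, eh k ∈ Q ∧ f (eh k) = c' k := by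
    intro k
    by_cases h : k ∈ JP
    · obtain ⟨x, hx, hk⟩ := h
      rw [heh1 k x hx hk]
      refine ⟨hPQ hx, ?_⟩
      simp only [f, c']
      rw [if_pos hx, hk]
    · rw [heh2 k h]
      have h1 := (e1.symm ⟨k, h⟩).2
      refine ⟨h1.1, ?_⟩
      simp only [f]
      rw [if_neg h1.2, dif_pos h1]
      simp
  have hfx : ∀ x ∈ Q, ∃ k, eh k = x ∧ f x = c' k := by
    intro x hx
    by_cases hxP : x ∈ P
    · obtain ⟨k, hk⟩ := hj x hxP
      refine ⟨k, heh1 k x hxP hk, ?_⟩
      simp only [f, c']
      rw [if_pos hxP, hk]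
    · have h : x ∈ Q \ P := ⟨hx, hxP⟩
      refine ⟨e1 ⟨x, h⟩, ?_, ?_⟩
      · rw [heh2 _ (e1 ⟨x, h⟩).2]
        simp
      · simp only [f]
        rw [if_neg hxP, dif_pos h]
  have hf0 : ∀ x, x ∉ Q → f x = FreeGroup.of x := by
    intro x hx
    simp only [f]
    rw [if_neg (fun h => hx (hPQ h)), dif_neg (fun h => hx h.1)]
  choose! rw' hrw using hex
  let E : FreeGroup κ →* FreeGroup X := FreeGroup.lift (fun k => FreeGroup.of (eh k))
  let g : X → FreeGroup X := fun x =>
    if x ∈ Q then E (rw' (FreeGroup.of x)) else FreeGroup.of x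
  have hg1 : ∀ x ∈ Q, g x = E (rw' (FreeGroup.of x)) := fun x hx => by
    simp only [g]; rw [if_pos hx]
  have hg0 : ∀ x, x ∉ Q → g x = FreeGroup.of x := fun x hx => by
    simp only [g]; rw [if_neg hx]
  have hfE : ∀ v, FreeGroup.lift f (E v) = FreeGroup.lift c' v := by
    have : (FreeGroup.lift f).comp E = FreeGroup.lift c' := by
      ext k
      simp only [MonoidHom.comp_apply, E, FreeGroup.lift_apply_of]
      exact (hfe k).2
    intro v; exact DFunLike.congr_fun this v
  have hgE : ∀ w ∈ H Q, ∀ v, FreeGroup.lift c' v = w → FreeGroup.lift g w = E v := by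
    apply indQ c' Q hinj hran (FreeGroup.lift g) E
    intro x hx
    refine ⟨rw' (FreeGroup.of x), hrw _ (of_mem_H hx), ?_⟩
    rw [FreeGroup.lift_apply_of, hg1 x hx]
  have h1 : ∀ x, FreeGroup.lift f (g x) = FreeGroup.of x := by
    intro x
    by_cases hx : x ∈ Q
    · rw [hg1 x hx, hfE, hrw _ (of_mem_H hx)]
    · rw [hg0 x hx, FreeGroup.lift_apply_of, hf0 x hx]
  have h2 : ∀ x, FreeGroup.lift g (f x) = FreeGroup.of x := by
    intro x
    by_cases hx : x ∈ Q
    · obtain ⟨k, hk1, hk2⟩ := hfx x hx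
      rw [hk2, hgE _ (hc'mem k) (FreeGroup.of k) (by rw [FreeGroup.lift_apply_of])]
      simp only [E, FreeGroup.lift_apply_of]
      rw [hk1]
    · rw [hf0 x hx, FreeGroup.lift_apply_of, hg0 x hx]
  refine ⟨mkAut f g h1 h2, ?_, ?_, ?_⟩
  · apply aut_eqOn
    intro x hx
    rw [mkAut_of]
    simp only [f]
    rw [if_pos hx]
  · apply Pres.mk'
    · intro x hx
      rw [mkAut_of]
      obtain ⟨k, _, hk2⟩ := hfx x hx
      rw [hk2]
      exact hc'mem k
    · intro x hx
      rw [mkAut_inv_apply, FreeGroup.lift_apply_of, hg1 x hx]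
      have := hom_mem E (U := Set.univ) (H Q) (fun k _ => by
        simp only [E, FreeGroup.lift_apply_of]
        exact of_mem_H (hfe k).1) (rw' (FreeGroup.of x)) (mem_H_univ _)
      exact this
  · intro x hx
    rw [mkAut_of, hf0 x hx]

end Pool.Agent.Helper634.FA
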