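import Mathlib
set_option autoImplicit false

/-!
Schreier's theorem for a subgroup of a free group, in the form that the free basis of the
subgroup may be chosen to contain every free generator of the big group lying in the subgroup.
-/

namespace Pool.Agent.Helper634.Schreier

open FreeGroup

universe u

variable {ι : Type u} (L : Subgroup (FreeGroup ι))

/-- the coset space -/
abbrev Om : Type u := FreeGroup ι ⧸ L

/-- base point -/
abbrev bp : Om L := ((1 : FreeGroup ι) : FreeGroup ι ⧸ L)

/-- distance of a coset to the base point -/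
noncomputable def ht (w : Om L) : ℕ :=
  sInf {n | ∃ l : List (ι × Bool), ((mk l : FreeGroup ι) : Om L) = w ∧ l.length = n}

lemma ht_spec (w : Om L) :
    ∃ l : List (ι × Bool), ((mk l : FreeGroup ι) : Om L) = w ∧ l.length = ht L w := by
  have : {n | ∃ l : List (ι × Bool), ((mk l : FreeGroup ι) : Om L) = w ∧ l.length = n}.Nonempty := by
    obtain ⟨g, rfl⟩ := QuotientGroup.mk_surjective w
    obtain ⟨l, rfl⟩ := Quot.exists_rep g
    exact ⟨l.length, l, rfl, rfl⟩
  exact Nat.sInf_mem this

lemma ht_le (l : List (ι × Bool)) : ht L ((mk l : FreeGroup ι) : Om L) ≤ l.length :=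
  Nat.sInf_le ⟨l, rfl, rfl⟩

lemma exists_parent (w : Om L) (hw : w ≠ bp L) :
    ∃ x : ι × Bool, ht L ((mk [x] : FreeGroup ι)⁻¹ • w) < ht L w := by
  obtain ⟨l, hl, hlen⟩ := ht_spec L w
  cases l with
  | nil => exact absurd hl.symm hw
  | cons x t =>
    refine ⟨x, ?_⟩
    have h1 : (mk (x :: t) : FreeGroup ι) = mk [x] * mk t := by
      rw [FreeGroup.mul_mk]; rfl
    have h2 : (mk [x] : FreeGroup ι)⁻¹ • w = ((mk t : FreeGroup ι) : Om L) := by
      rw [← hl, h1]
      change (((mk [x] : FreeGroup ι)⁻¹ * (mk [x] * mk t) : FreeGroup ι) : Om L) = _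
      rw [inv_mul_cancel_left]
    rw [h2, ← hlen]
    exact lt_of_le_of_lt (ht_le L t) (by simp)

open Classical in
/-- the parent letter -/
noncomputable def par (w : Om L) : Option (ι × Bool) :=
  if h : w ≠ bp L then some (exists_parent L w h).choose else none

open Classical in
/-- Schreier transversal -/
noncomputable def rep : Om L → FreeGroup ι :=
  WellFounded.fix (measure (ht L)).wf (fun w ih =>
    if h : w ≠ bp L then
      mk [(exists_parent L w h).choose] *
        ih ((mk [(exists_parent L w h).choose] : FreeGroup ι)⁻¹ • w) (exists_parent L w h).choose_spec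
    else 1)

lemma rep_bp : rep L (bp L) = 1 := by
  unfold rep
  rw [WellFounded.fix_eq]
  simp

lemma rep_step (w : Om L) (h : w ≠ bp L) :
    ∃ x : ι × Bool, ht L ((mk [x] : FreeGroup ι)⁻¹ • w) < ht L w ∧
      rep L w = mk [x] * rep L ((mk [x] : FreeGroup ι)⁻¹ • w) := by
  refine ⟨(exists_parent L w h).choose, (exists_parent L w h).choose_spec, ?_⟩
  conv_lhs => unfold rep
  rw [WellFounded.fix_eq]
  rw [dif_pos h]
  rfl

lemma rep_spec (w : Om L) : rep L w • bp L = w := by
  induction hn : ht L w using Nat.strong_induction_on generalizing w with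
  | _ n ih =>
    by_cases h : w = bp L
    · subst h; rw [rep_bp, one_smul]
    · obtain ⟨x, hx, hr⟩ := rep_step L w h
      rw [hr, mul_smul, ih _ (hn ▸ hx) _ rfl, smul_inv_smul]

section cocycle

variable {G : Type*} [Group G] (f : ι × Om L → G)

/-- one letter acting on cosets times the group -/
def act (i : ι) : Equiv.Perm (Om L × G) where
  toFun t := ((of i : FreeGroup ι) • t.1, f (i, t.1) * t.2)
  invFun t := ((of i : FreeGroup ι)⁻¹ • t.1, (f (i, (of i : FreeGroup ι)⁻¹ • t.1))⁻¹ * t.2)
  left_inv t := by simp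
  right_inv t := by simp

/-- the induced homomorphism -/
def Phi : FreeGroup ι →* Equiv.Perm (Om L × G) := FreeGroup.lift (act L f)

/-- the cocycle -/
def co (g : FreeGroup ι) (w : Om L) : G := (Phi L f g (w, 1)).2

lemma Phi_apply (g : FreeGroup ι) : ∀ (w : Om L) (x : G),
    Phi L f g (w, x) = (g • w, co L f g w * x) := by
  induction g using FreeGroup.induction_on with
  | C1 => intro w x; simp [co]
  | of i => intro w x; simp [co, Phi, act]
  | inv_of i ih =>
    intro w x
    have h1 : Phi L f (of i)⁻¹ = (act L f i)⁻¹ := by simp [Phi]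
    have h2 : ∀ t, (act L f i)⁻¹ t = ((of i : FreeGroup ι)⁻¹ • t.1,
      (f (i, (of i : FreeGroup ι)⁻¹ • t.1))⁻¹ * t.2) := fun t => rfl
    unfold co
    rw [h1, h2, h2]
    simp
  | mul a b iha ihb =>
    intro w x
    have h1 : ∀ t, Phi L f (a * b) t = Phi L f a (Phi L f b t) := by
      intro t; rw [_root_.map_mul]; rfl
    have h2 : co L f (a * b) w = co L f a (b • w) * co L f b w := by
      unfold co
      rw [h1, ihb]
      rw [iha]
      simp [co]
    rw [h1, ihb, iha, h2, mul_smul, mul_assoc]

lemma co_mul (a b : FreeGroup ι) (w : Om L) :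
    co L f (a * b) w = co L f a (b • w) * co L f b w := by
  have h1 : Phi L f (a * b) (w, 1) = Phi L f a (Phi L f b (w, 1)) := by
    rw [_root_.map_mul]; rfl
  unfold co
  rw [h1, Phi_apply, Phi_apply]
  simp [co]

lemma co_of (i : ι) (w : Om L) : co L f (of i) w = f (i, w) := by
  simp [co, Phi, act]

lemma co_one (w : Om L) : co L f 1 w = 1 := by simp [co]

lemma co_inv (g : FreeGroup ι) (w : Om L) : co L f g⁻¹ (g • w) = (co L f g w)⁻¹ := by
  have := co_mul L f g⁻¹ g w
  rw [inv_mul_cancel, co_one] at this
  exact eq_inv_of_mul_eq_one_left this.symm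

end cocycle

/-- indices of the non-tree edges -/
def Kap : Type u := {t : ι × Om L // rep L ((of t.1 : FreeGroup ι) • t.2) ≠ of t.1 * rep L t.2}

/-- Schreier generators -/
noncomputable def sg (t : ι × Om L) : FreeGroup ι :=
  (rep L ((of t.1 : FreeGroup ι) • t.2))⁻¹ * (of t.1 * rep L t.2)

/-- Schreier generators indexed by the non-tree edges -/
noncomputable def sgK (t : Kap L) : FreeGroup ι := sg L t.1

open Classical in
/-- labelling of all edges by the free group on the non-tree edges -/
noncomputable def lab (t : ι × Om L) : FreeGroup (Kap L) :=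
  if h : rep L ((of t.1 : FreeGroup ι) • t.2) ≠ of t.1 * rep L t.2 then
    of (⟨t, h⟩ : Kap L) else 1

lemma co_rep (w : Om L) : co L (lab L) (rep L w) (bp L) = 1 := by
  induction hn : ht L w using Nat.strong_induction_on generalizing w with
  | _ n ih =>
    by_cases h : w = bp L
    · subst h; rw [rep_bp, co_one]
    · obtain ⟨⟨i, b⟩, hx, hr⟩ := rep_step L w h
      rw [hr, co_mul, ih _ (hn ▸ hx) _ rfl, mul_one, rep_spec]
      cases b with
      | true =>
        have e : (mk [(i, true)] : FreeGroup ι) = of i := rfl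
        rw [e] at hr ⊢
        rw [co_of]
        unfold lab
        rw [dif_neg]
        simp only [ne_eq, not_not]
        rw [smul_inv_smul]
        exact hr
      | false =>
        have e : (mk [(i, false)] : FreeGroup ι) = (of i)⁻¹ := rfl
        rw [e] at hr ⊢
        rw [inv_inv] at hr ⊢
        rw [co_inv, co_of]
        unfold lab
        rw [dif_neg]
        · simp
        · simp only [ne_eq, not_not]
          rw [hr]; simp

lemma co_sgK (t : Kap L) : co L (lab L) (sgK L t) (bp L) = of t := by
  unfold sgK sg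
  rw [co_mul, co_mul, co_rep, mul_smul, rep_spec, mul_one, co_of]
  have h1 := co_inv L (lab L) (rep L ((of t.1.1 : FreeGroup ι) • t.1.2)) (bp L)
  rw [rep_spec, co_rep, inv_one] at h1
  rw [h1, one_mul]
  unfold lab
  rw [dif_pos t.2]
  rfl

lemma sgK_mem (t : Kap L) : sgK L t ∈ L := by
  have h : sgK L t • bp L = bp L := by
    unfold sgK sg
    rw [mul_smul, mul_smul, rep_spec, inv_smul_eq_iff, rep_spec]
  have h2 : ((sgK L t : FreeGroup ι) : Om L) = ((1 : FreeGroup ι) : Om L) := by
    have : sgK L t • bp L = ((sgK L t * 1 : FreeGroup ι) : Om L) := rfl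
    rw [this, mul_one] at h
    exact h
  have := QuotientGroup.eq.mp h2
  simpa using this

lemma lift_mem (w : FreeGroup (Kap L)) : FreeGroup.lift (sgK L) w ∈ L := by
  induction w using FreeGroup.induction_on with
  | C1 => simp [L.one_mem]
  | of i => simpa using sgK_mem L i
  | inv_of i ih => simpa using sgK_mem L i
  | mul a b iha ihb => rw [_root_.map_mul]; exact L.mul_mem iha ihb

lemma smul_bp_of_mem {g : FreeGroup ι} (hg : g ∈ L) : g • bp L = bp L := by
  change ((g * 1 : FreeGroup ι) : Om L) = _
  rw [mul_one]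
  apply QuotientGroup.eq.mpr
  simpa using hg

lemma co_lift (w : FreeGroup (Kap L)) :
    co L (lab L) (FreeGroup.lift (sgK L) w) (bp L) = w := by
  induction w using FreeGroup.induction_on with
  | C1 => simp [co_one]
  | of i => simpa using co_sgK L i
  | inv_of i ih =>
    have h := co_inv L (lab L) (sgK L i) (bp L)
    rw [smul_bp_of_mem L (sgK_mem L i), co_sgK] at h
    simpa using h
  | mul a b iha ihb =>
    rw [_root_.map_mul, co_mul, smul_bp_of_mem L (lift_mem L b), iha, ihb]

lemma lift_injective : Function.Injective (FreeGroup.lift (sgK L)) := by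
  intro a b h
  rw [← co_lift L a, ← co_lift L b, h]

lemma sg_mem (t : ι × Om L) : sg L t ∈ (FreeGroup.lift (sgK L)).range := by
  by_cases h : rep L ((of t.1 : FreeGroup ι) • t.2) ≠ of t.1 * rep L t.2
  · let k : Kap L := ⟨t, h⟩
    refine ⟨of k, ?_⟩
    exact FreeGroup.lift_apply_of
  · simp only [ne_eq, not_not] at h
    unfold sg
    rw [h]
    simp

lemma gen (g : FreeGroup ι) : ∀ w : Om L,
    (rep L (g • w))⁻¹ * (g * rep L w) ∈ (FreeGroup.lift (sgK L)).range := by
  induction g using FreeGroup.induction_on with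
  | C1 => intro w; simp
  | of i => intro w; exact sg_mem L (i, w)
  | inv_of i ih =>
    intro w
    have h := sg_mem L (i, (of i : FreeGroup ι)⁻¹ • w)
    have h2 := Subgroup.inv_mem _ h
    unfold sg at h2
    simp only [smul_inv_smul] at h2
    convert h2 using 1
    group
  | mul a b iha ihb =>
    intro w
    have h := Subgroup.mul_mem _ (iha (b • w)) (ihb w)
    rw [← mul_smul] at h
    convert h using 1
    group

lemma range_lift : (FreeGroup.lift (sgK L)).range = L := by
  apply le_antisymm
  · rintro _ ⟨w, rfl⟩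
    exact lift_mem L w
  · intro g hg
    have h := gen L g (bp L)
    rw [smul_bp_of_mem L hg, rep_bp] at h
    simpa using h

/-- Schreier's theorem with prescribed basis elements. -/
theorem schreier : ∃ (κ : Type u) (c : κ → FreeGroup ι),
    Function.Injective (FreeGroup.lift c) ∧ (FreeGroup.lift c).range = L ∧
      ∀ i, of i ∈ L → ∃ k, c k = of i := by
  refine ⟨Kap L, sgK L, lift_injective L, range_lift L, ?_⟩
  intro i hi
  have hb : (of i : FreeGroup ι) • bp L = bp L := smul_bp_of_mem L hi
  have h : rep L ((of i : FreeGroup ι) • bp L) ≠ of i * rep L (bp L) := by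
    rw [hb, rep_bp, mul_one]
    exact (FreeGroup.of_ne_one i).symm
  refine ⟨⟨(i, bp L), h⟩, ?_⟩
  unfold sgK sg
  simp only [hb, rep_bp]
  simp

end Pool.Agent.Helper634.Schreier
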