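import Pool.Agent.Helper634.Uniq
import Pool.Agent.Helper634.Global
set_option autoImplicit false

/-!
A universal automorphism acting trivially on the abelianization.
-/

namespace Pool.Agent.Helper634.FA

open FreeGroup

universe u

variable {T : Type u}

/-- the letters with index in `J` -/
def bl (J : Set T) : Set (T × ℕ) := Prod.fst ⁻¹' J

lemma bl_mono {J K : Set T} (h : J ⊆ K) : bl J ⊆ bl K := Set.preimage_mono h

lemma bl_union (J K : Set T) : bl (J ∪ K) = bl J ∪ bl K := Set.preimage_union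

lemma bl_countable {J : Set T} (h : J.Countable) : (bl J).Countable := by
  have : bl J = J ×ˢ Set.univ := by ext t; simp [bl]
  rw [this]
  exact h.prod Set.countable_univ

lemma bl_infinite {J : Set T} {t : T} (h : t ∈ J) : (bl J).Infinite := by
  have : Set.InjOn (fun n : ℕ => (t, n)) Set.univ := by
    intro a _ b _ hab
    exact congrArg Prod.snd hab
  refine (Set.infinite_univ.image this).mono ?_
  rintro _ ⟨n, _, rfl⟩
  exact h

lemma bl_disjoint {J K : Set T} (h : Disjoint J K) : Disjoint (bl J) (bl K) :=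
  h.preimage _

lemma Pres.biUnion {X : Type u} {K : Type*} {φ : MulAut (FreeGroup X)} {A : Set K}
    {S : K → Set X} (h : ∀ k ∈ A, Pres φ (S k)) : Pres φ (⋃ k ∈ A, S k) := by
  apply Pres.mk'
  · intro x hx
    obtain ⟨k, hk, hxk⟩ := Set.mem_iUnion₂.mp hx
    exact H_mono (Set.subset_biUnion_of_mem hk) ((h k hk _).mpr (of_mem_H hxk))
  · intro x hx
    obtain ⟨k, hk, hxk⟩ := Set.mem_iUnion₂.mp hx
    exact H_mono (Set.subset_biUnion_of_mem hk) (((h k hk).inv _).mpr (of_mem_H hxk))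

/-- good automorphisms over saturated sets -/
structure Stt (s : T → Set T) where
  J : Set T
  δ : MulAut (FreeGroup (T × ℕ))
  hsat : ∀ t ∈ J, s t ⊆ J
  hIA : IA δ
  hpres : ∀ t ∈ J, Pres δ (bl (insert t (s t)))
  hgen : ∀ t ∈ J, Gen δ (bl (s t)) (bl {t})

variable {s : T → Set T}

instance : Preorder (Stt s) where
  le a b := a.J ⊆ b.J ∧ ∀ w ∈ H (bl a.J), b.δ w = a.δ w
  le_refl a := ⟨subset_rfl, fun _ _ => rfl⟩
  le_trans a b c h h' := ⟨h.1.trans h'.1, fun w hw => by
    rw [h'.2 w (H_mono (bl_mono h.1) hw), h.2 w hw]⟩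

lemma bl_insert_sub {J : Set T} (hsat : ∀ t ∈ J, s t ⊆ J) {t : T} (ht : t ∈ J) :
    bl (insert t (s t)) ⊆ bl J := bl_mono (Set.insert_subset ht (hsat t ht))

lemma bl_gen_sub {J : Set T} (hsat : ∀ t ∈ J, s t ⊆ J) {t : T} (ht : t ∈ J) :
    bl (s t) ∪ bl {t} ⊆ bl J :=
  Set.union_subset (bl_mono (hsat t ht)) (bl_mono (by simpa using ht))

lemma pres_of_sat {δ : MulAut (FreeGroup (T × ℕ))} {J : Set T} (hsat : ∀ t ∈ J, s t ⊆ J)
    (hpres : ∀ t ∈ J, Pres δ (bl (insert t (s t)))) : Pres δ (bl J) := by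
  apply Pres.mk'
  · intro x hx
    exact H_mono (bl_insert_sub hsat hx) ((hpres x.1 hx _).mpr (of_mem_H (Or.inl rfl)))
  · intro x hx
    exact H_mono (bl_insert_sub hsat hx) (((hpres x.1 hx).inv _).mpr (of_mem_H (Or.inl rfl)))

lemma stt_chain (c : Set (Stt s)) (hc : IsChain (· ≤ ·) c) : BddAbove c := by
  classical
  rcases c.eq_empty_or_nonempty with rfl | hne
  · exact ⟨{ J := ∅, δ := 1, hsat := by simp, hIA := IA.one, hpres := by simp,
             hgen := by simp }, by simp [upperBounds]⟩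
  · have : Nonempty ↥c := hne.to_subtype
    let S : ↥c → Set (T × ℕ) := fun k => bl k.1.J
    have hdir : ∀ k l : ↥c, ∃ m : ↥c, k.1 ≤ m.1 ∧ l.1 ≤ m.1 := by
      intro k l
      rcases hc.total k.2 l.2 with h | h
      · exact ⟨l, h, le_rfl⟩
      · exact ⟨k, le_rfl, h⟩
    obtain ⟨ψ, h1, h2, h3⟩ := limit_aut S (fun k => k.1.δ)
      (fun k => pres_of_sat k.1.hsat k.1.hpres) (by
        intro k l
        obtain ⟨m, h1, h2⟩ := hdir k l
        exact ⟨m, ⟨bl_mono h1.1, h1.2⟩, ⟨bl_mono h2.1, h2.2⟩⟩)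
    refine ⟨{ J := ⋃ k : ↥c, k.1.J, δ := ψ, hsat := ?_, hIA := ?_, hpres := ?_, hgen := ?_ }, ?_⟩
    · intro t ht
      obtain ⟨k, hk⟩ := Set.mem_iUnion.mp ht
      exact (k.1.hsat t hk).trans (Set.subset_iUnion (fun k : ↥c => k.1.J) k)
    · apply IA.of_letters
      intro x
      by_cases hx : ∃ k, x ∈ S k
      · obtain ⟨k, hk⟩ := hx
        rw [h1 k _ (of_mem_H hk), k.1.hIA]
      · push Not at hx
        rw [h2 x hx]
    · intro t ht
      obtain ⟨k, hk⟩ := Set.mem_iUnion.mp ht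
      refine (k.1.hpres t hk).congr ?_
      intro w hw
      exact h1 k w (H_mono (bl_insert_sub k.1.hsat hk) hw)
    · intro t ht
      obtain ⟨k, hk⟩ := Set.mem_iUnion.mp ht
      refine (k.1.hgen t hk).congr ?_
      intro w hw
      exact h1 k w (H_mono (bl_gen_sub k.1.hsat hk) hw)
    · intro x hx
      exact ⟨Set.subset_iUnion (fun k : ↥c => k.1.J) ⟨x, hx⟩, fun w hw => h1 ⟨x, hx⟩ w hw⟩

theorem exists_star (hs1 : ∀ t, (s t).Countable) (hs2 : ∀ t, ∀ t' ∈ s t, s t' ⊆ s t)
    (hs3 : WellFounded (fun a b : T => a ∈ s b)) :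
    ∃ δ : MulAut (FreeGroup (T × ℕ)), IA δ ∧ (∀ t, Pres δ (bl (insert t (s t)))) ∧
      ∀ t, Gen δ (bl (s t)) (bl {t}) := by
  classical
  obtain ⟨m, hm⟩ := zorn_le (α := Stt s) stt_chain
  have hJ : m.J = Set.univ := by
    by_contra hne
    obtain ⟨t, ht, hmin⟩ := hs3.has_min (m.Jᶜ) (by
      obtain ⟨t, ht⟩ := (Set.ne_univ_iff_exists_notMem _).mp hne
      exact ⟨t, ht⟩)
    have hst : s t ⊆ m.J := by
      intro t' ht'
      by_contra h
      exact hmin t' h ht'
    have htt : t ∉ s t := fun h => ht (hst h)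
    have hmp : Pres m.δ (bl m.J) := pres_of_sat m.hsat m.hpres
    have hmst : Pres m.δ (bl (s t)) := pres_of_sat (hs2 t) (fun t' ht' => m.hpres t' (hst ht'))
    have hdis : Disjoint (bl (s t)) (bl {t}) := bl_disjoint (by simpa using htt)
    obtain ⟨δ₁, d1, d2, d3, d4, d5⟩ := exGen (ι := Unit) (c := bl (s t)) (D := bl {t})
      (bl_countable (hs1 t)) (bl_countable (Set.countable_singleton t))
      (bl_infinite (Set.mem_singleton t)) hdis m.hIA hmst (fun _ => 1) (fun _ => IA.one)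
      (fun _ => Pres.one) (fun _ => Pres.one)
    have hAB : bl m.J ∩ (bl (s t) ∪ bl {t}) = bl (s t) := by
      rw [← bl_union]
      ext x
      constructor
      · rintro ⟨h1, h2 | h2⟩
        · exact h2
        · exfalso
          have h3 : x.1 = t := h2
          have h4 : x.1 ∈ m.J := h1
          rw [h3] at h4
          exact ht h4
      · intro h
        exact ⟨bl_mono hst h, Or.inl h⟩
    obtain ⟨ψ, h1, h2, h3, h4⟩ := exists_amalg m.δ δ₁ (bl m.J) (bl (s t) ∪ bl {t}) hmp d3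
      (by rw [hAB]; exact hmst) (by
        rw [hAB]
        intro x hx
        exact d2 _ (of_mem_H hx))
    have hins : bl (insert t (s t)) = bl (s t) ∪ bl {t} := by
      rw [← bl_union, Set.insert_eq, Set.union_comm]
    have hIAψ : IA ψ := by
      apply IA.of_letters
      intro x
      by_cases hx1 : x ∈ bl m.J
      · rw [h1 _ (of_mem_H hx1), m.hIA]
      · by_cases hx2 : x ∈ bl (s t) ∪ bl {t}
        · rw [h2 _ (of_mem_H hx2), d1]
        · rw [h3 x (fun h => h.elim hx1 hx2)]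
    let m' : Stt s :=
      { J := insert t m.J
        δ := ψ
        hsat := by
          rintro t' (rfl | ht')
          · exact hst.trans (Set.subset_insert _ _)
          · exact (m.hsat t' ht').trans (Set.subset_insert _ _)
        hIA := hIAψ
        hpres := by
          rintro t' (rfl | ht')
          · rw [hins]
            exact d3.congr h2
          · exact (m.hpres t' ht').congr
              (fun w hw => h1 w (H_mono (bl_insert_sub m.hsat ht') hw))
        hgen := by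
          rintro t' (rfl | ht')
          · have := d5 ()
            rw [one_mul] at this
            exact this.congr h2
          · exact (m.hgen t' ht').congr
              (fun w hw => h1 w (H_mono (bl_gen_sub m.hsat ht') hw)) }
    have hle : m ≤ m' := ⟨Set.subset_insert _ _, h1⟩
    exact ht ((hm hle).1 (Set.mem_insert _ _))
  exact ⟨m.δ, m.hIA, fun t => m.hpres t (by rw [hJ]; trivial),
    fun t => m.hgen t (by rw [hJ]; trivial)⟩

/-- richness: a saturated set with enough nodes is generic over its saturated part -/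
theorem rich {δ : MulAut (FreeGroup (T × ℕ))} {c D : Set T} (hIA : IA δ)
    (hs2 : ∀ t, ∀ t' ∈ s t, s t' ⊆ s t) (hs3 : WellFounded (fun a b : T => a ∈ s b))
    (hpres : ∀ t, Pres δ (bl (insert t (s t))))
    (hgen : ∀ t, Gen δ (bl (s t)) (bl {t})) (hcD : Disjoint c D)
    (hc : ∀ t ∈ c, s t ⊆ c) (hD : ∀ t ∈ c ∪ D, s t ⊆ c ∪ D)
    (hrich : ∀ g : Set T, g.Finite → g ⊆ c ∪ D → ∃ k ∈ D, g ⊆ s k) :
    Gen δ (bl c) (bl D) := by
  classical
  have hss : ∀ t, t ∉ s t := fun t h => by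
    have := hs3.has_min {t} ⟨t, rfl⟩
    obtain ⟨a, ha, h2⟩ := this
    rw [Set.mem_singleton_iff] at ha
    subst ha
    exact h2 a rfl h
  have hcP : Pres δ (bl c) := pres_of_sat hc (fun t _ => hpres t)
  have hlf : ∀ t, t ∈ c ∪ D → ∀ x ∈ bl {t}, ∃ U, bl c ⊆ U ∧ x ∈ U ∧ U ⊆ bl c ∪ bl D ∧
      (U \ bl c).Finite ∧ Pres δ U := by
    intro t
    induction t using hs3.induction with
    | _ t ih =>
      intro ht x hx
      have hxt : x.1 = t := hx
      by_cases htc : t ∈ c
      · refine ⟨bl c, subset_rfl, ?_, Set.subset_union_left, by simp, hcP⟩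
        change x.1 ∈ c
        rw [hxt]; exact htc
      · have htD : t ∈ D := ht.resolve_left htc
        obtain ⟨Ut, u1, u2, u3, u4⟩ := (hgen t).lf {x} (Set.finite_singleton x) (by simpa using hx)
        have hVt : Ut \ bl (s t) ⊆ bl {t} := by
          rintro y ⟨hy, hy'⟩
          exact (u2 hy).resolve_left hy'
        have hY : ∀ y ∈ Ut \ bl (s t), ∃ Y : Set (T × ℕ), Y ⊆ Ut ∧ Y.Finite ∧
            δ (FreeGroup.of y) ∈ H Y ∧ δ⁻¹ (FreeGroup.of y) ∈ H Y := by
          intro y hy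
          obtain ⟨Y1, a1, a2, a3⟩ := exists_supp ((u4 _).mpr (of_mem_H hy.1))
          obtain ⟨Y2, b1, b2, b3⟩ := exists_supp ((u4.inv _).mpr (of_mem_H hy.1))
          exact ⟨Y1 ∪ Y2, Set.union_subset a1 b1, a2.union b2, H_mono Set.subset_union_left a3,
            H_mono Set.subset_union_right b3⟩
        choose! Y y1 y2 y3 y4 using hY
        let YY : Set (T × ℕ) := ⋃ y ∈ Ut \ bl (s t), Y y
        have hYYfin : YY.Finite := u3.biUnion (fun y hy => y2 y hy)
        have hYYU : YY ⊆ Ut := Set.iUnion₂_subset (fun y hy => y1 y hy)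
        have hih : ∀ z : T × ℕ, z ∈ YY ∩ bl (s t) → ∃ U, bl c ⊆ U ∧ z ∈ U ∧
            U ⊆ bl c ∪ bl D ∧ (U \ bl c).Finite ∧ Pres δ U := by
          rintro z ⟨_, hz⟩
          exact ih z.1 hz (hD t ht hz) z rfl
        choose! Z z1 z2 z3 z4 z5 using hih
        refine ⟨bl c ∪ (⋃ z ∈ YY ∩ bl (s t), Z z) ∪ (Ut \ bl (s t)), ?_, ?_, ?_, ?_, ?_⟩
        · exact Set.subset_union_left.trans Set.subset_union_left
        · refine Or.inr ⟨u1 (Or.inr rfl), ?_⟩
          intro h
          have h' : x.1 ∈ s t := h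
          rw [hxt] at h'
          exact hss t h'
        · apply Set.union_subset
          · apply Set.union_subset Set.subset_union_left
            exact Set.iUnion₂_subset (fun z hz => z3 z hz)
          · intro y hy
            right
            have : y.1 = t := hVt hy
            change y.1 ∈ D
            rw [this]; exact htD
        · have h1 : (⋃ z ∈ YY ∩ bl (s t), (Z z \ bl c)).Finite :=
            (hYYfin.subset Set.inter_subset_left).biUnion (fun z hz => z4 z hz)
          refine (h1.union u3).subset ?_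
          rintro y ⟨(hy | hy) | hy, hyc⟩
          · exact absurd hy hyc
          · obtain ⟨z, hz, hyz⟩ := Set.mem_iUnion₂.mp hy
            exact Or.inl (Set.mem_biUnion hz ⟨hyz, hyc⟩)
          · exact Or.inr hy
        · have hYsub : ∀ y ∈ Ut \ bl (s t), Y y ⊆
              bl c ∪ (⋃ z ∈ YY ∩ bl (s t), Z z) ∪ (Ut \ bl (s t)) := by
            intro y hy z hz
            have hzYY : z ∈ YY := Set.mem_biUnion hy hz
            by_cases hzs : z ∈ bl (s t)
            · exact Or.inl (Or.inr (Set.mem_biUnion (show z ∈ YY ∩ bl (s t) from ⟨hzYY, hzs⟩)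
                (z2 z ⟨hzYY, hzs⟩)))
            · exact Or.inr ⟨hYYU hzYY, hzs⟩
          have hbase : Pres δ (bl c ∪ (⋃ z ∈ YY ∩ bl (s t), Z z)) :=
            hcP.union (Pres.biUnion z5)
          apply Pres.mk'
          · rintro y (hy | hy)
            · exact H_mono Set.subset_union_left ((hbase _).mpr (of_mem_H hy))
            · exact H_mono (hYsub y hy) (y3 y hy)
          · rintro y (hy | hy)
            · exact H_mono Set.subset_union_left ((hbase.inv _).mpr (of_mem_H hy))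
            · exact H_mono (hYsub y hy) (y4 y hy)
  refine ⟨?_, ?_⟩
  · intro V hV hVD
    have h0 : ∀ x ∈ V, ∃ U, bl c ⊆ U ∧ x ∈ U ∧ U ⊆ bl c ∪ bl D ∧ (U \ bl c).Finite ∧ Pres δ U :=
      fun x hx => hlf x.1 (Or.inr (hVD hx)) x rfl
    choose! Z z1 z2 z3 z4 z5 using h0
    refine ⟨bl c ∪ ⋃ z ∈ V, Z z, ?_, ?_, ?_, hcP.union (Pres.biUnion z5)⟩
    · apply Set.union_subset_union_right
      intro x hx
      exact Set.mem_biUnion hx (z2 x hx)
    · apply Set.union_subset Set.subset_union_left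
      exact Set.iUnion₂_subset (fun z hz => z3 z hz)
    · have h1 : (⋃ z ∈ V, (Z z \ bl c)).Finite := hV.biUnion (fun z hz => z4 z hz)
      refine h1.subset ?_
      rintro y ⟨hy | hy, hyc⟩
      · exact absurd hy hyc
      · obtain ⟨z, hz, hyz⟩ := Set.mem_iUnion₂.mp hy
        exact Set.mem_biUnion hz ⟨hyz, hyc⟩
  · intro U W hcU hUD hfin hP hW hWD γ hγ hγU hγP
    have hY : ∀ y ∈ W, ∃ Y : Set (T × ℕ), Y ⊆ U ∪ W ∧ Y.Finite ∧
        γ (FreeGroup.of y) ∈ H Y ∧ γ⁻¹ (FreeGroup.of y) ∈ H Y := by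
      intro y hy
      obtain ⟨Y1, a1, a2, a3⟩ := exists_supp ((hγP _).mpr (of_mem_H (Or.inr hy)))
      obtain ⟨Y2, b1, b2, b3⟩ := exists_supp ((hγP.inv _).mpr (of_mem_H (Or.inr hy)))
      exact ⟨Y1 ∪ Y2, Set.union_subset a1 b1, a2.union b2, H_mono Set.subset_union_left a3,
        H_mono Set.subset_union_right b3⟩
    choose! Y y1 y2 y3 y4 using hY
    let YY : Set (T × ℕ) := ⋃ y ∈ W, Y y
    have hYYfin : YY.Finite := hW.biUnion (fun y hy => y2 y hy)
    have hYYU : YY ⊆ U ∪ W := Set.iUnion₂_subset (fun y hy => y1 y hy)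
    have hWD' : W ⊆ bl c ∪ bl D := fun x hx => Or.inr (hWD hx).1
    obtain ⟨k, hkD, hk⟩ := hrich (Prod.fst '' (YY ∪ (U \ bl c) ∪ W))
      (((hYYfin.union hfin).union hW).image _) (by
        rintro _ ⟨x, (hx | hx) | hx, rfl⟩
        · exact (Set.union_subset hUD hWD') (hYYU hx)
        · exact hUD hx.1
        · exact hWD' hx)
    have hkc : k ∉ c := fun h => Set.disjoint_left.mp hcD h hkD
    have hYk : YY ⊆ bl (s k) := fun x hx => hk ⟨x, Or.inl (Or.inl hx), rfl⟩
    have hUk : U \ bl c ⊆ bl (s k) := fun x hx => hk ⟨x, Or.inl (Or.inr hx), rfl⟩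
    have hWk : W ⊆ bl (s k) := fun x hx => hk ⟨x, Or.inr hx, rfl⟩
    have hskP : Pres δ (bl (s k)) := pres_of_sat (hs2 k) (fun t _ => hpres t)
    have hU2 : Pres δ (U ∩ bl (s k)) := hP.inter hskP
    have hblk : ∀ x ∈ bl {k}, x ∉ U := by
      intro x hx hxU
      have hxk : x.1 = k := hx
      by_cases hxc : x ∈ bl c
      · have : x.1 ∈ c := hxc
        rw [hxk] at this
        exact hkc this
      · have : x.1 ∈ s k := hUk ⟨hxU, hxc⟩
        rw [hxk] at this
        exact hss k this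
    have hblk' : ∀ x ∈ bl {k}, x ∉ bl (s k) := by
      intro x hx hx'
      have hxk : x.1 = k := hx
      have : x.1 ∈ s k := hx'
      rw [hxk] at this
      exact hss k this
    have hblkD : bl {k} ⊆ bl D := bl_mono (by simpa using hkD)
    have hγ2 : Pres γ ((U ∩ bl (s k)) ∪ W) := by
      have hYsub : YY ⊆ (U ∩ bl (s k)) ∪ W := by
        intro x hx
        rcases hYYU hx with h | h
        · exact Or.inl ⟨h, hYk hx⟩
        · exact Or.inr h
      have hγi : ∀ w ∈ H U, γ⁻¹ w = δ⁻¹ w := by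
        intro w hw
        apply γ.injective
        rw [MulAut.apply_inv_self, hγU _ ((hP.inv w).mpr hw), MulAut.apply_inv_self]
      apply Pres.mk'
      · rintro x (hx | hx)
        · rw [hγU _ (of_mem_H hx.1)]
          exact H_mono Set.subset_union_left ((hU2 _).mpr (of_mem_H hx))
        · exact H_mono ((Set.subset_biUnion_of_mem hx).trans hYsub) (y3 x hx)
      · rintro x (hx | hx)
        · rw [hγi _ (of_mem_H hx.1)]
          exact H_mono Set.subset_union_left ((hU2.inv _).mpr (of_mem_H hx))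
        · exact H_mono ((Set.subset_biUnion_of_mem hx).trans hYsub) (y4 x hx)
    obtain ⟨ε, hε1, hε2⟩ := choose_fresh W (bl {k}) hW (bl_infinite (Set.mem_singleton k))
    obtain ⟨p0, hp1, hp2⟩ := exists_swap W ε hε1 (fun x hx h => hblk' _ (hε2 x hx) (hWk h))
    have hpU : ∀ x ∈ U, p0 x = x := fun x hx =>
      hp2 x (fun h => (hWD h).2 hx) (fun y hy h => hblk _ (hε2 y hy) (h ▸ hx))
    let W' : Set (T × ℕ) := ε '' W
    have hW'k : W' ⊆ bl {k} := by
      rintro _ ⟨y, hy, rfl⟩; exact hε2 y hy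
    let U2 : Set (T × ℕ) := U ∩ bl (s k)
    have hpA : ∀ x ∈ U2 ∪ W, p0 x ∈ U2 ∪ W' := by
      rintro x (hx | hx)
      · rw [hpU x hx.1]; exact Or.inl hx
      · rw [(hp1 x hx).1]; exact Or.inr ⟨x, hx, rfl⟩
    have hpB : ∀ x ∈ U2 ∪ W', p0⁻¹ x ∈ U2 ∪ W := by
      rintro x (hx | ⟨y, hy, rfl⟩)
      · have : p0⁻¹ x = x := by rw [Equiv.Perm.inv_eq_iff_eq, hpU x hx.1]
        rw [this]; exact Or.inl hx
      · have : p0⁻¹ (ε y) = y := by rw [Equiv.Perm.inv_eq_iff_eq, (hp1 y hy).1]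
        rw [this]; exact Or.inr hy
    have hpA' : ∀ w ∈ H (U2 ∪ W), pa p0 w ∈ H (U2 ∪ W') := pa_mem hpA
    have hpB' : ∀ w ∈ H (U2 ∪ W'), (pa p0)⁻¹ w ∈ H (U2 ∪ W) := by
      rw [← _root_.map_inv]; exact pa_mem hpB
    let γ' : MulAut (FreeGroup (T × ℕ)) := pa p0 * γ * (pa p0)⁻¹
    have hγ' : ∀ w, γ' w = pa p0 (γ ((pa p0)⁻¹ w)) := fun w => rfl
    have hγ'i : ∀ w, γ'⁻¹ w = pa p0 (γ⁻¹ ((pa p0)⁻¹ w)) := fun w => by
      have : γ'⁻¹ = pa p0 * γ⁻¹ * (pa p0)⁻¹ := by simp only [γ']; group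
      rw [this]; rfl
    have hγ'P : Pres γ' (U2 ∪ W') := by
      apply Pres.mk'
      · intro x hx
        rw [hγ']
        exact hpA' _ ((hγ2 _).mpr (hpB' _ (of_mem_H hx)))
      · intro x hx
        rw [hγ'i]
        exact hpA' _ ((hγ2.inv _).mpr (hpB' _ (of_mem_H hx)))
    have hγ'U : ∀ w ∈ H U, γ' w = δ w := by
      intro w hw
      rw [hγ', pa_inv_fix hpU w hw, hγU w hw, pa_fix hpU _ ((hP w).mpr hw)]
    have hAB : bl (s k) ∩ (U2 ∪ W') = U2 := by
      ext x
      constructor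
      · rintro ⟨h1, h2 | h2⟩
        · exact h2
        · exact absurd h1 (hblk' x (hW'k h2))
      · intro h
        exact ⟨h.2, Or.inl h⟩
    obtain ⟨Γ, g1, g2, g3, g4⟩ := exists_amalg δ γ' (bl (s k)) (U2 ∪ W') hskP hγ'P
      (by rw [hAB]; exact hU2) (by
        rw [hAB]
        intro x hx
        exact hγ'U _ (of_mem_H hx.1))
    have hΓIA : IA Γ := by
      apply IA.of_letters
      intro x
      by_cases hx1 : x ∈ bl (s k)
      · rw [g1 _ (of_mem_H hx1), hIA]
      · by_cases hx2 : x ∈ U2 ∪ W'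
        · rw [g2 _ (of_mem_H hx2)]
          exact hγ.conj (pa p0) _
        · rw [g3 x (fun h => h.elim hx1 hx2)]
    have hun : bl (s k) ∪ (U2 ∪ W') = bl (s k) ∪ W' := by
      rw [← Set.union_assoc]
      congr 1
      exact Set.union_eq_self_of_subset_right Set.inter_subset_right
    rw [hun] at g4
    have hW'fin : W'.Finite := hW.image ε
    obtain ⟨p1, q1, q2⟩ := (hgen k).ext (bl (s k)) W' subset_rfl Set.subset_union_left (by simp)
      hskP hW'fin (fun x hx => ⟨hW'k hx, hblk' x (hW'k hx)⟩) Γ hΓIA g1 g4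
    have hp1U : ∀ x ∈ U, p1 x = x := fun x hx => q1 x (fun h => hblk x h.1 hx)
    refine ⟨p1 * p0, ?_, ?_⟩
    · intro x hx
      have e0 : p0 x = x := by
        apply hp2 x
        · intro h; exact hx (hWD h)
        · intro y hy h
          apply hx
          rw [← h]
          exact ⟨hblkD (hε2 y hy), hblk _ (hε2 y hy)⟩
      rw [Equiv.Perm.mul_apply, e0]
      apply q1
      intro h
      exact hx ⟨hblkD h.1, hblk x h.1⟩
    · have key : ∀ w ∈ H (U ∪ W), (δ * pa (p1 * p0)) w = (pa (p1 * p0) * γ) w := by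
        apply aut_eqOn
        intro x hx
        rw [MulAut.mul_apply, MulAut.mul_apply, _root_.map_mul, MulAut.mul_apply,
          MulAut.mul_apply]
        rcases hx with hx | hx
        · rw [pa_fix hpU _ (of_mem_H hx), pa_fix hp1U _ (of_mem_H hx), hγU _ (of_mem_H hx),
            pa_fix hpU _ ((hP _).mpr (of_mem_H hx)), pa_fix hp1U _ ((hP _).mpr (of_mem_H hx))]
        · have hex : FreeGroup.of (ε x) ∈ H (U2 ∪ W') := of_mem_H (Or.inr ⟨x, hx, rfl⟩)
          have hex' : FreeGroup.of (ε x) ∈ H (bl (s k) ∪ W') := of_mem_H (Or.inr ⟨x, hx, rfl⟩)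
          have e1 : pa p0 (FreeGroup.of x) = FreeGroup.of (ε x) := by
            rw [pa_of, (hp1 x hx).1]
          rw [e1, q2 _ hex', g2 _ hex, hγ', ← e1, MulAut.inv_apply_self]
      exact key

end Pool.Agent.Helper634.FA
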