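import Pool.Agent.Helper634.LemmaE
set_option autoImplicit false

/-!
The one-step extension lemma.
-/

namespace Pool.Agent.Helper634.FA

open FreeGroup

universe u

variable {X : Type u}

/-- commutator of an automorphism with a permutation automorphism -/
def cm (δ : MulAut (FreeGroup X)) (p : Equiv.Perm X) : MulAut (FreeGroup X) :=
  δ * pa p * δ⁻¹ * (pa p)⁻¹

lemma cm_apply (δ : MulAut (FreeGroup X)) (p : Equiv.Perm X) (w : FreeGroup X) :
    cm δ p w = δ (pa p (δ⁻¹ ((pa p)⁻¹ w))) := rfl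

lemma PP.of_supp {e : Equiv.Perm X} {U : Set X} (h : ∀ x, x ∉ U → e x = x) : PP e U := by
  intro x
  constructor
  · intro hx
    by_contra hn
    rw [h x hn] at hx
    exact hn hx
  · intro hx
    by_contra hn
    have h1 := h _ hn
    have h2 := e.injective h1
    rw [h2] at hn
    exact hn hx

lemma PP.mul {e f : Equiv.Perm X} {U : Set X} (h : PP e U) (h' : PP f U) : PP (e * f) U := by
  intro x
  rw [Equiv.Perm.mul_apply, h, h']

lemma PP.congr {e f : Equiv.Perm X} {U : Set X} (h : PP e U) (h' : ∀ x ∈ U, f x = e x) :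
    PP f U := by
  intro x
  constructor
  · intro hx
    have h1 : e⁻¹ (f x) ∈ U := (h.inv _).mpr hx
    have h2 := h' _ h1
    rw [papply_inv_self] at h2
    rw [← f.injective h2]
    exact h1
  · intro hx
    rw [h' x hx]
    exact (h x).mpr hx

lemma Pres.congr {φ ψ : MulAut (FreeGroup X)} {U : Set X} (h : Pres φ U)
    (h' : ∀ w ∈ H U, ψ w = φ w) : Pres ψ U := by
  intro w
  constructor
  · intro hw
    have h1 : φ⁻¹ (ψ w) ∈ H U := (h.inv _).mpr hw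
    have h2 := h' _ h1
    rw [MulAut.apply_inv_self] at h2
    rw [← ψ.injective h2]
    exact h1
  · intro hw
    rw [h' w hw]
    exact (h w).mpr hw

lemma exists_resPerm (p : Equiv.Perm X) (U : Set X) (h : PP p U) :
    ∃ q : Equiv.Perm X, (∀ x ∈ U, q x = p x) ∧ (∀ x, x ∉ U → q x = x) := by
  obtain ⟨ψ, h1, h2, _⟩ := limit_perm (K := Unit) (fun _ => U) (fun _ => p) (fun _ => h)
    (fun _ _ => ⟨(), ⟨subset_rfl, fun _ _ => rfl⟩, ⟨subset_rfl, fun _ _ => rfl⟩⟩)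
  exact ⟨ψ, h1 (), fun x hx => h2 x (fun _ => hx)⟩

lemma exists_swap (E : Set X) (ε : X → X) (hinj : Set.InjOn ε E) (hd : ∀ e ∈ E, ε e ∉ E) :
    ∃ s : Equiv.Perm X, (∀ e ∈ E, s e = ε e ∧ s (ε e) = e) ∧
      (∀ x, x ∉ E → (∀ e ∈ E, ε e ≠ x) → s x = x) := by
  classical
  let σ : X → X := fun x => if x ∈ E then ε x else if h : ∃ e ∈ E, ε e = x then h.choose else x
  have h1 : ∀ e ∈ E, σ e = ε e := fun e he => by simp only [σ]; rw [if_pos he]
  have h2 : ∀ e ∈ E, σ (ε e) = e := fun e he => by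
    simp only [σ]
    have h : ∃ e' ∈ E, ε e' = ε e := ⟨e, he, rfl⟩
    rw [if_neg (hd e he), dif_pos h]
    exact hinj h.choose_spec.1 he h.choose_spec.2
  have h3 : ∀ x, x ∉ E → (∀ e ∈ E, ε e ≠ x) → σ x = x := fun x hx hx' => by
    simp only [σ]
    have h : ¬ ∃ e ∈ E, ε e = x := by push Not; exact hx'
    rw [if_neg hx, dif_neg h]
  have hinv : Function.Involutive σ := by
    intro x
    by_cases hx : x ∈ E
    · rw [h1 x hx, h2 x hx]
    · by_cases h : ∃ e ∈ E, ε e = x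
      · obtain ⟨e, he, rfl⟩ := h
        rw [h2 e he, h1 e he]
      · push Not at h
        rw [h3 x hx h, h3 x hx h]
  exact ⟨hinv.toPerm σ, fun e he => ⟨h1 e he, h2 e he⟩, h3⟩

lemma choose_new (col : X → Bool) (E T : Set X) (hE : E.Finite)
    (hT : ∀ c : Bool, {x | x ∈ T ∧ col x = c}.Infinite) :
    ∃ ε : X → X, Set.InjOn ε E ∧ ∀ e ∈ E, ε e ∈ T ∧ col (ε e) = col e := by
  obtain ⟨n, hn⟩ := Set.countable_iff_exists_injOn.mp hE.countable
  refine ⟨fun x => ((hT (col x)).natEmbedding _ (n x)).1, ?_, ?_⟩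
  · intro x hx y hy hxy
    have h1 := ((hT (col x)).natEmbedding _ (n x)).2.2
    have h2 := ((hT (col y)).natEmbedding _ (n y)).2.2
    have hc : col x = col y := by
      rw [← h1, ← h2]
      exact congrArg col hxy
    simp only at hxy
    rw [hc] at hxy
    have := (Set.Infinite.natEmbedding _ (hT (col y))).injective (Subtype.ext hxy)
    exact hn hx hy this
  · intro e _
    exact ((hT (col e)).natEmbedding _ (n e)).2

lemma exists_C2 (S S' W : Set X) (hSW : S ⊆ W) (hWS' : W ⊆ S') (hWfin : (W \ S).Finite)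
    (β : MulAut (FreeGroup X)) (hβS : Pres β S) (hβS' : Pres β S') :
    ∃ C2 : Set X, W ⊆ C2 ∧ C2 ⊆ S' ∧ (C2 \ S).Finite ∧
      ∀ x ∈ W, β (FreeGroup.of x) ∈ H C2 := by
  have h : ∀ x ∈ W, ∃ V : Set X, V ⊆ S' ∧ V.Finite ∧ β (FreeGroup.of x) ∈ H V := by
    intro x hx
    exact exists_supp ((hβS' _).mpr (of_mem_H (hWS' hx)))
  choose! V hV1 hV2 hV3 using h
  refine ⟨W ∪ ⋃ x ∈ W \ S, V x, Set.subset_union_left, ?_, ?_, ?_⟩
  · apply Set.union_subset hWS'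
    apply Set.iUnion₂_subset
    intro x hx
    exact hV1 x hx.1
  · have h1 : (⋃ x ∈ W \ S, V x).Finite :=
      hWfin.biUnion (fun x hx => hV2 x hx.1)
    exact (hWfin.union h1).subset (by
      rintro x ⟨hx | hx, hxS⟩
      · exact Or.inl ⟨hx, hxS⟩
      · exact Or.inr hx)
  · intro x hx
    by_cases hxS : x ∈ S
    · exact H_mono (hSW.trans Set.subset_union_left) ((hβS _).mpr (of_mem_H hxS))
    · refine H_mono ?_ (hV3 x hx)
      refine Set.Subset.trans ?_ Set.subset_union_right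
      exact Set.subset_biUnion_of_mem (u := V) (show x ∈ W \ S from ⟨hx, hxS⟩)

theorem step (col : X → Bool) (S S' C Cn W : Set X)
    (hSCn : S ⊆ Cn) (hCnC : Cn ⊆ C) (hCW : C ⊆ W) (hWS' : W ⊆ S') (hWfin : (W \ S).Finite)
    (hinf : ∀ c : Bool, {x | x ∈ S' \ S ∧ col x = c}.Infinite)
    (δ : MulAut (FreeGroup X)) (p : Equiv.Perm X) (β : MulAut (FreeGroup X))
    (hδC : Pres δ C) (hδCn : Pres δ Cn)
    (hpCn : PP p Cn) (hpcol : ∀ x, col (p x) = col x)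
    (hβS : Pres β S) (hβS' : Pres β S') (hβ : ∀ w ∈ H Cn, β w = cm δ p w) :
    ∃ (C' : Set X) (δ' : MulAut (FreeGroup X)) (p' : Equiv.Perm X),
      W ⊆ C' ∧ C' ⊆ S' ∧ (C' \ S).Finite ∧ Pres δ' C' ∧ Pres δ' S' ∧
      (∀ w ∈ H C, δ' w = δ w) ∧ PP p' C' ∧ PP p' S' ∧ (∀ x ∈ Cn, p' x = p x) ∧
      (∀ x, col (p' x) = col x) ∧ (∀ w ∈ H W, cm δ' p' w = β w) := by
  classical
  obtain ⟨C2, hWC2, hC2S', hC2fin, hβC2⟩ :=
    exists_C2 S S' W (hSCn.trans (hCnC.trans hCW)) hWS' hWfin β hβS hβS'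
  obtain ⟨β1, hβ1W, hβ1C2, hβ1not⟩ := lemmaE S W C2 (hSCn.trans (hCnC.trans hCW)) hWC2 hC2fin
    β hβS hβC2
  have hSC2 : S ⊆ C2 := hSCn.trans (hCnC.trans (hCW.trans hWC2))
  have hCnC2 : Cn ⊆ C2 := hCnC.trans (hCW.trans hWC2)
  have hCC2 : C ⊆ C2 := hCW.trans hWC2
  have hEfin : (C2 \ Cn).Finite := hC2fin.subset (fun x hx => ⟨hx.1, fun h => hx.2 (hSCn h)⟩)
  obtain ⟨ε, hεinj, hε⟩ := choose_new col (C2 \ Cn) (S' \ C2) hEfin (by
    intro c
    have h1 : {x | x ∈ S' \ S ∧ col x = c} \ (C2 \ S) ⊆ {x | x ∈ S' \ C2 ∧ col x = c} := by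
      rintro x ⟨⟨⟨h1, h2⟩, h3⟩, h4⟩
      exact ⟨⟨h1, fun h => h4 ⟨h, h2⟩⟩, h3⟩
    exact ((hinf c).sdiff hC2fin).mono h1)
  have hεd : ∀ e ∈ C2 \ Cn, ε e ∉ C2 := fun e he => (hε e he).1.2
  obtain ⟨sw, hsw1, hsw2⟩ := exists_swap (C2 \ Cn) ε hεinj (fun e he h => hεd e he h.1)
  obtain ⟨r, hr1, hr2⟩ := exists_resPerm p Cn hpCn
  let p' : Equiv.Perm X := r * sw
  have hp'Cn : ∀ x ∈ Cn, p' x = p x := by
    intro x hx
    have : sw x = x := hsw2 x (fun h => h.2 hx) (fun e he h => hεd e he (h ▸ hCnC2 hx))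
    change r (sw x) = _
    rw [this, hr1 x hx]
  have hp'E : ∀ x ∈ C2 \ Cn, p' x = ε x := by
    intro x hx
    change r (sw x) = _
    rw [(hsw1 x hx).1, hr2 _ (fun h => hεd x hx (hCnC2 h))]
  have hp'E' : ∀ x ∈ C2 \ Cn, p' (ε x) = x := by
    intro x hx
    change r (sw _) = _
    rw [(hsw1 x hx).2, hr2 _ hx.2]
  have hp'0 : ∀ x, x ∉ C2 → (∀ e ∈ C2 \ Cn, ε e ≠ x) → p' x = x := by
    intro x hx hx'
    change r (sw _) = _
    rw [hsw2 x (fun h => hx h.1) hx', hr2 _ (fun h => hx (hCnC2 h))]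
  let C' : Set X := C2 ∪ ε '' (C2 \ Cn)
  let U : Set X := Cn ∪ ε '' (C2 \ Cn)
  have hUC' : U ⊆ C' := Set.union_subset_union_left _ hCnC2
  have hC'S' : C' ⊆ S' := by
    apply Set.union_subset hC2S'
    rintro _ ⟨e, he, rfl⟩
    exact (hε e he).1.1
  have hp'col : ∀ x, col (p' x) = col x := by
    intro x
    by_cases h1 : x ∈ C2
    · by_cases h2 : x ∈ Cn
      · rw [hp'Cn x h2, hpcol]
      · rw [hp'E x ⟨h1, h2⟩, (hε x ⟨h1, h2⟩).2]
    · by_cases h3 : ∃ e ∈ C2 \ Cn, ε e = x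
      · obtain ⟨e, he, rfl⟩ := h3
        rw [hp'E' e he, (hε e he).2]
      · push Not at h3
        rw [hp'0 x h1 h3]
  have hp'not : ∀ x, x ∉ C' → p' x = x := by
    intro x hx
    apply hp'0 x (fun h => hx (Or.inl h))
    intro e he h
    exact hx (Or.inr ⟨e, he, h⟩)
  have hp'C' : PP p' C' := PP.of_supp hp'not
  have hp'S' : PP p' S' := PP.of_supp (fun x hx => hp'not x (fun h => hx (hC'S' h)))
  -- automorphism part
  let δ1 : MulAut (FreeGroup X) := res δ C hδC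
  have hδ1C : ∀ w ∈ H C, δ1 w = δ w := fun w hw => res_mem hδC hw
  have hδ1not : ∀ x, x ∉ C → δ1 (FreeGroup.of x) = FreeGroup.of x := fun x hx => res_not hδC hx
  have hδ1presC : Pres δ1 C := res_pres hδC
  have hδ1C2 : Pres δ1 C2 := hδ1presC.of_supp hδ1not hCC2
  have hδ1Cn : Pres δ1 Cn := hδCn.congr (fun w hw => hδ1C w (H_mono hCnC hw))
  have hδ1E' : Pres δ1 (ε '' (C2 \ Cn)) := by
    have hfix : ∀ w ∈ H (ε '' (C2 \ Cn)), δ1 w = (1 : MulAut (FreeGroup X)) w := by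
      apply aut_eqOn
      rintro _ ⟨e, he, rfl⟩
      exact hδ1not _ (fun h => hεd e he (hCC2 h))
    exact Pres.one.congr hfix
  have hδ1U : Pres δ1 U := hδ1Cn.union hδ1E'
  have hf1 : ∀ w ∈ H C2, (pa p')⁻¹ w ∈ H U := by
    rw [← _root_.map_inv]
    apply pa_mem
    intro x hx
    by_cases h2 : x ∈ Cn
    · left
      have : PP p' Cn := hpCn.congr hp'Cn
      exact (this.inv x).mpr h2
    · right
      refine ⟨x, ⟨hx, h2⟩, ?_⟩
      rw [Equiv.Perm.eq_inv_iff_eq]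
      exact hp'E' x ⟨hx, h2⟩
  have hf2 : ∀ w ∈ H U, pa p' w ∈ H C2 := by
    apply pa_mem
    rintro x (hx | ⟨e, he, rfl⟩)
    · rw [hp'Cn x hx]
      exact hCnC2 ((hpCn x).mpr hx)
    · rw [hp'E' e he]; exact he.1
  let κ : MulAut (FreeGroup X) := (pa p')⁻¹ * δ1⁻¹ * β1 * pa p'
  have hκ : ∀ w, κ w = (pa p')⁻¹ (δ1⁻¹ (β1 (pa p' w))) := fun w => rfl
  have hκi : ∀ w, κ⁻¹ w = (pa p')⁻¹ (β1⁻¹ (δ1 (pa p' w))) := by
    intro w
    have : κ⁻¹ = (pa p')⁻¹ * β1⁻¹ * δ1 * pa p' := by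
      simp only [κ]; group
    rw [this]; rfl
  have hκU : Pres κ U := by
    apply Pres.mk'
    · intro x hx
      rw [hκ]
      exact hf1 _ ((hδ1C2.inv _).mpr ((hβ1C2 _).mpr (hf2 _ (of_mem_H hx))))
    · intro x hx
      rw [hκi]
      exact hf1 _ ((hβ1C2.inv _).mpr ((hδ1C2 _).mpr (hf2 _ (of_mem_H hx))))
  have hpaCn : ∀ w ∈ H Cn, pa p' w = pa p w := by
    apply aut_eqOn
    intro x hx
    rw [pa_of, pa_of, hp'Cn x hx]
  have hfA : ∀ w ∈ H Cn, κ w = δ⁻¹ w := by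
    intro w hw
    have h1 : pa p w ∈ H Cn := (hpCn.pres _).mpr hw
    have h2 : δ⁻¹ w ∈ H Cn := (hδCn.inv _).mpr hw
    have h3 : pa p (δ⁻¹ w) ∈ H Cn := (hpCn.pres _).mpr h2
    rw [hκ, hpaCn w hw, hβ1W _ (H_mono (hCnC.trans hCW) h1), hβ _ h1, cm_apply,
      MulAut.inv_apply_self]
    have h4 : δ1 (pa p (δ⁻¹ w)) = δ (pa p (δ⁻¹ w)) := hδ1C _ (H_mono hCnC h3)
    rw [← h4, MulAut.inv_apply_self, ← hpaCn _ h2, MulAut.inv_apply_self]
  have hκδU : Pres (κ * δ1) U := hκU.mul hδ1U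
  let μ : MulAut (FreeGroup X) := res (κ * δ1) U hκδU
  have hμU : ∀ w ∈ H U, μ w = κ (δ1 w) := fun w hw => res_mem hκδU hw
  have hμnot : ∀ x, x ∉ U → μ (FreeGroup.of x) = FreeGroup.of x := fun x hx => res_not hκδU hx
  have hμpres : Pres μ U := res_pres hκδU
  have hfB : ∀ w ∈ H C2, μ w = w := by
    apply aut_eqOn μ 1
    intro x hx
    by_cases h2 : x ∈ Cn
    · rw [hμU _ (of_mem_H (Or.inl h2)), hδ1C _ (of_mem_H (hCnC h2)),
        hfA _ ((hδCn _).mpr (of_mem_H h2)), MulAut.inv_apply_self]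
      rfl
    · rw [hμnot x]
      · rfl
      · rintro (h | ⟨e, he, rfl⟩)
        · exact h2 h
        · exact hεd e he hx
  let δ' : MulAut (FreeGroup X) := δ1 * μ⁻¹
  have hfC : ∀ w ∈ H C2, δ' w = δ1 w := by
    intro w hw
    change δ1 (μ⁻¹ w) = _
    congr 1
    conv_lhs => rw [← hfB w hw]
    rw [MulAut.inv_apply_self]
  have hδ'i : ∀ w, δ'⁻¹ w = μ (δ1⁻¹ w) := by
    intro w
    have : δ'⁻¹ = μ * δ1⁻¹ := by simp only [δ']; group
    rw [this]; rfl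
  have hfD : ∀ w ∈ H U, δ'⁻¹ w = κ w := by
    intro w hw
    rw [hδ'i, hμU _ ((hδ1U.inv _).mpr hw), MulAut.apply_inv_self]
  have hfE : ∀ w ∈ H C2, cm δ' p' w = β1 w := by
    intro w hw
    rw [cm_apply, hfD _ (hf1 w hw), hκ, MulAut.apply_inv_self, MulAut.apply_inv_self]
    rw [hfC _ ((hδ1C2.inv _).mpr ((hβ1C2 _).mpr hw)), MulAut.apply_inv_self]
  refine ⟨C', δ', p', hWC2.trans Set.subset_union_left, hC'S', ?_, ?_, ?_, ?_, hp'C', hp'S',
    hp'Cn, hp'col, ?_⟩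
  · have h1 : (ε '' (C2 \ Cn)).Finite := hEfin.image _
    exact (hC2fin.union h1).subset (by
      rintro x ⟨hx | hx, hxS⟩
      · exact Or.inl ⟨hx, hxS⟩
      · exact Or.inr hx)
  · exact (hδ1presC.of_supp hδ1not (hCC2.trans Set.subset_union_left)).mul
      (hμpres.of_supp hμnot hUC').inv
  · exact (hδ1presC.of_supp hδ1not (hCC2.trans hC2S')).mul
      (hμpres.of_supp hμnot (hUC'.trans hC'S')).inv
  · intro w hw
    rw [hfC w (H_mono hCC2 hw), hδ1C w hw]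
  · intro w hw
    rw [hfE w (H_mono hWC2 hw), hβ1W w hw]

end Pool.Agent.Helper634.FA
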