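import Pool.Agent.Helper634.Global
set_option autoImplicit false

/-!
Permutations of `Y × ℤ × ℤ` preserving the class `Y × {(0,0)}`.
-/

namespace Pool.Agent.Helper634.FA

open FreeGroup

universe u

variable {Y : Type u}

/-- diagonal permutation -/
def DD (Q : ℤ → ℤ → Equiv.Perm Y) : Equiv.Perm (Y × ℤ × ℤ) where
  toFun t := (Q t.2.1 t.2.2 t.1, t.2.1, t.2.2)
  invFun t := ((Q t.2.1 t.2.2)⁻¹ t.1, t.2.1, t.2.2)
  left_inv t := by
    obtain ⟨y, i, k⟩ := t
    simp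
  right_inv t := by
    obtain ⟨y, i, k⟩ := t
    simp

lemma DD_apply (Q : ℤ → ℤ → Equiv.Perm Y) (y : Y) (i k : ℤ) :
    DD Q (y, i, k) = (Q i k y, i, k) := rfl

lemma DD_inv_apply (Q : ℤ → ℤ → Equiv.Perm Y) (y : Y) (i k : ℤ) :
    (DD Q)⁻¹ (y, i, k) = ((Q i k)⁻¹ y, i, k) := rfl

/-- first shift -/
def SS : Equiv.Perm (Y × ℤ × ℤ) where
  toFun t := (t.1, t.2.1 + 1, t.2.2)
  invFun t := (t.1, t.2.1 - 1, t.2.2)
  left_inv t := by
    obtain ⟨y, i, k⟩ := t
    simp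
  right_inv t := by
    obtain ⟨y, i, k⟩ := t
    simp

lemma SS_pow (n : ℕ) (y : Y) (i k : ℤ) :
    ((SS : Equiv.Perm (Y × ℤ × ℤ)) ^ n) (y, i, k) = (y, i + n, k) := by
  induction n generalizing i with
  | zero => simp
  | succ n ih =>
    rw [pow_succ, Equiv.Perm.mul_apply]
    change (SS ^ n) (y, i + 1, k) = _
    rw [ih]
    push_cast
    ring_nf

lemma SS_pow_inv (n : ℕ) (y : Y) (i k : ℤ) :
    ((SS : Equiv.Perm (Y × ℤ × ℤ)) ^ n)⁻¹ (y, i, k) = (y, i - n, k) := by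
  rw [Equiv.Perm.inv_eq_iff_eq, SS_pow]
  simp

/-- second shift, only on the row `0` -/
def UU : Equiv.Perm (Y × ℤ × ℤ) where
  toFun t := (t.1, t.2.1, if t.2.1 = 0 then t.2.2 + 1 else t.2.2)
  invFun t := (t.1, t.2.1, if t.2.1 = 0 then t.2.2 - 1 else t.2.2)
  left_inv t := by
    obtain ⟨y, i, k⟩ := t
    by_cases h : i = 0 <;> simp [h]
  right_inv t := by
    obtain ⟨y, i, k⟩ := t
    by_cases h : i = 0 <;> simp [h]

lemma UU_apply (y : Y) (i k : ℤ) :
    (UU : Equiv.Perm (Y × ℤ × ℤ)) (y, i, k) = (y, i, if i = 0 then k + 1 else k) := rfl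

lemma UU_inv_apply (y : Y) (i k : ℤ) :
    (UU : Equiv.Perm (Y × ℤ × ℤ))⁻¹ (y, i, k) = (y, i, if i = 0 then k - 1 else k) := rfl

/-- the reflection on the row `0` -/
def PI : Equiv.Perm (Y × ℤ × ℤ) where
  toFun t := (t.1, t.2.1, if t.2.1 = 0 then -t.2.2 else t.2.2)
  invFun t := (t.1, t.2.1, if t.2.1 = 0 then -t.2.2 else t.2.2)
  left_inv t := by
    obtain ⟨y, i, k⟩ := t
    by_cases h : i = 0 <;> simp [h]
  right_inv t := by
    obtain ⟨y, i, k⟩ := t
    by_cases h : i = 0 <;> simp [h]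

lemma PI_apply (y : Y) (i k : ℤ) :
    (PI : Equiv.Perm (Y × ℤ × ℤ)) (y, i, k) = (y, i, if i = 0 then -k else k) := rfl

lemma PI_mul_self : (PI : Equiv.Perm (Y × ℤ × ℤ)) * PI = 1 := by
  ext1 ⟨y, i, k⟩
  rw [Equiv.Perm.mul_apply, PI_apply, PI_apply]
  by_cases h : i = 0 <;> simp [h]

lemma UU_sq : (UU : Equiv.Perm (Y × ℤ × ℤ)) * UU = (UU * PI * UU⁻¹) * PI := by
  ext1 ⟨y, i, k⟩
  simp only [Equiv.Perm.mul_apply]
  rw [UU_apply, UU_apply, PI_apply, UU_inv_apply, PI_apply, UU_apply]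
  by_cases h : i = 0
  · simp only [h, if_true]
    congr 2
    ring
  · simp [h]

/-- the key commutator identity -/
lemma key_comm (q : ℕ → Equiv.Perm Y) (n : ℕ) :
    let T : Equiv.Perm (Y × ℤ × ℤ) :=
      DD (fun i k => if 0 ≤ i ∧ 0 ≤ k ∧ k % 2 = 0 then q i.toNat else 1)
    let A := (SS ^ n)⁻¹ * T * SS ^ n
    A * (UU * UU) * A⁻¹ * (UU * UU)⁻¹ =
      DD (fun i k => if i = 0 ∧ k = 0 then q n else 1) := by
  intro T A
  have hA : ∀ y i k, A (y, i, k) =
      ((if 0 ≤ i + n ∧ 0 ≤ k ∧ k % 2 = 0 then q (i + n).toNat else 1) y, i, k) := by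
    intro y i k
    simp only [A, T, Equiv.Perm.mul_apply]
    rw [SS_pow, DD_apply, SS_pow_inv]
    simp
  have hAi : ∀ y i k, A⁻¹ (y, i, k) =
      ((if 0 ≤ i + n ∧ 0 ≤ k ∧ k % 2 = 0 then q (i + n).toNat else 1)⁻¹ y, i, k) := by
    intro y i k
    rw [Equiv.Perm.inv_eq_iff_eq, hA]
    simp
  ext1 ⟨y, i, k⟩
  simp only [Equiv.Perm.mul_apply, mul_inv_rev]
  rw [UU_inv_apply, UU_inv_apply, hAi, UU_apply, UU_apply, hA, DD_apply]
  by_cases h : i = 0
  · subst h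
    simp only [if_true, true_and, zero_add]
    have e1 : k - 1 - 1 + 1 + 1 = k := by ring
    rw [e1]
    have e2 : (0 : ℤ) ≤ n := by positivity
    simp only [e2, true_and, Int.toNat_natCast]
    by_cases hk : k = 0
    · subst hk
      norm_num
    · by_cases hk2 : 0 ≤ k ∧ k % 2 = 0
      · have hk3 : 0 ≤ k - 1 - 1 ∧ (k - 1 - 1) % 2 = 0 := by omega
        rw [if_pos hk2, if_pos hk3, if_neg hk]
        simp
      · have hk3 : ¬ (0 ≤ k - 1 - 1 ∧ (k - 1 - 1) % 2 = 0) := by omega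
        rw [if_neg hk2, if_neg hk3, if_neg hk]
        simp
  · simp only [h, if_false, false_and]
    simp

/-- the colour class -/
def cl (t : Y × ℤ × ℤ) : Bool := decide (t.2.1 = 0 ∧ t.2.2 = 0)

lemma supported_eq (r : Equiv.Perm (Y × ℤ × ℤ)) (hr : ∀ t, cl t = false → r t = t) :
    ∃ q : Equiv.Perm Y, r = DD (fun i k => if i = 0 ∧ k = 0 then q else 1) := by
  have hPP : PP r {t | cl t = true} := PP.of_supp (fun x hx => hr x (by simpa using hx))
  have h1 : ∀ y, (r (y, 0, 0)).2 = (0, 0) := by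
    intro y
    have : r (y, 0, 0) ∈ {t : Y × ℤ × ℤ | cl t = true} := (hPP _).mpr (by simp [cl])
    simp only [Set.mem_ofPred_eq, cl, decide_eq_true_eq] at this
    exact Prod.ext this.1 this.2
  have h2 : ∀ y, (r⁻¹ (y, 0, 0)).2 = (0, 0) := by
    intro y
    have : r⁻¹ (y, 0, 0) ∈ {t : Y × ℤ × ℤ | cl t = true} := (hPP.inv _).mpr (by simp [cl])
    simp only [Set.mem_ofPred_eq, cl, decide_eq_true_eq] at this
    exact Prod.ext this.1 this.2
  let q : Equiv.Perm Y :=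
    { toFun := fun y => (r (y, 0, 0)).1
      invFun := fun y => (r⁻¹ (y, 0, 0)).1
      left_inv := by
        intro y
        have : ((r (y, 0, 0)).1, (0 : ℤ), (0 : ℤ)) = r (y, 0, 0) :=
          Prod.ext rfl (h1 y).symm
        simp only
        rw [this, pinv_apply_self]
      right_inv := by
        intro y
        have : ((r⁻¹ (y, 0, 0)).1, (0 : ℤ), (0 : ℤ)) = r⁻¹ (y, 0, 0) :=
          Prod.ext rfl (h2 y).symm
        simp only
        rw [this, papply_inv_self] }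
  refine ⟨q, ?_⟩
  ext1 ⟨y, i, k⟩
  rw [DD_apply]
  by_cases h : i = 0 ∧ k = 0
  · obtain ⟨rfl, rfl⟩ := h
    simp only [and_self, if_true]
    change _ = ((r (y, 0, 0)).1, _, _)
    exact Prod.ext rfl (h1 y)
  · rw [if_neg h, hr _ (by simpa [cl] using h)]
    rfl

lemma split_perm (p : Equiv.Perm (Y × ℤ × ℤ)) (hp : ∀ t, cl (p t) = cl t) :
    ∃ r s : Equiv.Perm (Y × ℤ × ℤ), (∀ t, cl t = false → r t = t) ∧
      (∀ t, cl t = true → s t = t) ∧ p = r * s := by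
  have h1 : PP p {t | cl t = true} := fun t => by
    simp only [Set.mem_ofPred_eq]; rw [hp]
  have h2 : PP p {t | cl t = false} := fun t => by
    simp only [Set.mem_ofPred_eq]; rw [hp]
  obtain ⟨r, hr1, hr2⟩ := exists_resPerm p _ h1
  obtain ⟨s, hs1, hs2⟩ := exists_resPerm p _ h2
  refine ⟨r, s, ?_, ?_, ?_⟩
  · intro t ht
    exact hr2 t (by simp [ht])
  · intro t ht
    exact hs2 t (by simp [ht])
  · ext1 t
    rw [Equiv.Perm.mul_apply]
    cases h : cl t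
    · rw [hs1 t (by simpa using h)]
      rw [hr2 _ (by simp only [Set.mem_ofPred_eq]; rw [hp, h]; simp)]
    · rw [hs2 t (by simp [h])]
      rw [hr1 t (by simpa using h)]

lemma exists_exchange (e : Y ≃ Y × ℕ) : ∃ om : Equiv.Perm (Y × ℤ × ℤ),
    ∀ t, cl (om t) = !(cl t) := by
  have h1 : Nonempty (Y ≃ {t : Y × ℤ × ℤ // cl t = false}) := by
    have h2 : Nonempty (ℕ ≃ {t : ℤ × ℤ // ¬ (t.1 = 0 ∧ t.2 = 0)}) := by
      have : Infinite {t : ℤ × ℤ // ¬ (t.1 = 0 ∧ t.2 = 0)} := by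
        refine Infinite.of_injective (fun n : ℕ => ⟨((n : ℤ) + 1, 0), ?_⟩) ?_
        · simp; omega
        · intro a b hab
          simp at hab
          exact hab
      have : Denumerable {t : ℤ × ℤ // ¬ (t.1 = 0 ∧ t.2 = 0)} :=
        Classical.choice (nonempty_denumerable _)
      exact ⟨(Denumerable.eqv _).symm⟩
    obtain ⟨g⟩ := h2
    refine ⟨(e.trans ((Equiv.refl Y).prodCongr g)).trans ?_⟩
    exact
      { toFun := fun t => ⟨(t.1, t.2.1), by simpa [cl] using t.2.2⟩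
        invFun := fun t => (t.1.1, ⟨t.1.2, by simpa [cl] using t.2⟩)
        left_inv := fun t => rfl
        right_inv := fun t => rfl }
  obtain ⟨g⟩ := h1
  have h3 : ∀ t : Y × ℤ × ℤ, cl t = true → t = (t.1, 0, 0) := by
    rintro ⟨y, i, k⟩ h
    simp only [cl, decide_eq_true_eq] at h
    rw [h.1, h.2]
  obtain ⟨s, hs1, hs2⟩ := exists_swap {t : Y × ℤ × ℤ | cl t = true} (fun t => (g t.1 : Y × ℤ × ℤ))
    (by
      intro a ha b hb hab
      have := g.injective (Subtype.ext hab)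
      rw [h3 a ha, h3 b hb, this])
    (by
      intro a ha
      have := (g a.1).2
      simp only [Set.mem_ofPred_eq]
      rw [this]; simp)
  refine ⟨s, ?_⟩
  intro t
  cases h : cl t
  · have : t = (g (g.symm ⟨t, h⟩) : Y × ℤ × ℤ) := by simp
    have h5 := (hs1 (g.symm ⟨t, h⟩, 0, 0) (by simp [cl])).2
    simp only [Equiv.apply_symm_apply] at h5
    rw [h5]
    simp [cl]
  · rw [(hs1 t h).1, (g t.1).2]
    rfl

end Pool.Agent.Helper634.FA
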