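import Pool.Agent.Helper634.ExGen
set_option autoImplicit false

/-!
Uniqueness of generic extensions, by back and forth.
-/

namespace Pool.Agent.Helper634.FA

open FreeGroup

universe u

variable {X : Type u}

theorem limit_aut2 (S : ℕ → Set X) (hS : Monotone S) (φ : ℕ → MulAut (FreeGroup X))
    (hφ : ∀ k l, k ≤ l → ∀ w ∈ H (S k), φ l w = φ k w)
    (hpres : ∀ k, Pres (φ k) (⋃ k, S k))
    (hsurj : ∀ x ∈ ⋃ k, S k, ∃ k, (φ k)⁻¹ (FreeGroup.of x) ∈ H (S k)) :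
    ∃ ψ : MulAut (FreeGroup X), (∀ k, ∀ w ∈ H (S k), ψ w = φ k w) ∧
      (∀ x, x ∉ (⋃ k, S k) → ψ (FreeGroup.of x) = FreeGroup.of x) ∧ Pres ψ (⋃ k, S k) := by
  classical
  set T : Set X := ⋃ k, S k with hT
  have hST : ∀ k, S k ⊆ T := fun k => Set.subset_iUnion S k
  have hT' : ∀ x ∈ T, ∃ k, x ∈ S k := fun x hx => Set.mem_iUnion.mp hx
  choose! a ha using hT'
  choose! b hb using hsurj
  let f : X → FreeGroup X := fun x => if x ∈ T then φ (a x) (FreeGroup.of x) else FreeGroup.of x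
  let g : X → FreeGroup X := fun x =>
    if x ∈ T then (φ (b x))⁻¹ (FreeGroup.of x) else FreeGroup.of x
  have hf : ∀ k, ∀ x ∈ S k, f x = φ k (FreeGroup.of x) := by
    intro k x hx
    have hxT : x ∈ T := hST k hx
    simp only [f]
    rw [if_pos hxT, ← hφ (a x) (max (a x) k) (le_max_left _ _) _ (of_mem_H (ha x hxT)),
      ← hφ k (max (a x) k) (le_max_right _ _) _ (of_mem_H hx)]
  have hf0 : ∀ x, x ∉ T → f x = FreeGroup.of x := fun x hx => by simp only [f]; rw [if_neg hx]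
  have hg1 : ∀ x ∈ T, g x = (φ (b x))⁻¹ (FreeGroup.of x) := fun x hx => by
    simp only [g]; rw [if_pos hx]
  have hg0 : ∀ x, x ∉ T → g x = FreeGroup.of x := fun x hx => by simp only [g]; rw [if_neg hx]
  have hf' : ∀ k, ∀ w ∈ H (S k), FreeGroup.lift f w = φ k w := fun k =>
    hom_eqOn (FreeGroup.lift f) (φ k).toMonoidHom (fun x hx => by
      rw [FreeGroup.lift_apply_of]; exact hf k x hx)
  have h1 : ∀ x, FreeGroup.lift f (g x) = FreeGroup.of x := by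
    intro x
    by_cases hx : x ∈ T
    · rw [hg1 x hx, hf' _ _ (hb x hx), MulAut.apply_inv_self]
    · rw [hg0 x hx, FreeGroup.lift_apply_of, hf0 x hx]
  have hfg : ∀ w, FreeGroup.lift f (FreeGroup.lift g w) = w := by
    have : (FreeGroup.lift f).comp (FreeGroup.lift g) = MonoidHom.id _ := by
      ext x; simp [h1]
    intro w; exact DFunLike.congr_fun this w
  have hinj : ∀ u ∈ H T, ∀ v ∈ H T, FreeGroup.lift f u = FreeGroup.lift f v → u = v := by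
    intro u hu v hv huv
    obtain ⟨k, hk⟩ := mem_H_of_mono hS hu
    obtain ⟨l, hl⟩ := mem_H_of_mono hS hv
    have hk' := H_mono (hS (le_max_left k l)) hk
    have hl' := H_mono (hS (le_max_right k l)) hl
    rw [hf' _ u hk', hf' _ v hl'] at huv
    exact (φ (max k l)).injective huv
  have hgT : ∀ w ∈ H T, FreeGroup.lift g w ∈ H T := hom_mem _ _ (fun x hx => by
    rw [FreeGroup.lift_apply_of, hg1 x hx]
    exact H_mono (hST _) (hb x hx))
  have hfT : ∀ x ∈ T, f x ∈ H T := by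
    intro x hx
    rw [hf (a x) x (ha x hx)]
    exact (hpres (a x) _).mpr (of_mem_H hx)
  have h2 : ∀ x, FreeGroup.lift g (f x) = FreeGroup.of x := by
    intro x
    by_cases hx : x ∈ T
    · apply hinj _ (hgT _ (hfT x hx)) _ (of_mem_H hx)
      rw [hfg, FreeGroup.lift_apply_of]
    · rw [hf0 x hx, FreeGroup.lift_apply_of, hg0 x hx]
  refine ⟨mkAut f g h1 h2, ?_, ?_, ?_⟩
  · intro k w hw
    rw [mkAut_apply, hf' k w hw]
  · intro x hx
    rw [mkAut_of, hf0 x hx]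
  · apply Pres.mk'
    · intro x hx
      rw [mkAut_of]; exact hfT x hx
    · intro x hx
      rw [mkAut_inv_apply]; exact hgT _ (of_mem_H hx)

/-- partial isomorphisms -/
structure StA (δ₁ δ₂ : MulAut (FreeGroup X)) (c D : Set X) (g : MulAut (FreeGroup X))
    (U : Set X) : Prop where
  hcU : c ⊆ U
  hUD : U ⊆ c ∪ D
  hfin : (U \ c).Finite
  hgc : ∀ w ∈ H c, g w = w
  hgD : Pres g (c ∪ D)
  hgnot : ∀ x, x ∉ c ∪ D → g (FreeGroup.of x) = FreeGroup.of x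
  hpres : Pres δ₁ U
  heq : ∀ w ∈ H U, g (δ₁ w) = δ₂ (g w)

variable {δ₁ δ₂ : MulAut (FreeGroup X)} {c D : Set X}

lemma StA.half {g : MulAut (FreeGroup X)} {U : Set X} (h : StA δ₁ δ₂ c D g U)
    (hIA : IA δ₂) (hG1 : Gen δ₁ c D) (hG2 : Gen δ₂ c D)
    (x : X) (hx : x ∈ D) :
    ∃ (g' : MulAut (FreeGroup X)) (U' : Set X), StA δ₂ δ₁ c D g'⁻¹ U' ∧
      (∀ w ∈ H U, g' w = g w) ∧ U ⊆ U' ∧ x ∈ U' ∧ ∀ w ∈ H U, g w ∈ H U' := by
  have hgpc : Pres g c := Pres.one.congr (fun w hw => h.hgc w hw)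
  have hcx : c ⊆ insert x U := h.hcU.trans (Set.subset_insert _ _)
  obtain ⟨Q, hQ1, hQ2, hQ3, hQ4⟩ := exists_C2 c (c ∪ D) (insert x U) hcx
    (Set.insert_subset (Or.inr hx) h.hUD)
    ((h.hfin.union (Set.finite_singleton x)).subset (by
      rintro y ⟨hy | hy, hyc⟩
      · exact Or.inr hy
      · exact Or.inl ⟨hy, hyc⟩)) g hgpc h.hgD
  obtain ⟨U', hU'1, hU'2, hU'3, hU'4⟩ := hG2.lf (Q \ c) hQ3 (by
    rintro y ⟨hy, hyc⟩
    exact (hQ2 hy).resolve_left hyc)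
  have hQU' : Q ⊆ U' := by
    intro y hy
    by_cases hyc : y ∈ c
    · exact hU'1 (Or.inl hyc)
    · exact hU'1 (Or.inr ⟨hy, hyc⟩)
  have hUU' : U ⊆ U' := (Set.subset_insert x U).trans (hQ1.trans hQU')
  have hcU' : c ⊆ U' := h.hcU.trans hUU'
  have hgU' : ∀ y ∈ U, g (FreeGroup.of y) ∈ H U' := fun y hy =>
    H_mono hQU' (hQ4 y (Set.mem_insert_of_mem _ hy))
  obtain ⟨g₁, h1, h2, h3⟩ := lemmaE c U U' h.hcU hUU' hU'3 g hgpc hgU'
  let γ : MulAut (FreeGroup X) := g₁⁻¹ * δ₂ * g₁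
  have hγ : ∀ w, γ w = g₁⁻¹ (δ₂ (g₁ w)) := fun w => rfl
  have hγIA : IA γ := by simpa [γ] using hIA.conj g₁⁻¹
  have hγP : Pres γ U' := (h2.inv.mul hU'4).mul h2
  have hγU : ∀ w ∈ H U, γ w = δ₁ w := by
    intro w hw
    rw [hγ, h1 w hw, ← h.heq w hw, ← h1 _ ((h.hpres w).mpr hw), MulAut.inv_apply_self]
  have hun : U ∪ (U' \ U) = U' := Set.union_sdiff_cancel hUU'
  obtain ⟨p, hp1, hp2⟩ := hG1.ext U (U' \ U) h.hcU h.hUD h.hfin h.hpres
    (hU'3.subset (fun y hy => ⟨hy.1, fun hyc => hy.2 (h.hcU hyc)⟩))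
    (by
      rintro y ⟨hy, hyU⟩
      exact ⟨(hU'2 hy).resolve_left (fun hyc => hyU (h.hcU hyc)), hyU⟩)
    γ hγIA hγU (by rw [hun]; exact hγP)
  rw [hun] at hp2
  have hpU : ∀ y ∈ U, p y = y := fun y hy => hp1 y (fun h => h.2 hy)
  have hinv : (g₁ * (pa p)⁻¹)⁻¹ = pa p * g₁⁻¹ := by group
  refine ⟨g₁ * (pa p)⁻¹, U', ?_, ?_, hUU', hQU' (hQ1 (Set.mem_insert _ _)), ?_⟩
  · rw [hinv]
    refine ⟨hcU', hU'2, hU'3, ?_, ?_, ?_, hU'4, ?_⟩
    · intro w hw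
      have e1 : g₁ w = w := by rw [h1 w (H_mono h.hcU hw), h.hgc w hw]
      have e2 : g₁⁻¹ w = w := by
        conv_lhs => rw [← e1]
        rw [MulAut.inv_apply_self]
      rw [MulAut.mul_apply, e2, pa_fix hpU w (H_mono h.hcU hw)]
    · have hpp : PP p (c ∪ D) := PP.of_supp (fun y hy => hp1 y (fun h => hy (Or.inr h.1)))
      exact hpp.pres.mul (h2.of_supp h3 hU'2).inv
    · intro y hy
      have e1 : g₁ (FreeGroup.of y) = FreeGroup.of y := h3 y (fun h => hy (hU'2 h))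
      have e2 : g₁⁻¹ (FreeGroup.of y) = FreeGroup.of y := by
        conv_lhs => rw [← e1]
        rw [MulAut.inv_apply_self]
      rw [MulAut.mul_apply, e2, pa_of, hp1 y (fun h => hy (Or.inr h.1))]
    · intro w hw
      have hw' : g₁⁻¹ w ∈ H U' := (h2.inv w).mpr hw
      rw [MulAut.mul_apply, MulAut.mul_apply, hp2 _ hw', hγ, MulAut.apply_inv_self]
  · intro w hw
    rw [MulAut.mul_apply, pa_inv_fix hpU w hw, h1 w hw]
  · exact aut_mem g hgU'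

lemma StA.full {g : MulAut (FreeGroup X)} {U : Set X} (h : StA δ₁ δ₂ c D g U)
    (hIA1 : IA δ₁) (hIA2 : IA δ₂) (hG1 : Gen δ₁ c D) (hG2 : Gen δ₂ c D)
    (x : X) (hx : x ∈ D) :
    ∃ (g' : MulAut (FreeGroup X)) (U' : Set X), StA δ₁ δ₂ c D g' U' ∧
      (∀ w ∈ H U, g' w = g w) ∧ U ⊆ U' ∧ x ∈ U' ∧ g'⁻¹ (FreeGroup.of x) ∈ H U' := by
  obtain ⟨g', U', h1, h2, h3, h4, h5⟩ := h.half hIA2 hG1 hG2 x hx
  obtain ⟨k, U'', e1, e2, e3, e4, e5⟩ := h1.half hIA1 hG2 hG1 x hx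
  refine ⟨k⁻¹, U'', e1, ?_, h3.trans e3, e4, ?_⟩
  · intro w hw
    have := e2 (g w) (h5 w hw)
    rw [← h2 w hw, MulAut.inv_apply_self] at this
    rw [← h2 w hw]
    conv_lhs => rw [← this]
    rw [MulAut.inv_apply_self]
  · rw [inv_inv, e2 _ (of_mem_H h4)]
    exact e5 _ (of_mem_H h4)

theorem uniq (hDc : D.Countable) (hIA1 : IA δ₁) (hIA2 : IA δ₂)
    (hc1 : Pres δ₁ c) (heq : ∀ w ∈ H c, δ₁ w = δ₂ w)
    (hG1 : Gen δ₁ c D) (hG2 : Gen δ₂ c D) :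
    ∃ g : MulAut (FreeGroup X), (∀ w ∈ H c, g w = w) ∧ Pres g (c ∪ D) ∧
      (∀ x, x ∉ c ∪ D → g (FreeGroup.of x) = FreeGroup.of x) ∧
      ∀ w ∈ H (c ∪ D), g (δ₁ w) = δ₂ (g w) := by
  classical
  let K : Type u := {q : MulAut (FreeGroup X) × Set X // StA δ₁ δ₂ c D q.1 q.2}
  let P : Preorder K :=
    { le := fun q r => q.1.2 ⊆ r.1.2 ∧ ∀ w ∈ H q.1.2, r.1.1 w = q.1.1 w
      le_refl := fun q => ⟨subset_rfl, fun _ _ => rfl⟩
      le_trans := fun q r s h h' => ⟨h.1.trans h'.1, fun w hw => by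
        rw [h'.2 w (H_mono h.1 hw), h.2 w hw]⟩ }
  let q0 : K := ⟨(1, c), ⟨subset_rfl, Set.subset_union_left, by simp, fun _ _ => rfl, Pres.one,
    fun _ _ => rfl, hc1, fun w hw => heq w hw⟩⟩
  have : Countable ↥D := hDc
  have : Encodable ↥D := Encodable.ofCountable _
  let 𝒟 : ↥D → Order.Cofinal K := fun x =>
    { carrier := {q | (x : X) ∈ q.1.2 ∧ q.1.1⁻¹ (FreeGroup.of (x : X)) ∈ H q.1.2}
      isCofinal := fun q => by
        obtain ⟨g', U', h1, h2, h3, h4, h5⟩ := q.2.full hIA1 hIA2 hG1 hG2 x x.2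
        exact ⟨⟨(g', U'), h1⟩, ⟨h4, h5⟩, ⟨h3, h2⟩⟩ }
  let s : ℕ → K := Order.sequenceOfCofinals q0 𝒟
  have hmono : Monotone s := Order.sequenceOfCofinals.monotone q0 𝒟
  have hmeet : ∀ x : ↥D, ∃ k, (x : X) ∈ (s k).1.2 ∧ (s k).1.1⁻¹ (FreeGroup.of (x : X)) ∈ H (s k).1.2 :=
    fun x => ⟨_, Order.sequenceOfCofinals.encode_mem q0 𝒟 x⟩
  have hS : Monotone (fun k => (s k).1.2) := fun k l hkl => (hmono hkl).1
  have hUn : (⋃ k, (s k).1.2) = c ∪ D := by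
    apply Set.Subset.antisymm
    · exact Set.iUnion_subset (fun k => (s k).2.hUD)
    · rintro x (hx | hx)
      · exact Set.mem_iUnion.mpr ⟨0, (s 0).2.hcU hx⟩
      · obtain ⟨k, hk, _⟩ := hmeet ⟨x, hx⟩
        exact Set.mem_iUnion.mpr ⟨k, hk⟩
  obtain ⟨ψ, h1, h2, h3⟩ := limit_aut2 (fun k => (s k).1.2) hS (fun k => (s k).1.1)
    (fun k l hkl => (hmono hkl).2) (fun k => by rw [hUn]; exact (s k).2.hgD) (by
      intro x hx
      rw [hUn] at hx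
      rcases hx with hx | hx
      · refine ⟨0, ?_⟩
        have hfix := (s 0).2.hgc _ (of_mem_H hx)
        have : (s 0).1.1⁻¹ (FreeGroup.of x) = FreeGroup.of x := by
          conv_lhs => rw [← hfix]
          rw [MulAut.inv_apply_self]
        rw [this]
        exact of_mem_H ((s 0).2.hcU hx)
      · obtain ⟨k, _, hk⟩ := hmeet ⟨x, hx⟩
        exact ⟨k, hk⟩)
  rw [hUn] at h2 h3
  refine ⟨ψ, ?_, h3, h2, ?_⟩
  · intro w hw
    rw [h1 0 w (H_mono (s 0).2.hcU hw), (s 0).2.hgc w hw]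
  · intro w hw
    rw [← hUn] at hw
    obtain ⟨k, hk⟩ := mem_H_of_mono hS hw
    rw [h1 k w hk, h1 k _ (((s k).2.hpres w).mpr hk), (s k).2.heq w hk]

end Pool.Agent.Helper634.FA
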